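import Pool.Agent.T2h63.LT.Dec
import Pool.Agent.T2h63.CY.Pow

/-!
# The Hodge classes on the power with `t` factors
-/

set_option autoImplicit false
set_option linter.unusedSectionVars false

open CategoryTheory AlgebraicGeometry TensorProduct

universe u

namespace Pool.Agent.T2h63.LT

open Module Matrix
open Pool.Agent.H914 Pool.Agent.H914.VarClass Pool.Agent.H914.VarClass.Obj
  Pool.Agent.H914.WeilCohomology
open Pool.Agent.N996.BP (rei tens AQ ce rei_rei)
open Pool.Agent.N996.BP.Geo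
open Pool.Agent.Y133.Half
open Pool.Agent.Y121.AHS (toH HodgeTheory IsHodge)
open Pool.Agent.Y121.AH (CW em em_gr em_add em_zero em_tr em_mul em_map em_smul ex_rat hodgePred)
open Pool.Agent.T2h63.AH
open Pool.Agent.T2h63.CY

variable {k : Type u} [Field k] {𝒱 : VarClass k} {ops : CycleOps 𝒱}

section Full

variable {T : HodgeTheory ops} {X : 𝒱.Obj}

lemma tr_comm {W : WeilCohomology.{u, 0} ops} {X : 𝒱.Obj} {m : ℕ} {y : W.H X}
    (hy : y ∈ W.gr X (2 * m)) (x : W.H X) : W.tr X (x * y) = W.tr X (y * x) := by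
  refine gr_induction (W.isInternal X) (p := fun x => W.tr X (x * y) = W.tr X (y * x)) ?_ ?_ x
  · intro i a ha
    rw [W.comm ha hy]
    have h1 : (-1 : W.K) ^ (i * (2 * m)) = 1 := by
      rw [show i * (2 * m) = 2 * (i * m) by ring, pow_mul]
      norm_num
    rw [h1, one_smul]
  · intro a b ha hb
    rw [add_mul, mul_add, map_add, map_add, ha, hb]

/-- The operator `x ↦ tr(u x) v - tr(v x) u`. -/
noncomputable def opo (W : WeilCohomology.{u, 0} ops) {X : 𝒱.Obj} (u v : W.H X) :
    Module.End W.K (W.H X) :=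
  ((W.tr X).comp (LinearMap.mulLeft W.K u)).smulRight v -
    ((W.tr X).comp (LinearMap.mulLeft W.K v)).smulRight u

lemma opo_apply (W : WeilCohomology.{u, 0} ops) {X : 𝒱.Obj} (u v x : W.H X) :
    opo W u v x = W.tr X (u * x) • v - W.tr X (v * x) • u := rfl

/-- The orthogonal Lie algebra extends to natural families. -/
def FullFam (S : Pool.Agent.Y121.AH.HodgeTheory ops) (X : 𝒱.Obj) (m : ℕ) : Prop :=
  ∀ u v : (CW S).H X, u ∈ (CW S).gr X (2 * m) → v ∈ (CW S).gr X (2 * m) →
    (∀ (j : ℕ) (c : S.W.H X), Pool.Agent.Y121.AH.IsHodge S X j c →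
      (CW S).tr X (u * em S.W ℂ c) = 0) →
    (∀ (j : ℕ) (c : S.W.H X), Pool.Agent.Y121.AH.IsHodge S X j c →
      (CW S).tr X (v * em S.W ℂ c) = 0) →
    ∃ F, FamLie S F ∧ F X = opo (CW S) u v

lemma opo_hodge {S : Pool.Agent.Y121.AH.HodgeTheory ops} {X : 𝒱.Obj} {u v : (CW S).H X}
    {c : S.W.H X} (hu : (CW S).tr X (u * em S.W ℂ c) = 0)
    (hv : (CW S).tr X (v * em S.W ℂ c) = 0) : opo (CW S) u v (em S.W ℂ c) = 0 := by
  rw [opo_apply, hu, hv, zero_smul, zero_smul, sub_zero]

lemma fam_of_full (hfull : FullOrthogonal T X) (m : ℕ) : FullFam (toH T) X m := by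
  intro u v hu hv hu0 hv0
  have h1 : LieOf (T.pq X) (ofC (opo (CW (toH T)) u v) : Oper T X) := by
    refine hfull _ ?_ ?_
    · rintro c ⟨j, hc⟩
      exact opo_hodge (hu0 j c hc) (hv0 j c hc)
    · intro x y
      have h2 : ∀ x y : (CW (toH T)).H X,
          (CW (toH T)).tr X (opo (CW (toH T)) u v x * y) +
            (CW (toH T)).tr X (x * opo (CW (toH T)) u v y) = 0 := by
        intro x y
        rw [opo_apply, opo_apply, sub_mul, mul_sub, smul_mul_assoc, smul_mul_assoc,
          mul_smul_comm, mul_smul_comm, map_sub, map_sub, map_smul, map_smul, map_smul, map_smul,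
          tr_comm hu x, tr_comm hv x, smul_eq_mul, smul_eq_mul, smul_eq_mul, smul_eq_mul]
        ring
      exact h2 (toX x) (toX y)
  obtain ⟨F, hF, h2⟩ := exists_fam h1
  exact ⟨F, hF, h2.trans (toC_ofC _)⟩

end Full

section Main

variable {S : Pool.Agent.Y121.AH.HodgeTheory ops} {X : 𝒱.Obj}
  {ι : Type} [Fintype ι] [DecidableEq ι] {e : Basis ι S.W.K (S.W.H X)}

/-- A matrix inverse to a symmetric block matrix is symmetric and has the same blocks. -/
lemma inv_block {p : ι → Prop} [DecidablePred p] {D G : Matrix ι ι ℚ} (hG : ∀ i j, G i j = G j i)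
    (hG0 : ∀ i j, p i → ¬ p j → G i j = 0)
    (h : ∀ i k, ∑ j, D i j * G j k = if i = k then 1 else 0) :
    (∀ i j, D i j = D j i) ∧ ∀ i j, ¬ (p i ↔ p j) → D i j = 0 := by
  have h1 : D * G = 1 := by
    ext i k
    rw [Matrix.mul_apply, h, Matrix.one_apply]
  have h2 : G * D = 1 := mul_eq_one_comm.1 h1
  have hGt : G.transpose = G := by
    ext i j
    rw [Matrix.transpose_apply, hG]
  have h3 : D.transpose = D := by
    have h4 : G * D.transpose = 1 := by
      have := congrArg Matrix.transpose h1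
      rwa [Matrix.transpose_mul, hGt, Matrix.transpose_one] at this
    calc D.transpose = D * G * D.transpose := by rw [h1, Matrix.one_mul]
      _ = D * (G * D.transpose) := by rw [Matrix.mul_assoc]
      _ = D := by rw [h4, Matrix.mul_one]
  obtain ⟨P, hP⟩ : ∃ P : Matrix ι ι ℚ, P = Matrix.diagonal fun i => if p i then (1 : ℚ) else 0 :=
    ⟨_, rfl⟩
  have h4 : P * G = G * P := by
    ext i j
    rw [hP, Matrix.diagonal_mul, Matrix.mul_diagonal]
    by_cases hi : p i <;> by_cases hj : p j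
    · rw [if_pos hi, if_pos hj, one_mul, mul_one]
    · rw [hG0 i j hi hj, mul_zero, zero_mul]
    · rw [hG i j, hG0 j i hj hi, mul_zero, zero_mul]
    · rw [if_neg hi, if_neg hj, zero_mul, mul_zero]
  have h5 : D * P = P * D := by
    calc D * P = D * P * (G * D) := by rw [h2, Matrix.mul_one]
      _ = D * (P * G) * D := by simp only [Matrix.mul_assoc]
      _ = (D * G) * (P * D) := by rw [h4]; simp only [Matrix.mul_assoc]
      _ = P * D := by rw [h1, Matrix.one_mul]
  refine ⟨fun i j => ?_, fun i j hij => ?_⟩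
  · have := congrFun (congrFun h3 i) j
    rw [Matrix.transpose_apply] at this
    exact this.symm
  · have h6 := congrFun (congrFun h5 i) j
    rw [hP, Matrix.diagonal_mul, Matrix.mul_diagonal] at h6
    by_cases hi : p i <;> by_cases hj : p j
    · exact absurd (iff_of_true hi hj) hij
    · rw [if_pos hi, if_neg hj, mul_zero, one_mul] at h6
      exact h6.symm
    · rw [if_neg hi, if_pos hj, mul_one, zero_mul] at h6
      exact h6
    · exact absurd (iff_of_false hi hj) hij

/-- No odd letters. -/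
def nop' (ι : Type) : ι → Prop := fun _ => False

instance : DecidablePred (nop' ι) := fun _ => isFalse id

lemma pr_nop (i : ι) : (CY.pr (nop' ι) i : ℕ) = 0 := pr_neg (p := nop' ι) (i := i) id

/-- The parity class is the class of the diagonal. -/
lemma dp_even (hp : ∀ j, e j ∈ PH S.W X (CY.pr (nop' ι) j : ℕ)) {D : (Fin (1 + 1) → ι) → ℚ}
    (hD : cls e 1 D = (show S.W.H (pw X 1) from S.W.push (diag X) 1)) :
    (show S.W.H (X.prod X) from dp S.W X) = S.W.push (diag X) 1 := by
  have h2 : (show S.W.H (X.prod X) from dp S.W X) =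
      extOp S.W (H914.par (S.W.isInternal X)) 1 (show S.W.H (X.prod X) from cls e 1 D) := by
    rw [hD]
    rfl
  have h3 : S.W.push (diag X) (1 : S.W.H X) =
      ∑ i, ∑ j, ((D (w2 i j) : ℚ) : S.W.K) • xp S.W (e i) (e j) := by
    rw [← cls_w2]
    exact hD.symm
  rw [h2, h3, cls_w2]
  change extOp S.W (H914.par (S.W.isInternal X)) 1
    (∑ i, ∑ j, ((D (w2 i j) : ℚ) : S.W.K) • xp S.W (e i) (e j)) = _
  rw [map_sum]
  refine Finset.sum_congr rfl fun i _ => ?_
  rw [map_sum]
  refine Finset.sum_congr rfl fun j _ => ?_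
  have h3 : extOp S.W (H914.par (S.W.isInternal X)) 1 (xp S.W (e i) (e j)) =
      xp S.W (H914.par (S.W.isInternal X) (e i)) (e j) := extOp_tmul _ _ _ _
  rw [map_smul, h3, PH.par (hp i), pr_nop, pow_zero, one_smul]

lemma rmo_mem {Q : ClassPred S.W} {p : ι → Prop} [DecidablePred p]
    (he : ∀ i, ¬ p i → e i ∈ Q.sp X) {D : (Fin (1 + 1) → ι) → ℚ}
    (hD : cls e 1 D = (show S.W.H (pw X 1) from S.W.push (diag X) 1))
    (hD0 : ∀ i j, ¬ (p i ↔ p j) → D (w2 i j) = 0) :
    (show S.W.H (X.prod X) from cls e 1 (fun w => Rm p D (w 0) (w 1))) ∈ Q.sp (X.prod X) := by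
  have h1 : (show S.W.H (X.prod X) from cls e 1 (fun w => Rm p D (w 0) (w 1))) =
      S.W.push (diag X) 1 - ∑ i, ∑ j,
      ((if ¬ p i ∧ ¬ p j then D (w2 i j) else 0 : ℚ) : S.W.K) • xp S.W (e i) (e j) := by
    have h3 : S.W.push (diag X) (1 : S.W.H X) =
        ∑ i, ∑ j, ((D (w2 i j) : ℚ) : S.W.K) • xp S.W (e i) (e j) := by
      rw [← cls_w2]
      exact hD.symm
    rw [cls_w2, h3, ← Finset.sum_sub_distrib]
    refine Finset.sum_congr rfl fun i _ => ?_
    rw [← Finset.sum_sub_distrib]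
    refine Finset.sum_congr rfl fun j _ => ?_
    rw [← sub_smul, w2_zero, w2_one]
    congr 1
    rw [Rm]
    by_cases hi : p i <;> by_cases hj : p j
    · rw [if_pos ⟨hi, hj⟩, if_neg (by tauto)]; simp
    · rw [if_neg (by tauto), if_neg (by tauto), hD0 i j (by tauto)]; simp
    · rw [if_neg (by tauto), if_neg (by tauto), hD0 i j (by tauto)]; simp
    · rw [if_neg (by tauto), if_pos ⟨hi, hj⟩]; simp
  rw [h1]
  refine Submodule.sub_mem _ diag_mem (xp_sum_mem he _ fun i j h => ?_)
  by_contra h'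
  exact h (if_neg h')

/-- The determinant. -/
lemma cls_det (n : ℕ) (b : Fin (n + 1) → ι) :
    cls e n (fun w : Fin (n + 1) → ι => ∑ σ : Equiv.Perm (Fin (n + 1)),
      if w = b ∘ σ then ((Equiv.Perm.sign σ : ℤ) : ℚ) else 0) =
    ∑ σ : Equiv.Perm (Fin (n + 1)), (Equiv.Perm.sign σ : ℤ) •
      (List.ofFn fun i => S.W.map (prj X n i) (e (b (σ i)))).prod := by
  rw [cls]
  have h1 : ∀ w : Fin (n + 1) → ι, (((∑ σ : Equiv.Perm (Fin (n + 1)),
      if w = b ∘ σ then ((Equiv.Perm.sign σ : ℤ) : ℚ) else 0 : ℚ)) : S.W.K) • wb e n w =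
      ∑ σ : Equiv.Perm (Fin (n + 1)), if w = b ∘ σ then
        (Equiv.Perm.sign σ : ℤ) • wb e n w else 0 := by
    intro w
    rw [Rat.cast_sum, Finset.sum_smul]
    refine Finset.sum_congr rfl fun σ _ => ?_
    split_ifs
    · rw [Rat.cast_intCast, Int.cast_smul_eq_zsmul]
    · rw [Rat.cast_zero, zero_smul]
  rw [Finset.sum_congr rfl fun w _ => h1 w, Finset.sum_comm]
  refine Finset.sum_congr rfl fun σ _ => ?_
  rw [Finset.sum_ite_eq', if_pos (Finset.mem_univ _), wb_eq]
  rfl

/-- The Hodge classes on the power. -/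
theorem arr_gen (hfft : S_FFTO) (Q : ClassPred S.W) {m n : ℕ} {p : ι → Prop} [DecidablePred p]
    (he0 : ∀ i, ¬ p i → e i ∈ (hodgePred S).sp X) (heQ : ∀ i, ¬ p i → e i ∈ Q.sp X)
    (hdw : ∀ i, p i → e i ∈ S.W.gr X (2 * m))
    (horth : ∀ i, p i → ∀ c ∈ (hodgePred S).sp X, S.W.tr X (e i * c) = 0)
    (hfull : FullFam S X m) (b : Fin (n + 1) → ι) (hbi : Function.Injective b)
    (hbp : ∀ i, p i ↔ i ∈ Set.range b)
    (hdet : ∑ σ : Equiv.Perm (Fin (n + 1)), (Equiv.Perm.sign σ : ℤ) •
      (List.ofFn fun i => S.W.map (prj X n i) (e (b (σ i)))).prod ∈ Q.sp (pw X n))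
    {j : ℕ} {c : S.W.H (pw X n)} (hc : Pool.Agent.Y121.AH.IsHodge S (pw X n) j c) :
    c ∈ Q.sp (pw X n) := by
  have hp0 : ∀ i, e i ∈ PH S.W X 0 := by
    intro i
    by_cases hi : p i
    · refine PH.of' ?_ (hdw i hi)
      omega
    · exact ClassPred.sp_even (he0 i hi)
  have hp : ∀ i, e i ∈ PH S.W X (CY.pr (nop' ι) i : ℕ) := by
    intro i
    rw [pr_nop]
    exact hp0 i
  -- the intersection form
  choose G hG using fun i j => S.rat (S.W.tr X (e i * e j))
  have hGs : ∀ i j, G i j = G j i := by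
    intro i j
    have h1 := PH.comm (hp0 i) (hp0 j)
    rw [mul_zero, pow_zero, one_smul] at h1
    have h2 : ((G i j : ℚ) : S.W.K) = ((G j i : ℚ) : S.W.K) := by
      rw [hG, h1, hG]
    exact Rat.cast_injective h2
  have hG0 : ∀ i j, p i → ¬ p j → G i j = 0 := by
    intro i j hi hj
    have h2 : ((G i j : ℚ) : S.W.K) = ((0 : ℚ) : S.W.K) := by
      rw [hG, Rat.cast_zero]
      exact horth i hi _ (he0 j hj)
    exact Rat.cast_injective h2
  -- the diagonal
  obtain ⟨D, hD⟩ := cls_surj e 1 (show S.W.H (pw X 1) from S.W.push (diag X) 1)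
  have hDG : ∀ i k, ∑ j, D (w2 i j) * G j k = if i = k then 1 else 0 := by
    intro i k
    rw [← diag_inv hp hD hG k i]
    refine Finset.sum_congr rfl fun j _ => ?_
    rw [pr_nop, pr_nop, mul_zero, pow_zero, one_mul, hGs j k]
  obtain ⟨hDs, hD0⟩ := inv_block (p := p) (D := fun i j => D (w2 i j)) (G := fun i j => G i j)
    hGs hG0 hDG
  have hR : ∀ i j, Rm p D i j = Rm p D j i := by
    intro i j
    rw [Rm, Rm]
    by_cases h : p i ∧ p j
    · rw [if_pos h, if_pos h.symm]
      exact hDs i j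
    · rw [if_neg h, if_neg fun h' => h h'.symm]
  have hQ : ∀ i j, Qm p G i j = Qm p G j i := by
    intro i j
    rw [Qm, Qm]
    by_cases h : p i ∧ p j
    · rw [if_pos h, if_pos h.symm, hGs i j]
    · rw [if_neg h, if_neg fun h' => h h'.symm]
  have hQ0 : ∀ i j, ¬ (p i ∧ p j) → Qm p G i j = 0 := fun i j h => if_neg h
  have hR0 : ∀ i j, ¬ (p i ∧ p j) → Rm p D i j = 0 := fun i j h => if_neg h
  have hRQ : ∀ i k, p i → p k → ∑ j, Rm p D i j * Qm p G j k = if i = k then 1 else 0 := by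
    intro i k hi hk
    rw [← hDG i k]
    refine Finset.sum_congr rfl fun j _ => ?_
    rw [Rm, Qm]
    by_cases hj : p j
    · rw [if_pos ⟨hi, hj⟩, if_pos ⟨hj, hk⟩]
    · rw [if_neg fun h => hj h.2, hGs j k, hG0 k j hk hj]; ring
  -- the arrays
  have hdp : dp S.W X ∈ (Q.sys.csys X).C 1 := by
    have h1 := dp_even hp hD
    have h2 : (show S.W.H (X.prod X) from dp S.W X) ∈ Q.sp (X.prod X) := by
      rw [h1]
      exact diag_mem
    exact h2
  have hfam : PT (fun n => arrc e (Q.sys.csys X) n) :=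
    { perm := fun n σ a ha => arrc_perm hp hdp n σ ha
      tens := fun n m a b ha hb => arrc_tens e n m ha hb }
  obtain ⟨a, rfl⟩ := cls_surj e n c
  -- the relation
  have hrel : ∀ u v, p u → p v → ∀ x : Fin (n + 1) → ι,
      ∑ l, (Rm p D v (x l) * a (Function.update x l u) -
        Rm p D u (x l) * a (Function.update x l v)) = 0 := by
    intro u v hu hv x
    have hmem : ∀ u, ∑ i, cc S ((Rm p D u i : ℚ) : ℂ) • em S.W ℂ (e i) ∈
        (CW S).gr X (2 * m) := by
      intro u
      refine Submodule.sum_mem _ fun i _ => ?_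
      by_cases hi : p i
      · exact Submodule.smul_mem _ _ (em_gr (hdw i hi))
      · rw [hR0 u i fun h => hi h.2, Rat.cast_zero]
        have h0 : cc S 0 • em S.W ℂ (e i) = 0 := zero_smul (CW S).K _
        rw [h0]
        exact Submodule.zero_mem _
    have hh : ∀ u, ∀ (j : ℕ) (c : S.W.H X), Pool.Agent.Y121.AH.IsHodge S X j c →
        (CW S).tr X ((∑ i, cc S ((Rm p D u i : ℚ) : ℂ) • em S.W ℂ (e i)) * em S.W ℂ c) = 0 := by
      intro u j c hc
      rw [Finset.sum_mul, map_sum]
      refine Finset.sum_eq_zero fun i _ => ?_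
      rw [smul_mul_assoc, map_smul, ← em_mul, em_tr]
      by_cases hi : p i
      · rw [horth i hi c (ClassPred.sp_of (Q := hodgePred S) hc)]
        have h6 : Y121.AH.ex S.W ℂ (0 : S.W.K) = 0 := map_zero _
        rw [h6]
        exact smul_zero _
      · rw [hR0 u i fun h => hi h.2, Rat.cast_zero]
        exact zero_smul (CW S).K _
    obtain ⟨F, hF, h1⟩ := hfull _ _ (hmem u) (hmem v) (hh u) (hh v)
    have htr : ∀ u j, p u → p j → (CW S).tr X ((∑ i, cc S ((Rm p D u i : ℚ) : ℂ) •
        em S.W ℂ (e i)) * em S.W ℂ (e j)) = cc S (((if u = j then 1 else 0 : ℚ)) : ℂ) := by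
      intro u j hu hj
      rw [← hRQ u j hu hj, Finset.sum_mul, map_sum, Rat.cast_sum]
      have h5 : ∀ (s : ι → ℂ), cc S (∑ l, s l) = ∑ l, cc S (s l) := fun s => rfl
      rw [h5]
      refine Finset.sum_congr rfl fun i _ => ?_
      rw [smul_mul_assoc, map_smul, ← em_mul, em_tr, ← hG, Rat.cast_mul]
      by_cases hi : p i
      · rw [Qm, if_pos ⟨hi, hj⟩]
        have h6 : Y121.AH.ex S.W ℂ ((G i j : ℚ) : S.W.K) = cc S ((G i j : ℚ) : ℂ) := ex_rat _
        rw [smul_eq_mul, h6]
        rfl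
      · rw [hR0 u i fun h => hi h.2, Rat.cast_zero, zero_mul]
        exact zero_smul (CW S).K _
    have hM : ∀ j, F X (em S.W ℂ (e j)) = ∑ i, cc S ((((if u = j then Rm p D v i else 0) -
        (if v = j then Rm p D u i else 0) : ℚ)) : ℂ) • em S.W ℂ (e i) := by
      intro j
      by_cases hj : p j
      · rw [h1, opo_apply]
        change (CW S).tr X ((∑ i, cc S ((Rm p D u i : ℚ) : ℂ) • em S.W ℂ (e i)) *
          em S.W ℂ (e j)) • (∑ i, cc S ((Rm p D v i : ℚ) : ℂ) • em S.W ℂ (e i)) -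
          (CW S).tr X ((∑ i, cc S ((Rm p D v i : ℚ) : ℂ) • em S.W ℂ (e i)) *
          em S.W ℂ (e j)) • (∑ i, cc S ((Rm p D u i : ℚ) : ℂ) • em S.W ℂ (e i)) = _
        rw [htr u j hu hj, htr v j hv hj, Finset.smul_sum, Finset.smul_sum,
          ← Finset.sum_sub_distrib]
        refine Finset.sum_congr rfl fun i _ => ?_
        rw [smul_smul, smul_smul, ← sub_smul]
        congr 1
        change ((((if u = j then 1 else 0 : ℚ)) : ℂ) * ((Rm p D v i : ℚ) : ℂ) -
          (((if v = j then 1 else 0 : ℚ)) : ℂ) * ((Rm p D u i : ℚ) : ℂ) : ℂ) = _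
        rw [← Rat.cast_mul, ← Rat.cast_mul, ← Rat.cast_sub, ite_mul, ite_mul, one_mul, one_mul,
          zero_mul, zero_mul]
        rfl
      · rw [fam_sp hF (he0 j hj)]
        symm
        refine Finset.sum_eq_zero fun i _ => ?_
        rw [if_neg (by rintro rfl; exact hj hu), if_neg (by rintro rfl; exact hj hv), sub_zero,
          Rat.cast_zero]
        exact zero_smul (CW S).K _
    have h3 := rel_of_der e hF.isDer (fun j i => (if u = j then Rm p D v i else 0) -
        (if v = j then Rm p D u i else 0)) hM n a (hF.hodge hc) x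
    rw [← h3]
    refine Finset.sum_congr rfl fun l _ => ?_
    simp only [sub_mul, Finset.sum_sub_distrib, ite_mul, zero_mul, Finset.sum_ite_eq,
      Finset.mem_univ, if_true]
  have hmain := hfft ι p (Rm p D) (Qm p G) hR hQ hR0 hQ0 hRQ
    (fun κ => AQ (fun n => arrc e (Q.sys.csys X) n) κ)
    (fun κ l f a ha => PT.rei f ha) (fun κ l _ _ a ha b hb => hfam.tensQ ha hb)
    (fun κ _ a => PT.empty a) ?_ ?_ (n + 1) b hbi hbp ?_ (Fin (n + 1))
    (le_of_eq (Fintype.card_fin _)) a hrel
  · exact hmain n (Equiv.refl _)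
  · intro i hi
    refine hfam.of (n := 0) (Equiv.ofUnique Unit (Fin 1)) ?_
    change cls e 0 _ ∈ Q.sp X
    have h0 : ∀ w : Fin 1 → ι, wb e 0 w = e (w 0) := fun w => wb_zero e w
    have h1 : cls e 0 (fun w : Fin (0 + 1) → ι => if w 0 = i then (1 : ℚ) else 0) = e i := by
      rw [cls, Finset.sum_eq_single (fun _ => i)]
      · rw [if_pos rfl, Rat.cast_one, one_smul, h0]
      · intro w _ hw'
        rw [if_neg, Rat.cast_zero, zero_smul]
        intro h
        apply hw'
        funext l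
        have hl : l = 0 := Subsingleton.elim (α := Fin 1) l 0
        rw [hl]
        exact h
      · intro h; exact absurd (Finset.mem_univ _) h
    have h2 := heQ i hi
    rw [← h1] at h2
    exact h2
  · refine hfam.of (n := 1) ((Equiv.sumCongr (Equiv.ofUnique Unit (Fin 1))
      (Equiv.ofUnique Unit (Fin 1))).trans finSumFinEquiv) ?_
    exact rmo_mem heQ hD hD0
  · refine hfam.of (n := n) (Equiv.refl _) ?_
    change cls e n (fun w : Fin (n + 1) → ι => ∑ σ : Equiv.Perm (Fin (n + 1)),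
      if w = b ∘ σ then ((Equiv.Perm.sign σ : ℤ) : ℚ) else 0) ∈ Q.sp (pw X n)
    rw [cls_det]
    exact hdet

end Main

lemma det_cast {T : HodgeTheory ops} {A : ClassSystem T} {X : 𝒱.Obj} (hA : DetIn A X) {n : ℕ}
    (hn : n + 1 = trBetti T X) (Y : 𝒱.Obj) (f : Fin (n + 1) → (Y ⟶ X))
    (a : Fin (n + 1) → T.W.H X) (j : ℕ) (hj : 2 * j = X.dim * (n + 1))
    (ha : ∀ i, IsTr T X (a i)) : A.P Y j (altSum (fun i => T.W.map (f i)) a) := by
  unfold DetIn at hA
  generalize trBetti T X = t at hA hn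
  subst hn
  exact hA Y f a j hj ha

/-- **ARR.** -/
theorem t_ARR (hdec : S_DEC.{u}) (hfft : S_FFTO) : S_ARR.{u} := by
  intro k _ 𝒱 ops T A X m p h hfull hall hdet n hn j c hc
  obtain ⟨hcm, hfr⟩ := hdec T X h.data.other
  have hdim : X.dim = 2 * m := h.data.dim
  let b0 : Basis (Fin (finrank T.W.K (Hsp T X))) T.W.K (Hsp T X) := Module.finBasis _ _
  let b1 : Basis (Fin (n + 1)) T.W.K (Trp T X) :=
    Module.finBasisOfFinrankEq _ _ (hfr.trans hn.symm)
  let e : Basis (Fin (finrank T.W.K (Hsp T X)) ⊕ Fin (n + 1)) T.W.K (T.W.H X) :=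
    (b0.prod b1).map (Submodule.prodEquivOfIsCompl _ _ hcm)
  have hl : ∀ i, e (Sum.inl i) = (b0 i : T.W.H X) := by
    intro i
    simp [e]
  have hr : ∀ i, e (Sum.inr i) = (b1 i : T.W.H X) := by
    intro i
    simp [e]
  have hH : ∀ i, ¬ (i.isRight = true) → e i ∈ Hsp T X := by
    rintro (i | i) hi
    · rw [hl]
      exact (b0 i).2
    · exact absurd rfl hi
  have hT : ∀ i, i.isRight = true → IsTr T X (e i) := by
    rintro (i | i) hi
    · exact absurd hi (by simp)
    · rw [hr]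
      exact (b1 i).2
  have h1 : c ∈ (toPred A).sp (pw X n) := by
    refine arr_gen (S := toH T) (e := e) (p := fun i => i.isRight = true) hfft (toPred A)
      (m := m) (n := n) (fun i hi => hH i hi) ?_ ?_ ?_ (fam_of_full hfull m) Sum.inr
      Sum.inr_injective ?_ ?_ (j := j) (c := c) hc
    · intro i hi
      exact ClassPred.sp_ind (Q := hodgePred (toH T)) (q := fun x => x ∈ (toPred A).sp X)
        (fun j x hx => ClassPred.sp_of (Q := toPred A) (hall j x hx)) (Submodule.zero_mem _)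
        (fun a b ha hb => Submodule.add_mem _ ha hb) (hH i hi)
    · intro i hi
      have h2 : e i ∈ T.W.gr X X.dim := (hT i hi).1
      rw [hdim] at h2
      exact h2
    · intro i hi c hc
      exact tr_hsp (hT i hi) hc
    · rintro (i | i)
      · simp
      · simp
    · have h2 := det_cast hdet hn (pw X n) (prj X n) (fun i => e (Sum.inr i)) (m * (n + 1))
        (by rw [hdim]; ring) (fun i => hT _ rfl)
      exact ClassPred.sp_of (Q := toPred A) h2
  have h3 := ClassPred.sp_proj h1 j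
  have h4 : H914.proj (T.W.isInternal (pw X n)) (2 * j) c = c := proj_same _ hc.1
  have h5 : (toPred A).P (pw X n) j
      (H914.proj (T.W.isInternal (pw X n)) (2 * j) c) := h3
  rw [h4] at h5
  exact h5

end Pool.Agent.T2h63.LT
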