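import Pool.Agent.T2h63.LT.MatB

/-!
# The centre of the algebra of the endomorphisms is totally real (task CEN of helper63)
-/

set_option autoImplicit false
set_option linter.unusedSectionVars false

open CategoryTheory AlgebraicGeometry TensorProduct Matrix

universe u v

namespace Pool.Agent.T2h63.LT

open Module
open Pool.Agent.H914 Pool.Agent.H914.VarClass Pool.Agent.H914.VarClass.Obj
  Pool.Agent.H914.WeilCohomology
open Pool.Agent.Y121.AHS (toH HodgeTheory IsHodge)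
open Pool.Agent.Y121.AH (CW em em_gr em_add em_zero em_tr em_smul em_mul em_injective ex hodgePred)
open Pool.Agent.N996.BP (Bil IsRat extConj extBil conjK)
open Pool.Agent.N996.FP (IsEndo IsCentralEndo CentreAdj)
open Pool.Agent.T2h63.AH
open Pool.Agent.T2h63.CY (Bf Bf_add Bf_add' Bf_smul Bf_smul' Bf_orth cjS)

variable {k : Type u} [Field k] {𝒱 : VarClass k} {ops : CycleOps 𝒱}
  {T : HodgeTheory ops} {X : 𝒱.Obj} {ψ : Bil T.W.K (T.W.H X)}

/-- Operators of rank one. -/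
lemma rank_one {S : Pool.Agent.Y121.AH.HodgeTheory ops} {l : ℕ} (φ : S.W.H X →ₗ[S.W.K] S.W.K)
    {c' : S.W.H X} (hc' : Pool.Agent.Y121.AH.IsHodge S X l c')
    (L : (CW S).H X →ₗ[(CW S).K] (CW S).K)
    (hL : ∀ a, L (em S.W ℂ a) = ex S.W ℂ (φ a))
    (h0 : ∀ (a b : ℤ) (x : (CW S).H X), x ∈ S.pq X a b → (a ≠ l ∨ b ≠ l) → L x = 0) :
    ∀ (a b : ℤ) (x : (CW S).H X), x ∈ S.pq X a b →
      bc S (X := X) (Y := X) (φ.smulRight c') x ∈ S.pq X a b := by
  have key : bc S (X := X) (Y := X) (φ.smulRight c') = L.smulRight (em S.W ℂ c') := by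
    refine ext_em fun a => ?_
    rw [bc_em, LinearMap.smulRight_apply, LinearMap.smulRight_apply, hL, em_smul]
  intro a b x hx
  rw [key, LinearMap.smulRight_apply]
  by_cases hab : a = l ∧ b = l
  · obtain ⟨rfl, rfl⟩ := hab
    exact Submodule.smul_mem _ _ hc'.2
  · rw [h0 a b x hx (by tauto), zero_smul]
    exact Submodule.zero_mem _

lemma rank_gen {S : Pool.Agent.Y121.AH.HodgeTheory ops} {l : ℕ}
    (β : S.W.H X →ₗ[S.W.K] S.W.H X →ₗ[S.W.K] S.W.K)
    (L : LinearMap.BilinForm (CW S).K ((CW S).H X))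
    (hL : ∀ c d, L (em S.W ℂ c) (em S.W ℂ d) = ex S.W ℂ (β c d))
    (ho : ∀ (p q r s : ℤ) (x y : (CW S).H X), x ∈ S.pq X p q → y ∈ S.pq X r s →
      (r ≠ q ∨ s ≠ p) → L x y = 0) {c c' : S.W.H X}
    (hc : Pool.Agent.Y121.AH.IsHodge S X l c) (hc' : Pool.Agent.Y121.AH.IsHodge S X l c') :
    (∀ (a b : ℤ) (x : (CW S).H X), x ∈ S.pq X a b →
      bc S (X := X) (Y := X) ((β.flip c).smulRight c') x ∈ S.pq X a b) ∧
    (∀ (a b : ℤ) (x : (CW S).H X), x ∈ S.pq X a b →
      bc S (X := X) (Y := X) ((β c).smulRight c') x ∈ S.pq X a b) := by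
  constructor
  · refine rank_one (β.flip c) hc' (LinearMap.flip L (em S.W ℂ c)) (fun a => ?_) (fun a b x hx hab => ?_)
    · rw [LinearMap.flip_apply, LinearMap.flip_apply, hL]
    · rw [LinearMap.flip_apply]
      exact ho _ _ _ _ _ _ hx hc.2 (by tauto)
  · refine rank_one (β c) hc' (L (em S.W ℂ c)) (fun a => hL _ _) (fun a b x hx hab => ?_)
    exact ho _ _ _ _ _ _ hc.2 hx (by tauto)

lemma endo_both (hψ : IsPol T X ψ) {l : ℕ} {c c' : T.W.H X} (hc : IsHodge T X l c)
    (hc' : IsHodge T X l c') : IsEndo (T.pq X) ((ψ.flip c).smulRight c') ∧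
      IsEndo (T.pq X) ((ψ c).smulRight c') := by
  have h := rank_gen (S := toH T) (X := X) (l := l) ψ (BL ψ) (fun c d => Bf_em (ψ := ψ) c d)
    (fun p q r s x y hx hy h => Bf_orth hψ hx hy h) (c := c) (c' := c') hc hc'
  exact ⟨fun a b x hx => h.1 a b (toX x) hx, fun a b x hx => h.2 a b (toX x) hx⟩

lemma pol_aux (hψ : IsPol T X ψ) {l : ℕ} {u : (CW (toH T)).H X}
    (hu : u ∈ (toH T).pq X l l) (h0 : u ≠ 0) (h1 : sg (toH T) (cjS (toH T)) X u = u)
    (h : ofK (Bf ψ u u) = 0) : False := by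
  obtain ⟨r, hr, h2⟩ := Bf_pos hψ hu h0
  rw [h1, h, mul_zero] at h2
  exact hr.ne' (by exact_mod_cast h2.symm)

lemma pol_ne (hψ : IsPol T X ψ) {l : ℕ} {c : T.W.H X} (hc : IsHodge T X l c) (h0 : c ≠ 0) :
    ψ c c ≠ 0 := by
  intro h
  have h3 := Bf_em (ψ := ψ) c c
  rw [h, map_zero] at h3
  have h4 : sg (toH T) (cjS (toH T)) X (em (toH T).W ℂ c) = em (toH T).W ℂ c :=
    sg_em (T := toH T) (cjS (toH T)) c
  exact pol_aux (u := em (toH T).W ℂ c) hψ hc.2 (fun h => h0 (em_injective h)) h4 h3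

lemma pol_orth (hψ : IsPol T X ψ) {i j : ℕ} (hij : i ≠ j) {c d : T.W.H X}
    (hc : IsHodge T X i c) (hd : IsHodge T X j d) : ψ c d = 0 := by
  have h1 : Bf ψ (em (toH T).W ℂ c) (em (toH T).W ℂ d) = 0 :=
    Bf_orth hψ (hc.2 : em (toH T).W ℂ c ∈ (toH T).pq X i i)
      (hd.2 : em (toH T).W ℂ d ∈ (toH T).pq X j j) (Or.inl (by exact_mod_cast hij.symm))
  have h2 := Bf_em (ψ := ψ) c d
  rw [h1] at h2
  have h3 : algebraMap T.W.K ℂ (ψ c d) = 0 := h2.symm
  exact (map_eq_zero _).1 h3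

/-- **CEN.** -/
theorem t_CEN (hDEC : S_DEC.{u}) : S_CEN.{u} := by
  intro k _ 𝒱 ops T X m p h ψ hψ f hf
  obtain ⟨hcomp, -⟩ := hDEC T X h.data.other
  -- the action on the transcendental classes
  have hsc : ∀ g : T.W.H X →ₗ[T.W.K] T.W.H X, IsEndo (T.pq X) g →
      ∃ r : T.W.K, ∀ x, IsTr T X x → g x = r • x := by
    intro g hg
    obtain ⟨r, hr⟩ := h.data.scalar g (fun a b y hy => by
      rw [add_zero, add_zero]
      exact hg a b y hy)
    exact ⟨r, fun x hx => hr x hx⟩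
  have hdis : ∀ x, x ∈ Hsp T X → IsTr T X x → x = 0 := fun x hx hx' =>
    Submodule.disjoint_def.1 hcomp.disjoint x hx hx'
  -- the mixed products vanish
  have hmix : ∀ (j : ℕ) (u v : T.W.H X), IsHodge T X j u → IsTr T X v →
      ψ u v = 0 ∧ ψ v u = 0 := by
    intro j u v hu hv
    by_cases hu0 : u = 0
    · subst hu0
      exact ⟨by rw [map_zero, LinearMap.zero_apply], map_zero _⟩
    have h0 : ∀ z : T.W.K, (∃ r : T.W.K, z • u = r • v) → z = 0 := by
      rintro z ⟨r, hr⟩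
      have h1 : z • u ∈ Hsp T X := Submodule.smul_mem _ _ (Submodule.subset_span ⟨j, hu⟩)
      have h2 : IsTr T X (z • u) := by
        rw [hr]
        exact (Trp T X).smul_mem r hv
      exact (smul_eq_zero.1 (hdis _ h1 h2)).resolve_right hu0
    constructor
    · obtain ⟨r, hr⟩ := hsc _ (endo_both hψ hu hu).2
      exact h0 _ ⟨r, hr v hv⟩
    · obtain ⟨r, hr⟩ := hsc _ (endo_both hψ hu hu).1
      exact h0 _ ⟨r, hr v hv⟩
  obtain ⟨r, hr⟩ := hsc f hf.1
  -- the action on the Hodge classes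
  have hs : ∀ j : ℕ, ∃ s : T.W.K, ∀ c, IsHodge T X j c → f c = s • c := by
    intro j
    by_cases hj : ∃ c, IsHodge T X j c ∧ c ≠ 0
    · obtain ⟨c, hc, hc0⟩ := hj
      have hne := pol_ne hψ hc hc0
      refine ⟨(ψ c c)⁻¹ * ψ (f c) c, fun c' hc' => ?_⟩
      have h1 := hf.2 _ (endo_both hψ hc hc').1 c
      have h2 : f (ψ c c • c') = ψ (f c) c • c' := h1
      rw [map_smul] at h2
      rw [mul_smul, ← h2, smul_smul, inv_mul_cancel₀ hne, one_smul]
    · push Not at hj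
      exact ⟨0, fun c hc => by rw [hj c hc, map_zero, smul_zero]⟩
  choose s hs using hs
  have hspan : Submodule.span T.W.K {c | IsSomeHodge T X c ∨ IsTr T X c} = ⊤ := by
    rw [eq_top_iff, ← hcomp.sup_eq_top]
    refine sup_le (Submodule.span_mono fun c hc => Or.inl hc) fun c hc => ?_
    exact Submodule.subset_span (Or.inr hc)
  have hmain : ψ.comp f = ψ.compl₂ f := by
    refine LinearMap.ext_on hspan fun c hc => ?_
    refine LinearMap.ext_on hspan fun d hd => ?_
    have hgoal : ψ (f c) d = ψ c (f d) := by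
      rcases hc with ⟨i, hc⟩ | hc
      · rcases hd with ⟨j, hd⟩ | hd
        · rw [hs i c hc, hs j d hd, map_smul, LinearMap.smul_apply, map_smul]
          by_cases hij : i = j
          · subst hij; rfl
          · rw [pol_orth hψ hij hc hd, smul_zero, smul_zero]
        · rw [hs i c hc, hr d hd, map_smul, LinearMap.smul_apply, map_smul, (hmix i c d hc hd).1,
            smul_zero, smul_zero]
      · rcases hd with ⟨j, hd⟩ | hd
        · rw [hr c hc, hs j d hd, map_smul, LinearMap.smul_apply, map_smul, (hmix j d c hd hc).2,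
            smul_zero, smul_zero]
        · rw [hr c hc, hr d hd, map_smul, LinearMap.smul_apply, map_smul]
    exact hgoal
  intro c d
  exact LinearMap.congr_fun (LinearMap.congr_fun hmain c) d

end Pool.Agent.T2h63.LT
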