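import Mathlib

/-!
# Alternating sums of products: derivations, the trace and combinations
-/


set_option autoImplicit false

namespace Pool.Agent.T2h63.LT.DT

open Module

section

variable {K A B : Type*} [Field K] [Ring A] [Algebra K A] [Ring B] [Algebra K B]

/-- Derivations of products. -/
lemma der_prod {F : B →ₗ[K] B} (hF : ∀ a b, F (a * b) = F a * b + a * F b) :
    ∀ {N : ℕ} (w : Fin N → B), F (List.ofFn w).prod =
      ∑ l, (List.ofFn (Function.update w l (F (w l)))).prod
  | 0, w => by
    have h := hF 1 1
    rw [mul_one, mul_one, one_mul] at h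
    have h1 : F 1 = 0 := by
      have := h.symm
      rwa [add_eq_left] at this
    simp [h1]
  | N + 1, w => by
    rw [Fin.sum_univ_succ, List.ofFn_succ, List.prod_cons, hF, der_prod hF, List.ofFn_succ,
      List.prod_cons, Function.update_self]
    have h0 : (fun i : Fin N => Function.update w 0 (F (w 0)) i.succ) = fun i => w i.succ := by
      funext i
      rw [Function.update_of_ne (Fin.succ_ne_zero i)]
    have h1 : w 0 * ∑ l, (List.ofFn (Function.update (fun i => w i.succ) l (F (w l.succ)))).prod =
        ∑ l : Fin N, (List.ofFn (Function.update w l.succ (F (w l.succ)))).prod := by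
      rw [Finset.mul_sum]
      refine Finset.sum_congr rfl fun l _ => ?_
      rw [List.ofFn_succ, List.prod_cons, Function.update_of_ne (Fin.succ_ne_zero l).symm]
      congr 3
      funext i
      by_cases h : i = l
      · subst h
        rw [Function.update_self, Function.update_self]
      · rw [Function.update_of_ne h, Function.update_of_ne (fun h' => h (Fin.succ_injective _ h'))]
    rw [h0, h1]

/-- The alternating sum of the products, as an alternating map. -/
noncomputable def altM {N : ℕ} (r : Fin N → (A →ₐ[K] B)) : A [⋀^Fin N]→ₗ[K] B :=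
  MultilinearMap.alternatization
    ((MultilinearMap.mkPiAlgebraFin K N B).compLinearMap (fun i => (r i).toLinearMap))

lemma altM_apply {N : ℕ} (r : Fin N → (A →ₐ[K] B)) (a : Fin N → A) : altM r a =
    ∑ σ : Equiv.Perm (Fin N), (Equiv.Perm.sign σ : ℤ) •
      (List.ofFn fun i => r i (a (σ i))).prod := by
  rw [altM, MultilinearMap.alternatization_apply]
  refine Finset.sum_congr rfl fun σ _ => ?_
  rw [Units.smul_def]
  rfl

lemma altM_der {F : A →ₗ[K] A} {G : B →ₗ[K] B} (hG : ∀ a b, G (a * b) = G a * b + a * G b)
    {N : ℕ} {r : Fin N → (A →ₐ[K] B)} (hr : ∀ i a, G (r i a) = r i (F a)) (v : Fin N → A) :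
    G (altM r v) = ∑ l, altM r (Function.update v l (F (v l))) := by
  simp only [altM_apply]
  rw [Finset.sum_comm, map_sum]
  refine Finset.sum_congr rfl fun σ _ => ?_
  rw [map_zsmul, der_prod hG, Finset.smul_sum]
  refine Eq.trans ?_ (Equiv.sum_comp σ (fun l => (Equiv.Perm.sign σ : ℤ) •
      (List.ofFn fun i => r i (Function.update v l (F (v l)) (σ i))).prod))
  refine Finset.sum_congr rfl fun l _ => ?_
  congr 3
  funext i
  by_cases h : i = l
  · subst h
    rw [Function.update_self, Function.update_self, hr]
  · rw [Function.update_of_ne h, Function.update_of_ne (fun h' => h (σ.injective h'))]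

/-- The trace. -/
lemma alt_trace {N : ℕ} (D : A [⋀^Fin N]→ₗ[K] B) (b : Fin N → A) (F : A → A)
    (c : Matrix (Fin N) (Fin N) K) (hA : ∀ l, F (b l) = ∑ i, c i l • b i) :
    ∑ l, D (Function.update b l (F (b l))) = c.trace • D b := by
  rw [Matrix.trace, Finset.sum_smul]
  refine Finset.sum_congr rfl fun l _ => ?_
  rw [hA]
  have h1 : D (Function.update b l (∑ i, c i l • b i)) =
      ∑ i, c i l • D (Function.update b l (b i)) := by
    have h2 := D.toMultilinearMap.map_update_sum Finset.univ l (fun i => c i l • b i) b
    refine h2.trans (Finset.sum_congr rfl fun i _ => ?_)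
    exact D.toMultilinearMap.map_update_smul b l (c i l) (b i)
  rw [h1, Finset.sum_eq_single l]
  · rw [Function.update_eq_self]
    rfl
  · intro i _ hi
    rw [D.map_update_self b hi.symm, smul_zero]
  · intro h
    exact absurd (Finset.mem_univ l) h

/-- The values of an alternating map on combinations of `N` elements. -/
lemma alt_mem {N : ℕ} (D : A [⋀^Fin N]→ₗ[K] B) (b : Fin N → A) (M : Submodule K B)
    (hb : D b ∈ M) (a : Fin N → A) (ha : ∀ i, a i ∈ Submodule.span K (Set.range b)) :
    D a ∈ M := by
  have h1 : ∀ i, ∃ c : Fin N → K, ∑ j, c j • b j = a i := fun i =>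
    (Submodule.mem_span_range_iff_exists_fun K).1 (ha i)
  choose c hc using h1
  have h2 : D a = ∑ r : Fin N → Fin N, (∏ i, c i (r i)) • D (fun i => b (r i)) := by
    have h3 : a = fun i => ∑ j, c i j • b j := funext fun i => (hc i).symm
    rw [h3]
    refine (D.toMultilinearMap.map_sum (fun i j => c i j • b j)).trans ?_
    refine Finset.sum_congr rfl fun r _ => ?_
    exact D.toMultilinearMap.map_smul_univ (fun i => c i (r i)) (fun i => b (r i))
  rw [h2]
  refine Submodule.sum_mem _ fun r _ => Submodule.smul_mem _ _ ?_
  by_cases hr : Function.Injective r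
  · have h4 : Function.Bijective r := Finite.injective_iff_bijective.1 hr
    have h5 := D.map_perm b (Equiv.ofBijective r h4)
    have h6 : D (fun i => b (r i)) = Equiv.Perm.sign (Equiv.ofBijective r h4) • D b := h5
    rw [h6, Units.smul_def]
    exact zsmul_mem hb _
  · have h4 : ¬ Function.Injective (fun i => b (r i)) := fun h => hr (fun x y hxy => h (congrArg b hxy))
    rw [D.map_eq_zero_of_not_injective _ h4]
    exact M.zero_mem

end

end Pool.Agent.T2h63.LT.DT
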