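import Pool.Agent.T2h63.LT.MATX
import Pool.Agent.T2h63.LT.DETA

/-!
# The determinants of transcendental classes are Hodge classes (task DETH of helper63)
-/

set_option autoImplicit false
set_option linter.unusedSectionVars false

open CategoryTheory AlgebraicGeometry TensorProduct Matrix

universe u v

namespace Pool.Agent.T2h63.LT

open Module
open Pool.Agent.H914 Pool.Agent.H914.VarClass Pool.Agent.H914.VarClass.Obj
  Pool.Agent.H914.WeilCohomology
open Pool.Agent.Y121.AHS (toH HodgeTheory IsHodge)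
open Pool.Agent.Y121.AH (CW em em_gr em_add em_zero em_tr em_smul em_mul em_map ex hodgePred)
open Pool.Agent.T2h63.AH
open Pool.Agent.W544.PG (HS mC)
open DT

variable {k : Type u} [Field k] {𝒱 : VarClass k} {ops : CycleOps 𝒱}

section Gen

variable {S : Pool.Agent.Y121.AH.HodgeTheory ops} {X Y : 𝒱.Obj}

lemma prod_gr {V : WeilCohomology.{u, v} ops} {d : ℕ} : ∀ {N : ℕ} (w : Fin N → V.H Y),
    (∀ i, w i ∈ V.gr Y d) → (List.ofFn w).prod ∈ V.gr Y (d * N)
  | 0, w, _ => by
    rw [List.ofFn_zero, List.prod_nil, mul_zero]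
    exact V.one_mem Y
  | N + 1, w, hw => by
    rw [List.ofFn_succ, List.prod_cons, show d * (N + 1) = d + d * N by ring]
    exact V.mul_mem (hw 0) (prod_gr _ fun i => hw i.succ)

lemma em_one' : em S.W ℂ (1 : S.W.H Y) = 1 := by
  have h : (1 : ℂ) ⊗ₜ[S.W.K] (1 : S.W.H Y) = 1 := Algebra.TensorProduct.one_def.symm
  exact h

lemma em_prod : ∀ {N : ℕ} (w : Fin N → S.W.H Y), em S.W ℂ (List.ofFn w).prod =
    (List.ofFn fun i => em S.W ℂ (w i)).prod
  | 0, w => by
    rw [List.ofFn_zero, List.prod_nil, List.ofFn_zero, List.prod_nil]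
    exact em_one'
  | N + 1, w => by
    rw [List.ofFn_succ, List.prod_cons, em_mul, em_prod, List.ofFn_succ, List.prod_cons]

/-- The extension of the coefficients, as an additive map. -/
noncomputable def emH (S : Pool.Agent.Y121.AH.HodgeTheory ops) (Y : 𝒱.Obj) :
    S.W.H Y →+ (CW S).H Y where
  toFun := em S.W ℂ
  map_zero' := em_zero
  map_add' := em_add

lemma em_altM {N : ℕ} (f : Fin N → (Y ⟶ X)) (a : Fin N → S.W.H X) :
    em S.W ℂ (altM (fun i => S.W.map (f i)) a) =
      altM (fun i => (CW S).map (f i)) (fun i => em S.W ℂ (a i)) := by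
  have h1 : emH S Y (altM (fun i => S.W.map (f i)) a) =
      altM (fun i => (CW S).map (f i)) (fun i => em S.W ℂ (a i)) := by
    rw [altM_apply, altM_apply, map_sum]
    refine Finset.sum_congr rfl fun σ _ => ?_
    rw [map_zsmul]
    congr 1
    refine (em_prod _).trans ?_
    exact congrArg (fun w : Fin N → (CW S).H Y => (List.ofFn w).prod)
      (funext fun i => (em_map (f i) (a (σ i))).symm)
  exact h1

lemma hodge_alt {N : ℕ} (f : Fin N → (Y ⟶ X)) (t : Fin N → S.W.H X)
    (hg : ∀ i, t i ∈ S.W.gr X X.dim) (c : Matrix (Fin N) (Fin N) (CW S).K)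
    (hn : ∀ l, nop S X (em S.W ℂ (t l)) = ∑ i, c i l • em S.W ℂ (t i))
    (hc : c.trace = 0) {j : ℕ} (hj : 2 * j = X.dim * N) :
    Pool.Agent.Y121.AH.IsHodge S Y j (altM (fun i => S.W.map (f i)) t) := by
  have h0 : altM (fun i => S.W.map (f i)) t ∈ S.W.gr Y (2 * j) := by
    rw [altM_apply, hj]
    exact Submodule.sum_mem _ fun σ _ =>
      zsmul_mem (prod_gr _ fun i => S.W.map_mem (f i) (hg _)) _
  refine ⟨h0, ?_⟩
  refine pq_of_eigen (i := 2 * j) (m := 0) (em_gr h0) ?_ (by push_cast; ring) (by ring)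
  rw [em_altM, altM_der (F := nop S X) (G := nop S Y) (nop_isDer.mul Y)
    (fun i a => nop_isDer.map (f i) a), alt_trace _ _ (nop S X) c hn, hc, zero_smul,
    Int.cast_zero, zero_smul]

end Gen

/-- **DETH.** -/
theorem t_DETH (hDEC : S_DEC.{u}) : S_DETH.{u} := by
  intro k _ 𝒱 ops T X m p h Y f a j hj ha
  obtain ⟨q, S, t, c, hM, hN⟩ := t_MATX hDEC T X m p h
  have key : ∀ (N : ℕ) (_ : 2 * p + q = N) (f : Fin N → (Y ⟶ X)) (a : Fin N → T.W.H X),
      2 * j = X.dim * N → (∀ i, IsTr T X (a i)) →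
      IsHodge T Y j (altSum (fun i => T.W.map (f i)) a) := by
    rintro _ rfl f a hj ha
    have htr : S.x.trace = 0 := by
      have hd := Mx.det_ne S
      have hu : IsUnit S.Q.det := isUnit_iff_ne_zero.2 hd
      have h1 : mC S.Q⁻¹ * mC S.Q = 1 := by
        have h2 : mC (S.Q⁻¹ * S.Q) = mC S.Q⁻¹ * mC S.Q := by
          ext i j
          simp [mC, Matrix.mul_apply]
        rw [← h2, Matrix.nonsing_inv_mul _ hu]
        ext i j
        by_cases h : i = j
        · subst h; simp [mC]
        · simp [mC, h]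
      have h2 : mC S.Q * mC S.Q⁻¹ = 1 := mul_eq_one_comm.1 h1
      have h3 := congrArg (fun M => (mC S.Q⁻¹ * M).trace) S.skew
      simp only [mul_add, Matrix.trace_add, mul_zero, Matrix.trace_zero] at h3
      rw [← mul_assoc (mC S.Q⁻¹) (mC S.Q), h1, one_mul, Matrix.trace_mul_comm, mul_assoc, h2,
        mul_one, Matrix.trace_transpose] at h3
      have h4 : (2 : ℂ) * S.x.trace = 0 := by rw [two_mul]; exact h3
      exact (mul_eq_zero.1 h4).resolve_left two_ne_zero
    have hH : Pool.Agent.Y121.AH.IsHodge (toH T) Y j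
        (altM (fun i => (toH T).W.map (f i)) t) := by
      refine hodge_alt (S := toH T) f t (fun i => (hM.tr i).1)
        (Matrix.of fun i l => cz T (2 * S.x i l)) (fun l => hM.nop l) ?_ hj
      have h5 : (Matrix.of fun i l => cz T (2 * S.x i l)).trace = cz T (2 * S.x.trace) := by
        have h6 : ∑ i, (2 * S.x i i) = 2 * S.x.trace := by
          rw [Matrix.trace, Finset.mul_sum]
          rfl
        exact h6
      rw [h5, htr, mul_zero]
      rfl
    have hA : IsHodge T Y j (altM (fun i => T.W.map (f i)) a) := by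
      have h7 := alt_mem (altM (fun i => T.W.map (f i))) t
        { carrier := {c | Pool.Agent.Y121.AH.IsHodge (toH T) Y j c}
          zero_mem' := Pool.Agent.Y121.AH.IsHodge.zero
          add_mem' := fun ha hb => Pool.Agent.Y121.AH.IsHodge.add ha hb
          smul_mem' := fun r _ ha => Pool.Agent.Y121.AH.IsHodge.smul (T := toH T) r ha } hH a
        (fun i => hM.span _ (ha i))
      exact h7
    have h8 : altSum (fun i => T.W.map (f i)) a = altM (fun i => T.W.map (f i)) a :=
      (altM_apply _ _).symm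
    rw [h8]
    exact hA
  exact key _ hN f a hj ha

end Pool.Agent.T2h63.LT
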