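import Pool.Agent.T2h63.LT.Stm
import Pool.Agent.T2h63.CY.FFT

/-! The first fundamental theorem for the orthogonal Lie algebra in degrees at most the dimension. -/

set_option autoImplicit false
set_option linter.unusedSectionVars false

namespace Pool.Agent.T2h63.LT

open Function Finset
open Pool.Agent.TH125.Nod
open Pool.Agent.T2h63.CY (prodmem deltamem pairmem genmem)

section Proj

variable {I : Type} [Fintype I]

/-- The standard form. -/
noncomputable def ip (I : Type) [Fintype I] : LinearMap.BilinForm ℚ (I → ℚ) :=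
  LinearMap.mk₂ ℚ (fun f g => ∑ J, f J * g J)
    (fun a b c => by simp [add_mul, Finset.sum_add_distrib])
    (fun r a b => by simp [Finset.mul_sum, mul_assoc])
    (fun a b c => by simp [mul_add, Finset.sum_add_distrib])
    (fun r a b => by simp [Finset.mul_sum, mul_left_comm])

lemma ip_apply (f g : I → ℚ) : ip I f g = ∑ J, f J * g J := rfl

lemma ip_comm (f g : I → ℚ) : ip I f g = ip I g f := by
  rw [ip_apply, ip_apply]
  exact Finset.sum_congr rfl fun J _ => mul_comm _ _

lemma ip_nonneg (f : I → ℚ) : 0 ≤ ip I f f := by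
  rw [ip_apply]
  exact Finset.sum_nonneg fun J _ => mul_self_nonneg _

lemma ip_eq_zero {f : I → ℚ} (h : ip I f f = 0) : f = 0 := by
  rw [ip_apply, Finset.sum_eq_zero_iff_of_nonneg fun J _ => mul_self_nonneg _] at h
  funext J
  exact mul_self_eq_zero.1 (h J (Finset.mem_univ J))

/-- Orthogonal decomposition. -/
lemma exists_orth (W : Submodule ℚ (I → ℚ)) (f : I → ℚ) :
    ∃ g ∈ W, ∃ h : I → ℚ, f = g + h ∧ ∀ w ∈ W, ip I w h = 0 := by
  have hrefl : (ip I).IsRefl := fun x y h => by rw [ip_comm, h]
  have h1 : Disjoint W ((ip I).orthogonal W) := by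
    rw [Submodule.disjoint_def]
    intro x hx hx'
    exact ip_eq_zero (hx' x hx)
  have h2 : IsCompl W ((ip I).orthogonal W) :=
    LinearMap.BilinForm.isCompl_orthogonal_of_restrict_nondegenerate hrefl
      (LinearMap.BilinForm.nondegenerate_restrict_of_disjoint_orthogonal _ hrefl h1)
  have h3 : f ∈ W ⊔ (ip I).orthogonal W := by
    rw [h2.sup_eq_top]
    exact Submodule.mem_top
  obtain ⟨g, hg, h, hh, e⟩ := Submodule.mem_sup.1 h3
  exact ⟨g, hg, h, e.symm, fun w hw => hh w hw⟩

end Proj

section Alt

variable {B S : Type} [Fintype B] [DecidableEq B] [Fintype S] [DecidableEq S]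

lemma ip_rho (σ : Equiv.Perm S) (f g : (S → B) → ℚ) :
    ip (S → B) (rho (K := ℚ) σ f) (rho (K := ℚ) σ g) = ip (S → B) f g := by
  rw [ip_apply, ip_apply]
  exact Equiv.sum_comp (σ.arrowCongr (Equiv.refl B)).symm (fun J => f J * g J)

/-- The alternating part. -/
lemma alt_part {W : Submodule ℚ ((S → B) → ℚ)}
    (hW : ∀ (σ : Equiv.Perm S), ∀ f ∈ W, rho (K := ℚ) σ f ∈ W) {f : (S → B) → ℚ}
    (hf : ∀ a : S, (((Fintype.card S : ℚ)) - 1) • f +
      ∑ b ∈ univ.erase a, rho (K := ℚ) (Equiv.swap a b) f ∈ W) :
    ∃ g ∈ W, ∃ h : (S → B) → ℚ, f = g + h ∧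
      ∀ a b : S, a ≠ b → rho (K := ℚ) (Equiv.swap a b) h = -h := by
  obtain ⟨g, hg, h, hfg, horth⟩ := exists_orth W f
  refine ⟨g, hg, h, hfg, ?_⟩
  have horth' : ∀ σ : Equiv.Perm S, ∀ w ∈ W, ip (S → B) w (rho (K := ℚ) σ h) = 0 := by
    intro σ w hw
    have h1 := ip_rho σ (rho (K := ℚ) σ⁻¹ w) h
    rw [← rho_mul, mul_inv_cancel, rho_one] at h1
    rw [h1]
    exact horth _ (hW _ _ hw)
  intro a b hab
  have hX : (((Fintype.card S : ℚ)) - 1) • h +
      ∑ b ∈ univ.erase a, rho (K := ℚ) (Equiv.swap a b) h ∈ W := by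
    have h1 := hf a
    have h2 : (((Fintype.card S : ℚ)) - 1) • g +
      ∑ b ∈ univ.erase a, rho (K := ℚ) (Equiv.swap a b) g ∈ W :=
      W.add_mem (W.smul_mem _ hg) (W.sum_mem fun b _ => hW _ _ hg)
    have h3 := W.sub_mem h1 h2
    convert h3 using 1
    rw [hfg]
    simp only [map_add, smul_add, Finset.sum_add_distrib]
    abel
  have hX0 : (((Fintype.card S : ℚ)) - 1) • h +
      ∑ b ∈ univ.erase a, rho (K := ℚ) (Equiv.swap a b) h = 0 := by
    apply ip_eq_zero
    set X := (((Fintype.card S : ℚ)) - 1) • h +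
      ∑ b ∈ univ.erase a, rho (K := ℚ) (Equiv.swap a b) h with hXd
    have h1 : ip (S → B) X h = 0 := horth X hX
    have h2 : ∀ b, ip (S → B) X (rho (K := ℚ) (Equiv.swap a b) h) = 0 := fun b => horth' _ X hX
    conv_lhs => rw [hXd]
    rw [← hXd, ip_comm]
    conv_lhs => rw [hXd]
    rw [LinearMap.BilinForm.add_left, LinearMap.BilinForm.smul_left,
      LinearMap.BilinForm.sum_left]
    rw [ip_comm, h1, mul_zero, zero_add]
    exact Finset.sum_eq_zero fun b _ => by rw [ip_comm]; exact h2 b
  -- all the terms are nonnegative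
  have hnn : ∀ b, 0 ≤ ip (S → B) h h + ip (S → B) (rho (K := ℚ) (Equiv.swap a b) h) h := by
    intro b
    have h1 := ip_nonneg (h + rho (K := ℚ) (Equiv.swap a b) h)
    rw [LinearMap.BilinForm.add_left, LinearMap.BilinForm.add_right,
      LinearMap.BilinForm.add_right, ip_rho, ip_comm h (rho (K := ℚ) (Equiv.swap a b) h)] at h1
    linarith
  have hsum : ∑ b ∈ univ.erase a,
      (ip (S → B) h h + ip (S → B) (rho (K := ℚ) (Equiv.swap a b) h) h) = 0 := by
    have h1 : ip (S → B) ((((Fintype.card S : ℚ)) - 1) • h +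
      ∑ b ∈ univ.erase a, rho (K := ℚ) (Equiv.swap a b) h) h = 0 := by
      rw [hX0, LinearMap.BilinForm.zero_left]
    rw [LinearMap.BilinForm.add_left, LinearMap.BilinForm.smul_left,
      LinearMap.BilinForm.sum_left] at h1
    rw [Finset.sum_add_distrib, Finset.sum_const, Finset.card_erase_of_mem (Finset.mem_univ a),
      Finset.card_univ, nsmul_eq_mul, Nat.cast_sub (Fintype.card_pos_iff.2 ⟨a⟩), Nat.cast_one]
    exact h1
  have hz := (Finset.sum_eq_zero_iff_of_nonneg fun b _ => hnn b).1 hsum b
    (Finset.mem_erase.2 ⟨Ne.symm hab, Finset.mem_univ b⟩)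
  have h3 : h + rho (K := ℚ) (Equiv.swap a b) h = 0 := by
    apply ip_eq_zero
    rw [LinearMap.BilinForm.add_left, LinearMap.BilinForm.add_right,
      LinearMap.BilinForm.add_right, ip_rho, ip_comm h (rho (K := ℚ) (Equiv.swap a b) h)]
    linarith
  rw [eq_neg_iff_add_eq_zero, add_comm]
  exact h3

/-- alternating functions -/
lemma alt_perm {h : (S → B) → ℚ} (hs : ∀ a b : S, a ≠ b → rho (K := ℚ) (Equiv.swap a b) h = -h)
    (σ : Equiv.Perm S) : rho (K := ℚ) σ h = ((Equiv.Perm.sign σ : ℤ) : ℚ) • h := by
  induction σ using Equiv.Perm.swap_induction_on with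
  | one => simp [rho_one]
  | swap_mul τ x y hxy hτ =>
    rw [rho_mul, hτ, map_smul, hs x y hxy, Equiv.Perm.sign_mul, Equiv.Perm.sign_swap hxy]
    push_cast
    module

lemma alt_noninj {h : (S → B) → ℚ}
    (hs : ∀ a b : S, a ≠ b → rho (K := ℚ) (Equiv.swap a b) h = -h) {J : S → B}
    (hJ : ¬ Injective J) : h J = 0 := by
  unfold Injective at hJ
  push Not at hJ
  obtain ⟨a, b, h1, h2⟩ := hJ
  have h3 := congrFun (hs a b h2) J
  have h4 : (fun j => J (Equiv.swap a b j)) = J := by
    funext j
    by_cases e1 : j = a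
    · rw [e1, Equiv.swap_apply_left, h1]
    by_cases e2 : j = b
    · rw [e2, Equiv.swap_apply_right, h1]
    rw [Equiv.swap_apply_of_ne_of_ne e1 e2]
  have h5 : rho (K := ℚ) (Equiv.swap a b) h J = h J := by
    show h (fun j => J (Equiv.swap a b j)) = h J
    rw [h4]
  rw [h5, Pi.neg_apply] at h3
  linarith

open Classical in
/-- The Casimir identity: the top degree. -/
lemma top_case {Q R : Matrix B B ℚ} (hQs : ∀ a b, Q a b = Q b a) (hQR : Q * R = 1)
    (hcard : Fintype.card S = Fintype.card B) {f : (S → B) → ℚ}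
    (hf : Inv (fun _ : B => ()) Q (fun i : Unit => (((fun _ => 1 : Unit → ℤ) i : ℤ) : ℚ)) f)
    (a : S) : (((Fintype.card S : ℚ)) - 1) • f +
      ∑ b ∈ univ.erase a, rho (K := ℚ) (Equiv.swap a b) f ∈
        Gen (fun _ : B => ()) Q (fun _ : S => ()) := by
  have hs : ∀ i : Unit, (fun _ => 1 : Unit → ℤ) i = 1 ∨ (fun _ => 1 : Unit → ℤ) i = -1 :=
    fun _ => Or.inl rfl
  have hQb : ∀ a b : B, (fun _ : B => ()) a ≠ (fun _ : B => ()) b → Q a b = 0 :=
    fun a b h => absurd rfl h
  have hQs' : ∀ a b : B, Q a b = (((fun _ => 1 : Unit → ℤ) ((fun _ : B => ()) a) : ℤ) : ℚ) *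
      Q b a := fun a b => by rw [hQs a b]; simp
  have hblk : (blk (fun _ : B => ()) ()).card = Fintype.card S := by
    rw [hcard, ← Finset.card_univ]
    congr 1
    ext b
    simp [blk]
  have hfil : (univ.filter fun j : S => (fun _ : S => ()) j = ()) = univ := by
    ext b
    simp
  have hcon : ∀ b ∈ (univ : Finset S).erase a,
      con (fun _ : B => ()) R () a b f ∈
        Gen (fun _ : B => ()) Q (fun _ : {x // x ≠ a ∧ x ≠ b} => ()) := by
    intro b hb
    have hab : a ≠ b := Ne.symm (Finset.mem_erase.1 hb).1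
    refine fft (K := ℚ) (s := fun _ => 1) hs hQb hQs' hQR
      (Fintype.card {x // x ≠ a ∧ x ≠ b}) _ _ _ rfl (fun J hJ => absurd (fun _ => rfl) hJ)
      (inv_con hs hQb hQs' hQR hf hab) ?_
    intro i _
    have h1 : (univ.filter fun j : {x // x ≠ a ∧ x ≠ b} =>
        (fun _ : {x // x ≠ a ∧ x ≠ b} => ()) j = i).card ≤ Fintype.card {x // x ≠ a ∧ x ≠ b} :=
      Finset.card_le_univ _
    refine lt_of_le_of_lt h1 ?_
    change _ < (blk (fun _ : B => ()) ()).card
    rw [hblk]
    exact Fintype.card_subtype_lt (x := a) (fun h => h.1 rfl)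
  have hsum : ∑ b ∈ (univ : Finset S).erase a,
      (fun J : S → B => if ∀ j, (fun _ : B => ()) (J j) = (fun _ : S => ()) j then
        Q (J a) (J b) • con (fun _ : B => ()) R () a b f (fun x => J x.1) else 0) ∈
        Gen (fun _ : B => ()) Q (fun _ : S => ()) :=
    Submodule.sum_mem _ fun b hb =>
      mul_Gen _ Q (fun _ : S => ()) (Ne.symm (Finset.mem_erase.1 hb).1) (hcon b hb)
  convert hsum using 1
  funext J
  have h1 := cas (K := ℚ) (s := fun _ => 1) hs hQb hQR hf (J := J) (c := fun _ : S => ())
    (fun _ => rfl) (i := ()) (a := a) rfl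
  rw [hfil, hblk] at h1
  rw [Pi.add_apply, Pi.smul_apply, Finset.sum_apply, Finset.sum_apply]
  simp only [implies_true, if_true]
  have h2 : (((Fintype.card S : ℚ)) - 1) • f J + ∑ b ∈ (univ : Finset S).erase a,
      rho (K := ℚ) (Equiv.swap a b) f J =
      (((((Fintype.card S : ℕ) : ℤ)) - 1 : ℤ) : ℚ) • f J +
      ∑ b ∈ (univ : Finset S).erase a, f (fun j => J (Equiv.swap a b j)) := by
    push_cast
    rfl
  rw [h2]
  refine h1.trans ?_
  simp

end Alt

/-- **FFTO.** -/
theorem t_FFTO : S_FFTO := by
  intro ι _ _ p _ R Q hRa hQa hR0 hQ0 hRQ Fm hre hpr hem hba hRF N b hbi hbp hdet κ _ _ hcard a hinv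
  let pat : ι → Option ι := fun i => if p i then none else some i
  have hdec : a = ∑ c : κ → Option ι, fun w : κ → ι => if pat ∘ w = c then a w else 0 := by
    funext w
    rw [Finset.sum_apply, Finset.sum_ite_eq, if_pos (Finset.mem_univ _)]
  rw [hdec]
  refine Submodule.sum_mem _ fun c _ => ?_
  by_cases hc : ∀ k i, c k = some i → ¬ p i
  swap
  · push Not at hc
    obtain ⟨k, i, h1, h2⟩ := hc
    convert (Fm κ).zero_mem using 1
    funext w
    rw [if_neg, Pi.zero_apply]
    intro h
    have h3 := congrFun h k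
    rw [h1] at h3
    simp only [comp_apply, pat] at h3
    split_ifs at h3 with h4
    rw [Option.some.injEq] at h3
    exact h4 (h3 ▸ h2)
  -- the letters of the trivial part
  let w0 : {k // ¬ c k = none} → ι := fun k => (c k.1).get (Option.isSome_iff_ne_none.2 k.2)
  have hw0 : ∀ k, c k.1 = some (w0 k) := fun k => (Option.some_get _).symm
  have hw0p : ∀ k, ¬ p (w0 k) := fun k => hc k.1 _ (hw0 k)
  let gl : ({k // c k = none} → {i // p i}) → κ → ι :=
    fun J k => if h : c k = none then (J ⟨k, h⟩).1 else w0 ⟨k, h⟩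
  have hgl1 : ∀ J (k : {k // c k = none}), gl J k.1 = (J k).1 := fun J k => dif_pos k.2
  have hgl2 : ∀ J (k : {k // ¬ c k = none}), gl J k.1 = w0 k := fun J k => dif_neg k.2
  have hglu : ∀ J (k : {k // c k = none}) (u : {i // p i}),
      gl (update J k u) = update (gl J) k.1 u.1 := by
    intro J k u
    funext x
    by_cases hx : x = k.1
    · subst hx
      rw [hgl1, update_self, update_self]
    · rw [update_of_ne hx]
      by_cases h : c x = none
      · rw [hgl1 _ ⟨x, h⟩, hgl1 _ ⟨x, h⟩, update_of_ne]
        intro h2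
        exact hx (congrArg Subtype.val h2)
      · rw [hgl2 _ ⟨x, h⟩, hgl2 _ ⟨x, h⟩]
  -- the data
  set Qs : Matrix {i // p i} {i // p i} ℚ := R.submatrix (fun i => i.1) (fun i => i.1) with hQs
  set Rs : Matrix {i // p i} {i // p i} ℚ := Q.submatrix (fun i => i.1) (fun i => i.1) with hRs
  have hsy : ∀ x y, Qs x y = Qs y x := fun x y => hRa x.1 y.1
  have hQR : Qs * Rs = 1 := by
    ext x y
    rw [Matrix.mul_apply, Matrix.one_apply]
    show ∑ j : {i // p i}, R x.1 j.1 * Q j.1 y.1 = _
    have h1 := hRQ x.1 y.1 x.2 y.2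
    have h2 : ∑ j : {i // p i}, R x.1 j.1 * Q j.1 y.1 = ∑ j, R x.1 j * Q j y.1 := by
      refine Finset.sum_of_injOn Subtype.val Subtype.val_injective.injOn (by simp) ?_ (by simp)
      intro j _ hj
      rw [hR0 _ _ fun h => hj ⟨⟨j, h.2⟩, by simp⟩, zero_mul]
    rw [h2, h1]
    simp only [Subtype.ext_iff]
  have hinv' : Inv (fun _ : {i // p i} => ()) Qs
      (fun i : Unit => (((fun _ => 1 : Unit → ℤ) i : ℤ) : ℚ))
      (fun J : {k // c k = none} → {i // p i} => a (gl J)) := by
    intro u v _ J
    have h1 := hinv u.1 v.1 u.2 v.2 (gl J)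
    have h2 : ∑ k : {k // c k = none}, (R v.1 (gl J k.1) * a (update (gl J) k.1 u.1) -
        R u.1 (gl J k.1) * a (update (gl J) k.1 v.1)) =
        ∑ k, (R v.1 (gl J k) * a (update (gl J) k u.1) -
        R u.1 (gl J k) * a (update (gl J) k v.1)) := by
      refine Finset.sum_of_injOn Subtype.val Subtype.val_injective.injOn (by simp) ?_ (by simp)
      intro k _ hk
      have hk' : ¬ c k = none := fun h => hk ⟨⟨k, h⟩, by simp⟩
      have h3 : ∀ x : ι, R x (gl J k) = 0 := by
        intro x
        refine hR0 _ _ fun h => ?_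
        have h4 := h.2
        rw [hgl2 J ⟨k, hk'⟩] at h4
        exact hw0p _ h4
      rw [h3, h3, zero_mul, zero_mul, sub_zero]
    rw [← h2] at h1
    refine Eq.trans (Finset.sum_congr rfl fun k _ => ?_) h1
    show R v.1 (J k).1 * a (gl (update J k u)) -
      (((1 : ℤ) : ℚ) * R u.1 (J k).1) * a (gl (update J k v)) = _
    rw [hglu, hglu, hgl1]
    push_cast
    ring
  -- the number of the letters
  have hN : Fintype.card {i // p i} = N := by
    have h1 : Fintype.card (Fin N) = Fintype.card {i // p i} := by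
      refine Fintype.card_of_bijective (f := fun x : Fin N => (⟨b x, (hbp _).2 ⟨x, rfl⟩⟩ : {i // p i}))
        ⟨fun x y h => hbi (congrArg Subtype.val h), fun y => ?_⟩
      obtain ⟨x, hx⟩ := (hbp y.1).1 y.2
      exact ⟨x, Subtype.ext hx⟩
    rw [← h1, Fintype.card_fin]
  have hcardT : Fintype.card {k // c k = none} ≤ N := (Fintype.card_subtype_le _).trans hcard
  -- the invariants in the letters of the quadratic space
  have hext : (fun w : {k // c k = none} → ι => if h : ∀ k, p (w k) then
      a (gl fun k => ⟨w k, h k⟩) else 0) ∈ Fm {k // c k = none} := by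
    rcases lt_or_eq_of_le hcardT with hlt | heq
    · have hkey := fft (K := ℚ) (κ := fun _ => ()) (Q := Qs) (R := Rs) (s := fun _ => 1)
        (fun _ => Or.inl rfl) (fun a b h => absurd rfl h)
        (fun x y => by rw [hsy x y]; simp) hQR
        (Fintype.card {k // c k = none}) {k // c k = none} (fun _ => ())
        (fun J => a (gl J)) rfl (fun I hI => absurd (fun _ => rfl) hI) hinv' (by
          intro i _
          refine lt_of_le_of_lt (Finset.card_le_univ _) ?_
          have h1 : (blk (fun _ : {i // p i} => ()) i).card = N := by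
            rw [← hN, ← Finset.card_univ]
            congr 1
            ext b
            simp [blk]
          rw [h1]
          exact hlt)
      exact genmem hre hpr hem hRF hR0 _ _ hkey
    · obtain ⟨g, hg, h, hgh, halt⟩ := alt_part
        (W := Gen (fun _ : {i // p i} => ()) Qs (fun _ : {k // c k = none} => ()))
        (fun σ f hf => rho_Gen (fun _ => rfl) hf)
        (f := fun J : {k // c k = none} → {i // p i} => a (gl J))
        (fun x => top_case (R := Rs) hsy hQR (by rw [heq, hN]) hinv' x)
      have h1 := genmem hre hpr hem hRF hR0 _ _ hg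
      -- the determinant
      obtain ⟨e⟩ : Nonempty (Fin N ≃ {k // c k = none}) :=
        ⟨(Fintype.equivFinOfCardEq heq).symm⟩
      have h2 := (Fm _).smul_mem (h fun k => ⟨b (e.symm k), (hbp _).2 ⟨_, rfl⟩⟩)
        (hre _ _ e _ hdet)
      convert (Fm _).add_mem h1 h2 using 1
      funext w
      rw [Pi.add_apply, Pi.smul_apply, smul_eq_mul]
      by_cases hw : ∀ k, p (w k)
      · rw [dif_pos hw, dif_pos hw]
        have h3 := congrFun hgh fun k => ⟨w k, hw k⟩
        rw [Pi.add_apply] at h3
        refine h3.trans (congrArg₂ (· + ·) rfl ?_)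
        by_cases hwi : Injective w
        · -- the permutation
          have h4 : ∀ x : Fin N, ∃ y : Fin N, b y = w (e x) := fun x => (hbp _).1 (hw (e x))
          choose σ0 hσ0 using h4
          have h5 : Injective σ0 := by
            intro x y hxy
            have := hσ0 x
            rw [hxy, hσ0 y] at this
            exact e.injective (hwi this.symm)
          obtain ⟨σ, hσ⟩ : ∃ σ : Equiv.Perm (Fin N), ∀ x, σ x = σ0 x :=
            ⟨Equiv.ofBijective σ0 (Finite.injective_iff_bijective.1 h5), fun _ => rfl⟩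
          have h6 : w ∘ e = b ∘ σ := by
            funext x
            rw [comp_apply, comp_apply, hσ, hσ0]
          rw [Finset.sum_eq_single σ]
          · rw [if_pos h6]
            have h7 := congrFun (alt_perm halt ((e.symm.trans σ).trans e))
              fun k => ⟨b (e.symm k), (hbp _).2 ⟨_, rfl⟩⟩
            have h8 : Equiv.Perm.sign ((e.symm.trans σ).trans e) = Equiv.Perm.sign σ :=
              Equiv.Perm.sign_symm_trans_trans σ e
            rw [h8, Pi.smul_apply, smul_eq_mul] at h7
            rw [mul_comm, ← h7]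
            show h _ = h fun k => _
            congr 1
            funext k
            apply Subtype.ext
            have h9 := congrFun h6 (e.symm k)
            rw [comp_apply, comp_apply, Equiv.apply_symm_apply] at h9
            show w k = b (e.symm (e (σ (e.symm k))))
            rw [Equiv.symm_apply_apply]
            exact h9
          · intro τ _ hτ
            rw [if_neg]
            intro h7
            apply hτ
            ext x
            have h8 := congrFun (h6.symm.trans h7) x
            rw [hbi h8]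
          · intro h7
            exact absurd (Finset.mem_univ _) h7
        · rw [alt_noninj halt, Finset.sum_eq_zero, mul_zero]
          · intro σ _
            rw [if_neg]
            intro h4
            apply hwi
            have h5 : Injective (w ∘ e) := by
              rw [h4]
              exact hbi.comp σ.injective
            intro x y hxy
            have h6 := @h5 (e.symm x) (e.symm y) (by
              rw [comp_apply, comp_apply, Equiv.apply_symm_apply, Equiv.apply_symm_apply]
              exact hxy)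
            exact e.symm.injective h6
          · intro h4
            apply hwi
            intro x y hxy
            exact h4 (Subtype.ext hxy)
      · rw [dif_neg hw, dif_neg hw, zero_add, Finset.sum_eq_zero, mul_zero]
        intro σ _
        rw [if_neg]
        intro h4
        apply hw
        intro k
        have h5 := congrFun h4 (e.symm k)
        rw [comp_apply, comp_apply, Equiv.apply_symm_apply] at h5
        rw [h5]
        exact (hbp _).2 ⟨_, rfl⟩
  have h2 := deltamem hre hpr hem hba _ w0 hw0p
  have h3 := hre _ _ (Equiv.sumCompl fun k => c k = none) _ (hpr _ _ _ hext _ h2)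
  convert h3 using 1
  funext w
  by_cases hw : pat ∘ w = c
  · have e1 : ∀ k : {k // c k = none}, p (w k.1) := by
      intro k
      have := congrFun hw k.1
      rw [k.2] at this
      simp only [comp_apply, pat] at this
      by_contra hn
      rw [if_neg hn] at this
      exact absurd this (by simp)
    have e2 : ∀ k : {k // ¬ c k = none}, w k.1 = w0 k := by
      intro k
      have := congrFun hw k.1
      rw [hw0 k] at this
      simp only [comp_apply, pat] at this
      split_ifs at this
      exact Option.some.inj this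
    have e3 : (w ∘ (Equiv.sumCompl fun k => c k = none)) ∘ Sum.inr = w0 := funext e2
    have e4 : ∀ k, p (((w ∘ (Equiv.sumCompl fun k => c k = none)) ∘ Sum.inl) k) := e1
    have e5 : ∀ J : {k // c k = none} → {i // p i}, (∀ k, (J k).1 = w k.1) → w = gl J := by
      intro J hJ
      funext k
      by_cases h : c k = none
      · exact ((hgl1 J ⟨k, h⟩).trans (hJ ⟨k, h⟩)).symm
      · exact ((hgl2 J ⟨k, h⟩).trans (e2 ⟨k, h⟩).symm).symm
    rw [if_pos hw, dif_pos e4, if_pos e3, mul_one]
    have e6 := e5 (fun k => ⟨w k.1, e1 k⟩) fun k => rfl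
    exact congrArg a e6
  · rw [if_neg hw]
    by_contra hne
    apply hw
    have hA : ∀ k, p (((w ∘ (Equiv.sumCompl fun k => c k = none)) ∘ Sum.inl) k) := by
      by_contra hn
      rw [dif_neg hn, zero_mul] at hne
      exact hne rfl
    have hB : (w ∘ (Equiv.sumCompl fun k => c k = none)) ∘ Sum.inr = w0 := by
      by_contra hn
      rw [if_neg hn, mul_zero] at hne
      exact hne rfl
    funext k
    by_cases h : c k = none
    · rw [h]
      simp only [comp_apply, pat]
      exact if_pos (hA ⟨k, h⟩)
    · have h4 : w k = w0 ⟨k, h⟩ := congrFun hB ⟨k, h⟩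
      rw [hw0 ⟨k, h⟩]
      simp only [comp_apply, pat]
      rw [h4]
      exact if_neg (hw0p _)

end Pool.Agent.T2h63.LT
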