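import Pool.Agent.T2h63.LT.Stm
import Pool.Agent.W544.PG.Final2
import Pool.Agent.W544.PG.MainG

/-!
# The theorem on Lie algebras of sums of Hodge structures, for tuples of matrices
-/

set_option autoImplicit false

open Matrix

namespace Pool.Agent.T2h63.LT

open Pool.Agent.W544.PG

namespace LieSum

section
variable {r : ℕ} {n : Fin r → ℕ}

/-- the block diagonal matrix -/
def Bm {R : Type} [Zero R] (M : ∀ i, Matrix (Fin (n i)) (Fin (n i)) R) :
    Matrix (Fin (∑ i, n i)) (Fin (∑ i, n i)) R :=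
  (blockDiagonal' M).submatrix finSigmaFinEquiv.symm finSigmaFinEquiv.symm

/-- the indices of the block `i` -/
def em (n : Fin r → ℕ) (i : Fin r) (j : Fin (n i)) : Fin (∑ i, n i) := finSigmaFinEquiv ⟨i, j⟩

/-- the block of an index -/
def colr (n : Fin r → ℕ) (a : Fin (∑ i, n i)) : Fin r := (finSigmaFinEquiv.symm a).1

theorem col_em (i : Fin r) (j : Fin (n i)) : colr n (em n i j) = i := by
  unfold colr em
  rw [Equiv.symm_apply_apply]

theorem exists_em (a : Fin (∑ i, n i)) : ∃ i j, a = em n i j := by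
  refine ⟨(finSigmaFinEquiv.symm a).1, (finSigmaFinEquiv.symm a).2, ?_⟩
  unfold em
  exact (Equiv.apply_symm_apply finSigmaFinEquiv a).symm

theorem em_inj {i : Fin r} {j k : Fin (n i)} (h : em n i j = em n i k) : j = k := by
  unfold em at h
  have h1 := finSigmaFinEquiv.injective h
  simpa using h1

theorem sum_em {β : Type} [AddCommMonoid β] (f : Fin (∑ i, n i) → β) :
    ∑ a, f a = ∑ i, ∑ j, f (em n i j) := by
  rw [← (finSigmaFinEquiv (n := n)).sum_comp, Fintype.sum_sigma]
  rfl

theorem Bm_same {R : Type} [Zero R] (M : ∀ i, Matrix (Fin (n i)) (Fin (n i)) R) (i : Fin r)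
    (j k : Fin (n i)) : Bm M (em n i j) (em n i k) = M i j k := by
  unfold Bm em
  rw [submatrix_apply, Equiv.symm_apply_apply, Equiv.symm_apply_apply, blockDiagonal'_apply_eq]

theorem Bm_ne {R : Type} [Zero R] (M : ∀ i, Matrix (Fin (n i)) (Fin (n i)) R) {i i' : Fin r}
    (h : i ≠ i') (j : Fin (n i)) (k : Fin (n i')) : Bm M (em n i j) (em n i' k) = 0 := by
  unfold Bm em
  rw [submatrix_apply, Equiv.symm_apply_apply, Equiv.symm_apply_apply, blockDiagonal'_apply_ne _ _ _ h]

theorem Bm_BD {R : Type} [Zero R] (M : ∀ i, Matrix (Fin (n i)) (Fin (n i)) R) :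
    BD (colr n) (Bm M) := by
  intro a b h
  obtain ⟨i, j, rfl⟩ := exists_em a
  obtain ⟨i', k, rfl⟩ := exists_em b
  rw [col_em, col_em] at h
  exact Bm_ne M h j k

theorem Bm_mul {R : Type} [CommRing R] (M M' : ∀ i, Matrix (Fin (n i)) (Fin (n i)) R) :
    Bm M * Bm M' = Bm fun i => M i * M' i := by
  unfold Bm
  rw [submatrix_mul_equiv, blockDiagonal'_mul]

theorem Bm_map {R S : Type} [Zero R] [Zero S] (M : ∀ i, Matrix (Fin (n i)) (Fin (n i)) R)
    (f : R → S) (hf : f 0 = 0) : (Bm M).map f = Bm fun i => (M i).map f := by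
  unfold Bm
  rw [← blockDiagonal'_map _ _ hf]
  rfl

theorem Bm_T {R : Type} [Zero R] (M : ∀ i, Matrix (Fin (n i)) (Fin (n i)) R) :
    (Bm M)ᵀ = Bm fun i => (M i)ᵀ := by
  unfold Bm
  rw [← blockDiagonal'_transpose]
  rfl

/-- the linear map -/
noncomputable def BL (n : Fin r → ℕ) : (∀ i, Matrix (Fin (n i)) (Fin (n i)) ℂ) →ₗ[ℂ]
    Matrix (Fin (∑ i, n i)) (Fin (∑ i, n i)) ℂ where
  toFun := Bm
  map_add' M M' := by
    unfold Bm
    rw [blockDiagonal'_add]
    rfl
  map_smul' c M := by
    ext a b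
    obtain ⟨i, j, rfl⟩ := exists_em a
    obtain ⟨i', k, rfl⟩ := exists_em b
    by_cases h : i = i'
    · subst h
      rw [Bm_same, Matrix.smul_apply, Bm_same]
      rfl
    · rw [Bm_ne _ h, Matrix.smul_apply, Bm_ne _ h]
      simp

theorem BL_apply (M : ∀ i, Matrix (Fin (n i)) (Fin (n i)) ℂ) : BL n M = Bm M := rfl

theorem Bm_add (M M' : ∀ i, Matrix (Fin (n i)) (Fin (n i)) ℂ) :
    Bm M + Bm M' = Bm fun i => M i + M' i := ((BL n).map_add M M').symm

theorem Bm_sub (M M' : ∀ i, Matrix (Fin (n i)) (Fin (n i)) ℂ) :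
    Bm M - Bm M' = Bm fun i => M i - M' i := ((BL n).map_sub M M').symm

theorem Bm_neg (M : ∀ i, Matrix (Fin (n i)) (Fin (n i)) ℂ) :
    -Bm M = Bm fun i => -M i := ((BL n).map_neg M).symm

theorem Bm_smul (c : ℂ) (M : ∀ i, Matrix (Fin (n i)) (Fin (n i)) ℂ) :
    c • Bm M = Bm fun i => c • M i := ((BL n).map_smul c M).symm

theorem Bm_zero : Bm (fun i => (0 : Matrix (Fin (n i)) (Fin (n i)) ℂ)) = 0 := (BL n).map_zero

theorem Bm_one : Bm (fun i => (1 : Matrix (Fin (n i)) (Fin (n i)) ℂ)) = 1 := by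
  unfold Bm
  rw [show (fun i => (1 : Matrix (Fin (n i)) (Fin (n i)) ℂ)) = 1 from rfl, blockDiagonal'_one,
    submatrix_one_equiv]

theorem Bm_inj {R : Type} [Zero R] {M M' : ∀ i, Matrix (Fin (n i)) (Fin (n i)) R}
    (h : Bm M = Bm M') : M = M' := by
  funext i
  ext j k
  rw [← Bm_same M i j k, h, Bm_same]

theorem Bm_mulVec (M : ∀ i, Matrix (Fin (n i)) (Fin (n i)) ℂ) (v : Fin (∑ i, n i) → ℂ) (i : Fin r)
    (j : Fin (n i)) : (Bm M *ᵥ v) (em n i j) = (M i *ᵥ fun k => v (em n i k)) j := by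
  simp only [mulVec, dotProduct]
  rw [sum_em, Finset.sum_eq_single i]
  · refine Finset.sum_congr rfl fun k _ => ?_
    rw [Bm_same]
  · intro i' _ hi
    refine Finset.sum_eq_zero fun k _ => ?_
    rw [Bm_ne M hi.symm, zero_mul]
  · intro h
    exact absurd (Finset.mem_univ i) h

theorem mul_Bm (A : Matrix (Fin (∑ i, n i)) (Fin (∑ i, n i)) ℂ)
    (M : ∀ i, Matrix (Fin (n i)) (Fin (n i)) ℂ) (i j : Fin r) :
    (A * Bm M).submatrix (em n j) (em n i) = A.submatrix (em n j) (em n i) * M i := by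
  ext k l
  simp only [submatrix_apply, mul_apply]
  rw [sum_em, Finset.sum_eq_single i]
  · refine Finset.sum_congr rfl fun k _ => ?_
    rw [Bm_same]
  · intro i' _ hi
    refine Finset.sum_eq_zero fun k _ => ?_
    rw [Bm_ne M hi, mul_zero]
  · intro h
    exact absurd (Finset.mem_univ i) h

theorem Bm_mul' (A : Matrix (Fin (∑ i, n i)) (Fin (∑ i, n i)) ℂ)
    (M : ∀ i, Matrix (Fin (n i)) (Fin (n i)) ℂ) (i j : Fin r) :
    (Bm M * A).submatrix (em n j) (em n i) = M j * A.submatrix (em n j) (em n i) := by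
  ext k l
  simp only [submatrix_apply, mul_apply]
  rw [sum_em, Finset.sum_eq_single j]
  · refine Finset.sum_congr rfl fun k _ => ?_
    rw [Bm_same]
  · intro i' _ hi
    refine Finset.sum_eq_zero fun k _ => ?_
    rw [Bm_ne M hi.symm, zero_mul]
  · intro h
    exact absurd (Finset.mem_univ j) h

theorem mC_Bm (M : ∀ i, Matrix (Fin (n i)) (Fin (n i)) ℚ) : mC (Bm M) = Bm fun i => mC (M i) := by
  unfold mC
  rw [Bm_map _ _ Rat.cast_zero]

theorem form_Bm (M : ∀ i, Matrix (Fin (n i)) (Fin (n i)) ℂ) (v : Fin (∑ i, n i) → ℂ) :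
    star v ⬝ᵥ (Bm M *ᵥ v) =
      ∑ i, star (fun k => v (em n i k)) ⬝ᵥ (M i *ᵥ fun k => v (em n i k)) := by
  rw [dotProduct, sum_em]
  refine Finset.sum_congr rfl fun i _ => ?_
  rw [dotProduct]
  refine Finset.sum_congr rfl fun j _ => ?_
  rw [Bm_mulVec]
  rfl

/-- the direct sum of the Hodge structures -/
noncomputable def TS (T : ∀ i, HS (n i)) : HS (∑ i, n i) where
  Q := Bm fun i => (T i).Q
  symm := by
    rw [Bm_T]
    congr 1
    funext i
    exact (T i).symm
  x := Bm fun i => (T i).x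
  cube := by
    rw [Bm_mul, Bm_mul]
    congr 1
    funext i
    exact (T i).cube
  real := by
    rw [Bm_map _ _ (map_zero _), Bm_neg]
    congr 1
    funext i
    exact (T i).real
  skew := by
    rw [mC_Bm, Bm_T, Bm_mul, Bm_mul, Bm_add, ← Bm_zero]
    congr 1
    funext i
    exact (T i).skew
  pos := by
    intro v hv
    rw [mC_Bm, Bm_mul, Bm_smul, ← Bm_one, Bm_sub, Bm_mul, form_Bm, Complex.re_sum]
    have h0 : ∀ i, 0 ≤ (star (fun k => v (em n i k)) ⬝ᵥ
        ((mC (T i).Q * ((2 : ℂ) • ((T i).x * (T i).x) - 1)) *ᵥ fun k => v (em n i k))).re := by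
      intro i
      by_cases h : (fun k => v (em n i k)) = 0
      · rw [h]
        simp
      · exact ((T i).pos _ h).le
    obtain ⟨a, ha⟩ : ∃ a, v a ≠ 0 := by
      by_contra hcon
      push Not at hcon
      exact hv (funext hcon)
    obtain ⟨i, j, rfl⟩ := exists_em a
    refine Finset.sum_pos' (fun i _ => h0 i) ⟨i, Finset.mem_univ i, (T i).pos _ ?_⟩
    intro h
    exact ha (congrFun h j)

theorem sum_col (i : Fin r) (f : Fin (∑ i, n i) → ℂ) :
    ∑ a with colr n a = i, f a = ∑ j, f (em n i j) := by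
  rw [Finset.sum_filter, sum_em, Finset.sum_eq_single i]
  · refine Finset.sum_congr rfl fun k _ => ?_
    rw [if_pos (col_em i k)]
  · intro i' _ hi
    refine Finset.sum_eq_zero fun k _ => ?_
    rw [if_neg]
    rw [col_em]
    exact hi
  · intro h
    exact absurd (Finset.mem_univ i) h

theorem card_col (i : Fin r) : (Finset.univ.filter fun a => colr n a = i).card = n i := by
  have h := sum_col (n := n) i (fun _ => (1 : ℂ))
  simp only [Finset.sum_const, Finset.card_univ, Fintype.card_fin, nsmul_eq_mul, mul_one] at h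
  exact_mod_cast h

end

/-- the identity for the Weil operator -/
theorem weil {m : ℕ} (x w : Matrix (Fin m) (Fin m) ℂ) (hx : x * x * x = x) :
    -(((2 : ℂ) • (x * x) - 1) * w * ((2 : ℂ) • (x * x) - 1)) =
      -w + (8 / 3 : ℂ) • (x * (x * w - w * x) - (x * w - w * x) * x) -
        (2 / 3 : ℂ) • (x * (x * (x * (x * w - w * x) - (x * w - w * x) * x) -
          (x * (x * w - w * x) - (x * w - w * x) * x) * x) -
          (x * (x * (x * w - w * x) - (x * w - w * x) * x) -
          (x * (x * w - w * x) - (x * w - w * x) * x) * x) * x) := by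
  have u2 : x * (x * w - w * x) - (x * w - w * x) * x =
      x * x * w - (2 : ℂ) • (x * w * x) + w * (x * x) := by
    rw [two_smul]
    noncomm_ring
  have hx1 : x * (x * x) = x := by rw [← Matrix.mul_assoc, hx]
  have f1 : x * x * (x * x * w) = x * x * w := by
    calc x * x * (x * x * w) = x * (x * x * x) * w := by simp only [Matrix.mul_assoc]
      _ = x * x * w := by rw [hx]
  have f2 : x * x * (x * w * x) = x * w * x := by
    calc x * x * (x * w * x) = (x * x * x) * w * x := by simp only [Matrix.mul_assoc]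
      _ = x * w * x := by rw [hx]
  have f3 : x * (x * x * w) * x = x * w * x := by
    calc x * (x * x * w) * x = (x * x * x) * w * x := by simp only [Matrix.mul_assoc]
      _ = x * w * x := by rw [hx]
  have f4 : x * (x * w * x) * x = x * x * w * (x * x) := by simp only [Matrix.mul_assoc]
  have f5 : x * (w * (x * x)) * x = x * w * x := by
    calc x * (w * (x * x)) * x = x * w * (x * x * x) := by simp only [Matrix.mul_assoc]
      _ = x * w * x := by rw [hx]
  have f6 : x * w * x * (x * x) = x * w * x := by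
    calc x * w * x * (x * x) = x * w * (x * x * x) := by simp only [Matrix.mul_assoc]
      _ = x * w * x := by rw [hx]
  have f7 : w * (x * x) * (x * x) = w * (x * x) := by
    calc w * (x * x) * (x * x) = w * (x * (x * x * x)) := by simp only [Matrix.mul_assoc]
      _ = w * (x * x) := by rw [hx]
  have f8 : x * x * (w * (x * x)) = x * x * w * (x * x) := by simp only [Matrix.mul_assoc]
  have gen : ∀ u : Matrix (Fin m) (Fin m) ℂ, x * (x * u - u * x) - (x * u - u * x) * x =
      x * x * u - (2 : ℂ) • (x * u * x) + u * (x * x) := by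
    intro u
    rw [two_smul]
    noncomm_ring
  rw [gen (x * (x * w - w * x) - (x * w - w * x) * x), u2]
  have g1 : x * x * (x * x * w - (2 : ℂ) • (x * w * x) + w * (x * x)) =
      x * x * w - (2 : ℂ) • (x * w * x) + x * x * w * (x * x) := by
    rw [Matrix.mul_add, Matrix.mul_sub, Matrix.mul_smul, f1, f2, f8]
  have g2 : x * (x * x * w - (2 : ℂ) • (x * w * x) + w * (x * x)) * x =
      x * w * x - (2 : ℂ) • (x * x * w * (x * x)) + x * w * x := by
    rw [Matrix.mul_add, Matrix.mul_sub, Matrix.mul_smul, Matrix.add_mul, Matrix.sub_mul,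
      Matrix.smul_mul, f3, f4, f5]
  have g3 : (x * x * w - (2 : ℂ) • (x * w * x) + w * (x * x)) * (x * x) =
      x * x * w * (x * x) - (2 : ℂ) • (x * w * x) + w * (x * x) := by
    rw [Matrix.add_mul, Matrix.sub_mul, Matrix.smul_mul, f6, f7]
  have g4 : ((2 : ℂ) • (x * x) - 1) * w * ((2 : ℂ) • (x * x) - 1) =
      (4 : ℂ) • (x * x * w * (x * x)) - (2 : ℂ) • (x * x * w) - (2 : ℂ) • (w * (x * x)) + w := by
    rw [Matrix.sub_mul, Matrix.smul_mul, Matrix.one_mul, Matrix.mul_sub, Matrix.mul_smul,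
      Matrix.sub_mul, Matrix.smul_mul, Matrix.mul_one]
    module
  rw [g1, g2, g3, g4]
  module

end LieSum

open LieSum in
theorem t_LIESUM : S_LIESUM := by
  intro r p q T hp hnum htr hsc hhom h hsk hli hcj hga Z hZ
  have hB : (TS T).Big (colr fun i => 2 * p i + q i) p q := by
    refine ⟨Bm_BD _, Bm_BD _, ?_, ?_, ?_, fun i => Or.inr ⟨hp i, hnum i⟩⟩
    · intro P hP
      have hblk : ∀ i j, (P.submatrix (em (fun i => 2 * p i + q i) j)
          (em (fun i => 2 * p i + q i) i)).map (fun a : ℚ => (a : ℂ)) * (T i).x =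
          (T j).x * (P.submatrix (em (fun i => 2 * p i + q i) j)
          (em (fun i => 2 * p i + q i) i)).map (fun a : ℚ => (a : ℂ)) := by
        intro i j
        have h1 := congrArg (fun A => A.submatrix (em (fun i => 2 * p i + q i) j)
          (em (fun i => 2 * p i + q i) i)) hP
        beta_reduce at h1
        have e1 : (TS T).x = Bm fun i => (T i).x := rfl
        rw [e1, mul_Bm, Bm_mul'] at h1
        exact h1
      have hd : ∀ i, ∃ c : ℚ, P.submatrix (em (fun i => 2 * p i + q i) i)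
          (em (fun i => 2 * p i + q i) i) =
          c • (1 : Matrix (Fin (2 * p i + q i)) (Fin (2 * p i + q i)) ℚ) :=
        fun i => hsc i _ (hblk i i)
      choose d hd using hd
      refine ⟨d, ?_⟩
      ext a b
      obtain ⟨i, k, rfl⟩ := exists_em a
      obtain ⟨j, l, rfl⟩ := exists_em b
      by_cases hij : i = j
      · subst hij
        have h1 := congrFun (congrFun (hd i) k) l
        rw [submatrix_apply] at h1
        rw [h1]
        by_cases hkl : k = l
        · subst hkl
          rw [diagonal_apply_eq, col_em]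
          simp
        · rw [diagonal_apply_ne _ (fun h => hkl (em_inj h))]
          simp [hkl]
      · have h1 := hhom j i (Ne.symm hij) _ (hblk j i)
        have h2 := congrFun (congrFun h1 k) l
        rw [submatrix_apply] at h2
        rw [h2, diagonal_apply_ne]
        · rfl
        · intro h
          apply hij
          have := congrArg (colr fun i => 2 * p i + q i) h
          rwa [col_em, col_em] at this
    · intro i
      rw [sum_col, ← htr i, Matrix.trace]
      refine Finset.sum_congr rfl fun j _ => ?_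
      have e1 : (TS T).x * (TS T).x = Bm fun i => (T i).x * (T i).x := Bm_mul _ _
      rw [e1, Bm_same]
      rfl
    · intro i
      exact card_col i
  have hx : (fun i => (T i).x) ∈ h := by
    have h1 := hga (RingEquiv.refl ℂ)
    have h2 : (fun i => (T i).x.map (RingEquiv.refl ℂ)) = fun i => (T i).x := by
      funext i
      ext a b
      rfl
    rwa [h2] at h1
  have key := mainG (T := TS T) (c := colr fun i => 2 * p i + q i) (p := p) (q := q)
    (hh0 := h.map (BL fun i => 2 * p i + q i))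
    Pool.Agent.W571.PG.sub Pool.Agent.W589.PG.Sim.sim Pool.Agent.W756.PG.gou thtF
    Pool.Agent.W696.PG.de2 ?_ ?_ ?_ ?_ ?_ hB (Bm Z) ?_ (Bm_BD Z)
  · obtain ⟨y, hy, hyZ⟩ := key
    rw [BL_apply] at hyZ
    rw [← Bm_inj hyZ]
    exact hy
  · rintro _ ⟨y, hy, rfl⟩
    exact Bm_BD y
  · rintro _ ⟨y, hy, rfl⟩
    change (Bm y)ᵀ * mC (Bm fun i => (T i).Q) + mC (Bm fun i => (T i).Q) * Bm y = 0
    rw [mC_Bm, Bm_T, Bm_mul, Bm_mul, Bm_add, ← Bm_zero]
    congr 1
    funext i
    exact hsk y hy i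
  · rintro _ ⟨y, hy, rfl⟩ _ ⟨z, hz, rfl⟩
    refine ⟨_, hli y hy z hz, ?_⟩
    rw [BL_apply, BL_apply, BL_apply, Bm_mul, Bm_mul, Bm_sub]
  · rintro _ ⟨y, hy, rfl⟩
    have hw := hcj y hy
    have b1 := hli _ hx _ hw
    have b2 := hli _ hx _ b1
    have b3 := hli _ hx _ b2
    have b4 := hli _ hx _ b3
    refine ⟨_, h.sub_mem (h.add_mem (h.neg_mem hw) (h.smul_mem (8 / 3 : ℂ) b2))
      (h.smul_mem (2 / 3 : ℂ) b4), ?_⟩
    have e1 : (TS T).C = Bm fun i => (2 : ℂ) • ((T i).x * (T i).x) - 1 := by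
      unfold HS.C
      have e2 : (TS T).x * (TS T).x = Bm fun i => (T i).x * (T i).x := Bm_mul _ _
      rw [e2, Bm_smul, ← Bm_one, Bm_sub]
    rw [e1, BL_apply, BL_apply, Bm_map _ _ (map_zero _), Bm_mul, Bm_mul, Bm_neg]
    congr 1
    funext i
    exact (weil (T i).x ((y i).map (starRingEnd ℂ)) (T i).cube).symm
  · intro σ
    refine ⟨_, hga σ, ?_⟩
    change Bm (fun i => (T i).x.map σ) = (Bm fun i => (T i).x).map σ
    rw [Bm_map _ _ (map_zero _)]
  · change (Bm Z)ᵀ * mC (Bm fun i => (T i).Q) + mC (Bm fun i => (T i).Q) * Bm Z = 0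
    rw [mC_Bm, Bm_T, Bm_mul, Bm_mul, Bm_add, ← Bm_zero]
    congr 1
    funext i
    exact hZ i

end Pool.Agent.T2h63.LT
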