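import Pool.Agent.T2h63.LT.MatE

/-!
# The matrices of the Hodge structure on the transcendental classes (task MATX of helper63)
-/

set_option linter.unusedSectionVars false

open CategoryTheory AlgebraicGeometry TensorProduct Matrix

universe u v

namespace Pool.Agent.T2h63.LT

open Module
open Pool.Agent.H914 Pool.Agent.H914.VarClass Pool.Agent.H914.VarClass.Obj
  Pool.Agent.H914.WeilCohomology
open Pool.Agent.Y121.AHS (toH HodgeTheory)
open Pool.Agent.Y121.AH (CW em em_gr em_add em_zero em_tr em_smul em_mul ex hodgePred pq_ind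
  tmul_eq tmul_ind hodge_nondeg hodgeSys)
open Pool.Agent.Y133.Half (ClassPred)
open Pool.Agent.N996.BP (Bil IsRat extConj extBil conjK)
open Pool.Agent.T2h63.AH
open Pool.Agent.T2h63.CY (val val_add val_smul val_zero val_sg val_rat fam_sp fam_skew Other
  cop_nop cjS cjS_cjS Bf Bf_add Bf_add' Bf_smul Bf_smul' Bf_skew)
open Pool.Agent.W544.PG (HS mC)

variable {k : Type u} [Field k] {𝒱 : VarClass k} {ops : CycleOps 𝒱}
  {T : HodgeTheory ops} {X : 𝒱.Obj}

/-- The transcendental classes of the basis. -/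
noncomputable def tT {a n : ℕ} (B : Basis (Fin a ⊕ Fin n) (toH T).W.K ((toH T).W.H X)) :
    Fin n → T.W.H X := tb B

lemma exists_co {n : ℕ} (hc : IsCompl (Hsp T X) (Trp T X))
    (hn : finrank T.W.K (Trp T X) = n) (ho : Other (toH T) X.dim X) :
    ∃ (a : ℕ) (B : Basis (Fin a ⊕ Fin n) (toH T).W.K ((toH T).W.H X)), Co B ∧
      (∀ j, IsTr T X (tT B j)) ∧
      ∀ x, IsTr T X x → x ∈ Submodule.span T.W.K (Set.range (tT B)) := by
  let b₁ := finBasis T.W.K (Hsp T X)
  let b₂ := finBasisOfFinrankEq T.W.K (Trp T X) hn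
  let e := Submodule.prodEquivOfIsCompl _ _ hc
  let B : Basis (Fin (finrank T.W.K (Hsp T X)) ⊕ Fin n) T.W.K (T.W.H X) := (b₁.prod b₂).map e
  have h1 : ∀ i, B (Sum.inl i) ∈ Hsp T X := by
    intro i
    simp only [B]
    rw [Basis.map_apply, Basis.prod_apply]
    simp only [Sum.elim_inl, Function.comp_apply, LinearMap.coe_inl]
    rw [Submodule.coe_prodEquivOfIsCompl']
    simp
  have h2 : ∀ j, B (Sum.inr j) ∈ Trp T X := by
    intro j
    simp only [B]
    rw [Basis.map_apply, Basis.prod_apply]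
    simp only [Sum.elim_inr, Function.comp_apply, LinearMap.coe_inr]
    rw [Submodule.coe_prodEquivOfIsCompl']
    simp
  have h3 : ∀ x ∈ Hsp T X, ∀ j, B.repr x (Sum.inr j) = 0 := by
    intro x hx j
    simp only [B]
    rw [Basis.map_repr, LinearEquiv.trans_apply]
    have h1 : e.symm x = (⟨x, hx⟩, 0) := by
      rw [LinearEquiv.symm_apply_eq, Submodule.coe_prodEquivOfIsCompl']
      simp
    rw [h1, Basis.prod_repr_inr, map_zero, Finsupp.zero_apply]
  have h4 : ∀ x ∈ Trp T X, ∀ i, B.repr x (Sum.inl i) = 0 := by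
    intro x hx i
    simp only [B]
    rw [Basis.map_repr, LinearEquiv.trans_apply]
    have h1 : e.symm x = (0, ⟨x, hx⟩) := by
      rw [LinearEquiv.symm_apply_eq, Submodule.coe_prodEquivOfIsCompl']
      simp
    rw [h1, Basis.prod_repr_inl, map_zero, Finsupp.zero_apply]
  refine ⟨_, B, ⟨h1, fun j => (h2 j).1, fun j y hy => ?_, h3, ho⟩, h2, fun x hx => ?_⟩
  · have h5 : ∀ y : T.W.H X, y ∈ Hsp T X → T.W.tr X (B (Sum.inr j) * y) = 0 := by
      intro y hy
      induction hy using Submodule.span_induction with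
      | mem c hc => exact (h2 j).2 c hc
      | zero => rw [mul_zero, map_zero]
      | add a b _ _ ha hb => rw [mul_add, map_add, ha, hb, add_zero]
      | smul r a _ ha => rw [mul_smul_comm, map_smul, ha, smul_zero]
    exact h5 y hy
  · have h6 := B.sum_repr x
    rw [Fintype.sum_sum_type, Finset.sum_eq_zero (fun i _ => by
      rw [h4 x hx i, zero_smul]), zero_add] at h6
    rw [← h6]
    exact Submodule.sum_mem _ fun j _ => Submodule.smul_mem _ _ (Submodule.subset_span ⟨j, rfl⟩)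

/-- The trace form. -/
noncomputable def TLf (S : Pool.Agent.Y121.AH.HodgeTheory ops) (X : 𝒱.Obj) :
    LinearMap.BilinForm (CW S).K ((CW S).H X) :=
  LinearMap.mk₂ (CW S).K (fun x y => (CW S).tr X (x * y))
    (fun x y z => by rw [add_mul, map_add]) (fun c x y => by rw [smul_mul_assoc, map_smul])
    (fun x y z => by rw [mul_add, map_add]) (fun c x y => by rw [mul_smul_comm, map_smul])

lemma TLf_em {S : Pool.Agent.Y121.AH.HodgeTheory ops} (c d : S.W.H X) :
    TLf S X (em S.W ℂ c) (em S.W ℂ d) = ex S.W ℂ (S.W.tr X (c * d)) := by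
  have h : (CW S).tr X (em S.W ℂ c * em S.W ℂ d) = ex S.W ℂ (S.W.tr X (c * d)) := by
    rw [← em_mul, em_tr]
  exact h

section More

variable {a n : ℕ} {B : Basis (Fin a ⊕ Fin n) (toH T).W.K ((toH T).W.H X)}

/-- The classes with given coordinates. -/
noncomputable def vC (B : Basis (Fin a ⊕ Fin n) (toH T).W.K ((toH T).W.H X)) :
    (Fin n → ℂ) →ₗ[ℂ] EX T X where
  toFun v := ofX (val (tb B) v)
  map_add' v w := congrArg ofX (val_add (tb B) v w)
  map_smul' c v := congrArg ofX (val_smul (tb B) c v)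

lemma rank_ker (hB : Co B) {x : Matrix (Fin n) (Fin n) ℂ}
    (hx : ∀ v : Fin n → ℂ, AH.nop (toH T) X (val (tb B) v) =
      (2 : (CW (toH T)).K) • val (tb B) (x *ᵥ v)) {m p : ℕ} (hm : X.dim = 2 * m)
    (hl : ∀ (a b : ℤ) (x : (CW (toH T)).H X), x ∈ (toH T).pq X a b → x ≠ 0 → |a - b| ≤ 2)
    (hr : finrank ℂ (T.pq X (m + 1) (m - 1)) = p) :
    finrank ℂ (LinearMap.ker (Matrix.toLin' (x - 1))) = p := by
  have h1 : Submodule.map (vC B) (LinearMap.ker (Matrix.toLin' (x - 1))) =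
      T.pq X (m + 1) (m - 1) := by
    ext y
    rw [Submodule.mem_map]
    refine Iff.trans ?_ (top_iff hB hx hm hl (toX y)).symm
    refine exists_congr fun v => and_congr ?_ Iff.rfl
    rw [LinearMap.mem_ker, Matrix.toLin'_apply, Matrix.sub_mulVec, Matrix.one_mulVec,
      sub_eq_zero]
  have hinj : Function.Injective (vC B) := fun v w h => val_inj2 hB h
  have h2 := LinearMap.finrank_range_of_inj
    (f := (vC B).comp (LinearMap.ker (Matrix.toLin' (x - 1))).subtype)
    (hinj.comp (Submodule.injective_subtype _))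
  rw [LinearMap.range_comp, Submodule.range_subtype, h1] at h2
  exact h2.symm.trans hr

lemma scal_aux {S : Pool.Agent.Y121.AH.HodgeTheory ops}
    {B : Basis (Fin a ⊕ Fin n) S.W.K (S.W.H X)} (P : Matrix (Fin n) (Fin n) ℚ) (r : S.W.K)
    (r0 : ℚ) (h0 : (r0 : S.W.K) = r) (j : Fin n)
    (h1 : ∑ i, (P i j : S.W.K) • tb B i = r • tb B j) (i : Fin n) :
    P i j = (r0 • (1 : Matrix (Fin n) (Fin n) ℚ)) i j := by
  have h2 : ∑ l, (((P l j : ℚ) : S.W.K) - if l = j then r else 0) • tb B l = 0 := by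
    simp only [sub_smul, Finset.sum_sub_distrib]
    rw [h1, sub_eq_zero, Finset.sum_eq_single j]
    · rw [if_pos rfl]
    · intro l _ hl
      rw [if_neg hl, zero_smul]
    · intro h
      exact absurd (Finset.mem_univ j) h
  have h3 := (Fintype.linearIndependent_iff.1 (tb_indep (B := B))) _ h2 i
  rw [sub_eq_zero] at h3
  by_cases hij : i = j
  · subst hij
    rw [if_pos rfl] at h3
    have h4 : P i i = r0 := Rat.cast_injective (α := S.W.K) (h3.trans h0.symm)
    rw [h4]
    simp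
  · rw [if_neg hij] at h3
    have h4 : P i j = 0 := Rat.cast_injective (α := S.W.K) (h3.trans Rat.cast_zero.symm)
    rw [h4]
    simp [hij]

lemma val_single {S : Pool.Agent.Y121.AH.HodgeTheory ops} (b : Fin n → S.W.H X) (j : Fin n) :
    val b (Pi.single j 1) = em S.W ℂ (b j) := by
  unfold val
  rw [Finset.sum_eq_single j]
  · rw [Pi.single_eq_same]
    exact one_smul (CW S).K _
  · intro i _ hij
    rw [Pi.single_eq_of_ne hij]
    exact zero_smul (CW S).K _
  · intro h
    exact absurd (Finset.mem_univ j) h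

lemma nop_tb {x : Matrix (Fin n) (Fin n) ℂ}
    (hx : ∀ v : Fin n → ℂ, AH.nop (toH T) X (val (tb B) v) =
      (2 : (CW (toH T)).K) • val (tb B) (x *ᵥ v)) (j : Fin n) :
    AH.nop (toH T) X (em (toH T).W ℂ (tT B j)) =
      ∑ i, cz T (2 * x i j) • (show (CW (toH T)).H X from em (toH T).W ℂ (tT B i)) := by
  have h1 := hx (Pi.single j 1)
  have h2 : AH.nop (toH T) X (val (tb B) (Pi.single j 1)) =
      AH.nop (toH T) X (em (toH T).W ℂ (tT B j)) :=
    congrArg (AH.nop (toH T) X) (val_single (tb B) j)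
  have h3 := val_smul (tb B) (2 : ℂ) (x *ᵥ Pi.single j 1)
  have h4 : (2 : ℂ) • (x *ᵥ Pi.single j 1) = fun i => 2 * x i j := by
    funext i
    rw [Pi.smul_apply, Matrix.mulVec_single_one, smul_eq_mul]
    rfl
  rw [h4] at h3
  exact h2.symm.trans (h1.trans h3.symm)

end More

theorem t_MATX (hDEC : S_DEC.{u}) : S_MATX.{u} := by
  intro k _ 𝒱 ops T X m p h
  obtain ⟨ψ, hψ⟩ := h.polar
  obtain ⟨hcomp, hfr⟩ := hDEC T X h.data.other
  obtain ⟨q, hq⟩ : ∃ q, 2 * p + q = trBetti T X := by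
    have h1 := h.data.large
    by_contra hcon
    have h2 : trBetti T X < 2 * p := by
      by_contra h3
      exact hcon ⟨trBetti T X - 2 * p, by omega⟩
    rw [show trBetti T X - 4 * p = 0 by omega, zero_mul] at h1
    exact absurd h1 (Nat.not_lt_zero _)
  have hp2 := h.data.two
  refine ⟨q, ?_⟩
  rw [← hq] at hfr
  obtain ⟨a, B, hB, htr, hspan⟩ := exists_co hcomp hfr h.data.other
  obtain ⟨x, hx⟩ := exists_mat hB
  have hm : X.dim = 2 * m := h.data.dim
  have hl : ∀ (a b : ℤ) (x : (CW (toH T)).H X), x ∈ (toH T).pq X a b → x ≠ 0 → |a - b| ≤ 2 :=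
    fun a b x hx h0 => h.data.level a b (ofX x) hx h0
  have hcube := cube hB hx hm hl
  have hreal := real_mat hB hx (fun p q x hx => cj_pq hψ hx)
  choose rt hrt using T.rat
  have hrtC : ∀ r : T.W.K, ((rt r : ℚ) : ℂ) = algebraMap T.W.K ℂ r := by
    intro r
    conv_rhs => rw [← hrt r, map_ratCast]
  -- the polarisation
  have hskψ := skew_mat hB hx (BL ψ) (fun c d => ψ c d) (fun c d => Bf_em (ψ := ψ) c d)
    (Bf_skew hψ FamLie.nop)
  have hbil := bil_val (S := toH T) (X := X) (BL ψ) (fun c d => ψ c d)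
    (fun c d => Bf_em (ψ := ψ) c d) (tb B)
  set Γ : Matrix (Fin (2 * p + q)) (Fin (2 * p + q)) ℂ :=
    Matrix.of fun i j => algebraMap (toH T).W.K ℂ (ψ (tb B i) (tb B j)) with hΓ
  let Q : Matrix (Fin (2 * p + q)) (Fin (2 * p + q)) ℚ :=
    Matrix.of fun i j => -rt (ψ (tb B i) (tb B j))
  have hQΓ : mC Q = -Γ := by
    ext i j
    have h1 : mC Q i j = ((-rt (ψ (tb B i) (tb B j)) : ℚ) : ℂ) := rfl
    rw [h1, Rat.cast_neg, hrtC]
    rfl
  have hsym : Qᵀ = Q := by
    ext i j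
    have h1 : ψ (tb B j) (tb B i) = ψ (tb B i) (tb B j) := by
      have h2 := Bf_symm (m := m) hψ hl (hm ▸ em_gr (hB.tg j)) (hm ▸ em_gr (hB.tg i))
      have h3 := Bf_em (ψ := ψ) (tb B j) (tb B i)
      have h4 := Bf_em (ψ := ψ) (tb B i) (tb B j)
      exact (algebraMap T.W.K ℂ).injective (h3.symm.trans ((congrArg ofK h2).trans h4))
    have h2 : Qᵀ i j = -rt (ψ (tb B j) (tb B i)) := rfl
    rw [h2, h1]
    rfl
  have hskew : xᵀ * mC Q + mC Q * x = 0 := by
    rw [hQΓ, mul_neg, neg_mul, ← neg_add]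
    exact (congrArg Neg.neg hskψ).trans neg_zero
  have hpos : ∀ v : Fin (2 * p + q) → ℂ, v ≠ 0 →
      0 < (star v ⬝ᵥ ((mC Q * ((2 : ℂ) • (x * x) - 1)) *ᵥ v)).re := by
    intro v hv
    obtain ⟨y₁, h₁, y₂, h₂, y₃, h₃, e0, -, e2⟩ := parts hB hx hm hl v
    have h1 := nop2 hB hx v
    rw [e2] at h1
    have h2 : y₁ + y₃ = val (tb B) ((x * x) *ᵥ v) := two_inj hB (two_inj hB h1)
    have h3 : val (tb B) (((2 : ℂ) • (x * x) - 1) *ᵥ v) = y₁ - y₂ + y₃ := by
      have h4 : ((2 : ℂ) • (x * x) - 1) *ᵥ v = (2 : ℂ) • ((x * x) *ᵥ v) + (-1 : ℂ) • v := by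
        rw [Matrix.sub_mulVec, Matrix.smul_mulVec, Matrix.one_mulVec, neg_one_smul,
          sub_eq_add_neg]
      have h5 : (show (CW (toH T)).K from (2 : ℂ)) • (y₁ + y₃) = (y₁ + y₃) + (y₁ + y₃) :=
        two_smul (CW (toH T)).K (y₁ + y₃)
      have h6 : (show (CW (toH T)).K from (-1 : ℂ)) • (y₁ + y₂ + y₃) = -(y₁ + y₂ + y₃) :=
        neg_one_smul (CW (toH T)).K _
      rw [h4, val_add, val_smul, val_smul, ← h2, e0, h5, h6]
      abel
    have hne : y₁ + y₂ + y₃ ≠ 0 := by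
      rw [← e0]
      exact fun h0 => hv (val_inj hB h0)
    have h7 := Bf_herm hψ h₁ h₂ h₃ hne
    rw [← h3, ← e0] at h7
    have h8 : sg (toH T) (cjS (toH T)) X (val (tb B) v) = val (tb B) (star v) :=
      (val_sg (tb B) (cjS (toH T)) v).symm
    rw [h8] at h7
    have h9 : star v ⬝ᵥ ((mC Q * ((2 : ℂ) • (x * x) - 1)) *ᵥ v) =
        -ofK (Bf ψ (val (tb B) (star v)) (val (tb B) (((2 : ℂ) • (x * x) - 1) *ᵥ v))) := by
      have h10 := hbil (star v) (((2 : ℂ) • (x * x) - 1) *ᵥ v)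
      have h11 : ofK (Bf ψ (val (tb B) (star v)) (val (tb B)
          (((2 : ℂ) • (x * x) - 1) *ᵥ v))) =
          star v ⬝ᵥ (Γ *ᵥ (((2 : ℂ) • (x * x) - 1) *ᵥ v)) := h10
      rw [h11, hQΓ, ← Matrix.mulVec_mulVec, Matrix.neg_mulVec, dotProduct_neg]
    rw [h9]
    exact h7
  let S : HS (2 * p + q) := ⟨Q, hsym, x, hcube, hreal, hskew, hpos⟩
  have hscal : S.Scalar := by
    intro P hP
    obtain ⟨f, hf1, hf2⟩ := exists_endo hB hx hm P hP
    obtain ⟨r, hr⟩ := h.data.scalar f (fun a b y hy => by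
      rw [add_zero, add_zero]
      exact hf2 a b (toX y) hy)
    refine ⟨rt r, ?_⟩
    ext i j
    have h1 : f (tb B j) = (show (toH T).W.K from r) • tb B j := hr _ (htr j)
    exact scal_aux (S := toH T) P r (rt r) (hrt r) j ((hf1 j).symm.trans h1) i
  have htrace : (S.x * S.x).trace = 2 * (p : ℂ) := by
    exact Mx.trace_sq x hcube hreal p (rank_ker hB hx hm hl h.data.rank)
  -- the intersection form
  let G : Matrix (Fin (2 * p + q)) (Fin (2 * p + q)) ℚ :=
    Matrix.of fun i j => rt (T.W.tr X (tb B i * tb B j))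
  have hGs : xᵀ * mC G + mC G * x = 0 := by
    have h1 := skew_mat hB hx (TLf (toH T) X) (fun c d => (toH T).W.tr X (c * d))
      (fun c d => TLf_em (S := toH T) c d) (fam_skew FamLie.nop)
    have h3 : mC G = Matrix.of fun i j => algebraMap (toH T).W.K ℂ
        ((toH T).W.tr X (tb B i * tb B j)) := by
      ext i j
      exact hrtC _
    rw [h3]
    exact h1
  obtain ⟨c, hc⟩ := Mx.form_smul S hscal G hGs
  have hcast : ∀ i j, T.W.tr X (tT B i * tT B j) = ((c * S.Q i j : ℚ) : T.W.K) := by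
    intro i j
    have h1 : G i j = c * S.Q i j := by
      rw [hc, Matrix.smul_apply, smul_eq_mul]
    rw [← h1]
    exact (hrt _).symm
  have hind : LinearIndependent T.W.K (tT B) := tb_indep (B := B)
  refine ⟨S, tT B, c, ⟨htr, hspan, hind, hcomp, nop_tb hx, hcast, ?_, hscal, htrace⟩, hq⟩
  rintro rfl
  have h1 : ∀ i j, (toH T).W.tr X (tb B i * tb B j) = 0 := by
    intro i j
    refine (hcast i j).trans ?_
    rw [zero_mul, Rat.cast_zero]
    rfl
  have hpos' : 0 < 2 * p + q := by omega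
  have h2 := nd_tb hB (Pi.single ⟨0, hpos'⟩ 1) (fun j => by
    rw [Finset.sum_mul, map_sum]
    refine Finset.sum_eq_zero fun i _ => ?_
    rw [smul_mul_assoc, map_smul, h1, smul_zero])
  have h3 := congrFun h2 ⟨0, hpos'⟩
  rw [Pi.single_eq_same] at h3
  exact one_ne_zero h3

end Pool.Agent.T2h63.LT
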