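import Pool.Agent.T2h63.LT.Stm
import Pool.Agent.W544.PG.MainG
import Pool.Agent.W589.PG.Sim
import Pool.Agent.W637.PG.EG2

/-!
# An ideal of the orthogonal Lie algebra which contains the elements of degree two is everything
-/

set_option autoImplicit false

open Matrix

namespace Pool.Agent.T2h63.LT

open Pool.Agent.W544.PG

theorem t_SIMQ : S_SIMQ := by
  intro n p T hn hp htr J hJ1 hJ2 hJ3 Z hZ
  have hdet : (mC T.Q).det ≠ 0 := by
    intro h
    apply Pool.Agent.W74.PG.det_ne T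
    have h1 : (mC T.Q).det = ((T.Q.det : ℚ) : ℂ) := by
      have h2 := (Rat.castHom ℂ).map_det T.Q
      exact h2.symm
    rw [h1] at h
    exact_mod_cast h
  obtain ⟨g, hg⟩ := Pool.Agent.W557.PG.orth _ (by rw [mC_T, T.symm]) hdet
  obtain ⟨g', hg'⟩ : ∃ g' : Matrix (Fin n) (Fin n) ℂ, g' = gᵀ * mC T.Q := ⟨_, rfl⟩
  have e1 : g' * g = 1 := by rw [hg']; exact hg
  have e2 : g * g' = 1 := mul_eq_one_comm.1 e1
  have sk1 : ∀ y : Matrix (Fin n) (Fin n) ℂ, yᵀ * mC T.Q + mC T.Q * y = 0 →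
      (g' * y * g)ᵀ = -(g' * y * g) := by
    intro y hy
    have h1 := cc_skew e2 (mC T.Q) y hy
    rw [hg, Matrix.mul_one, Matrix.one_mul] at h1
    exact eq_neg_of_add_eq_zero_left h1
  have sk2 : ∀ y : Matrix (Fin n) (Fin n) ℂ, yᵀ = -y →
      (g * y * g')ᵀ * mC T.Q + mC T.Q * (g * y * g') = 0 := by
    intro y hy
    have h1 : (g * y * g')ᵀ * mC T.Q = -(mC T.Q * (g * y * g')) := by
      have t1 : gᵀ * g'ᵀ = 1 := by rw [← Matrix.transpose_mul, e1, Matrix.transpose_one]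
      have t2 : g'ᵀ * gᵀ = 1 := by rw [← Matrix.transpose_mul, e2, Matrix.transpose_one]
      have t3 : gᵀ * mC T.Q = g' := by rw [hg']
      have t4 : mC T.Q * g = g'ᵀ := by
        calc mC T.Q * g = g'ᵀ * gᵀ * (mC T.Q * g) := by
              rw [t2, Matrix.one_mul]
          _ = g'ᵀ * (gᵀ * mC T.Q * g) := by simp only [Matrix.mul_assoc]
          _ = g'ᵀ := by rw [hg, Matrix.mul_one]
      rw [Matrix.transpose_mul, Matrix.transpose_mul, hy]
      calc g'ᵀ * (-y * gᵀ) * mC T.Q = -(g'ᵀ * y * (gᵀ * mC T.Q)) := by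
            simp only [Matrix.mul_assoc, Matrix.neg_mul, Matrix.mul_neg]
        _ = -(g'ᵀ * y * g') := by rw [t3]
        _ = -(mC T.Q * (g * y * g')) := by
            rw [← t4]
            simp only [Matrix.mul_assoc]
    rw [h1, neg_add_cancel]
  let φ : Matrix (Fin n) (Fin n) ℂ →ₗ[ℂ] Matrix (Fin n) (Fin n) ℂ :=
    (LinearMap.mulRight ℂ g).comp (LinearMap.mulLeft ℂ g')
  have hφ : ∀ y, φ y = g' * y * g := fun y => rfl
  have key := Pool.Agent.W589.PG.Sim.sim n (by omega) (by omega) (J.map φ) ?_ ?_ ?_ (g' * Z * g)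
    (sk1 Z hZ)
  · obtain ⟨y, hy, hyZ⟩ := key
    rw [hφ] at hyZ
    have h1 : y = Z := by rw [← cc_back e2 y, hyZ, cc_back e2]
    rw [← h1]
    exact hy
  · rintro _ ⟨y, hy, rfl⟩
    rw [hφ]
    exact sk1 y (hJ1 y hy)
  · rintro W hW _ ⟨y, hy, rfl⟩
    refine ⟨(g * W * g') * y - y * (g * W * g'), hJ2 _ (sk2 W hW) y hy, ?_⟩
    rw [hφ, hφ]
    unfold br
    rw [Matrix.mul_sub, Matrix.sub_mul, ← cc_mul' e2 (g * W * g') y, ← cc_mul' e2 y (g * W * g'),
      cc_fwd e1]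
  · intro hbot
    obtain ⟨W, hW0, hW1, -, hW3⟩ := Pool.Agent.W637.PG.eg2 n 1 T (fun _ => 0) 0 p
      (fun a b h => absurd rfl h) (fun a b h => absurd rfl h) (by
        rw [← htr, Matrix.trace]
        simp) hp
    have h1 : φ W ∈ J.map φ := ⟨W, hJ3 W hW1 hW3, rfl⟩
    rw [hbot, Submodule.mem_bot, hφ] at h1
    apply hW0
    rw [← cc_back e2 W, h1, Matrix.mul_zero, Matrix.zero_mul]

end Pool.Agent.T2h63.LT
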