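import Pool.Agent.T2h63.LT.GStm
import Pool.Agent.T2h63.AH.Main2

/-!
# The decomposition of the cohomology
-/

set_option autoImplicit false
set_option linter.unusedSectionVars false

open CategoryTheory AlgebraicGeometry TensorProduct

universe u

namespace Pool.Agent.T2h63.LT

open Module
open Pool.Agent.H914 Pool.Agent.H914.VarClass Pool.Agent.H914.VarClass.Obj
  Pool.Agent.H914.WeilCohomology
open Pool.Agent.Y121.AHS (toH HodgeTheory IsHodge)
open Pool.Agent.Y121.AH (CW em hodgePred hodgeSys hodge_nondeg)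
open Pool.Agent.Y133.Half (pw ClassPred)
open Pool.Agent.T2h63.AH

variable {k : Type u} [Field k] {𝒱 : VarClass k} {ops : CycleOps 𝒱} {T : HodgeTheory ops}
  {X : 𝒱.Obj}

lemma hsp_iff {x : T.W.H X} : x ∈ Hsp T X ↔ x ∈ (hodgePred (toH T)).sp X := Iff.rfl

lemma trp_iff {x : T.W.H X} : x ∈ Trp T X ↔ IsTr T X x := Iff.rfl

lemma tr_hsp {x c : T.W.H X} (hx : IsTr T X x) (hc : c ∈ Hsp T X) : T.W.tr X (x * c) = 0 := by
  induction hc using Submodule.span_induction with
  | mem c hc => exact hx.2 c hc
  | zero => rw [mul_zero, map_zero]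
  | add a b _ _ ha hb => rw [mul_add, map_add, ha, hb, add_zero]
  | smul r a _ ha => rw [mul_smul_comm, map_smul, ha, smul_zero]

lemma hsp_trp {x : T.W.H X} (hx : x ∈ Hsp T X) (hx' : IsTr T X x) : x = 0 :=
  hodge_nondeg (T := toH T) hx fun _ hy => tr_hsp hx' hy

/-- The part of degree `n` of a combination of Hodge classes. -/
lemma hsp_proj {x : T.W.H X} (hx : x ∈ Hsp T X) (n : ℕ) :
    H914.proj (T.W.isInternal X) n x ∈ Hsp T X := by
  rcases Nat.even_or_odd' n with ⟨l, rfl | rfl⟩
  · exact ClassPred.sp_of (Q := hodgePred (toH T)) (ClassPred.sp_proj (Q := hodgePred (toH T)) hx l)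
  · have h : H914.proj (T.W.isInternal X) (2 * l + 1) x = 0 := by
      refine ClassPred.sp_ind (Q := hodgePred (toH T))
        (q := fun x => H914.proj (T.W.isInternal X) (2 * l + 1) x = 0) ?_ ?_ ?_ hx
      · intro j a ha
        exact proj_ne _ ((hodgePred (toH T)).gr ha) (by omega)
      · exact map_zero _
      · intro a b ha hb
        exact (map_add (H914.proj (T.W.isInternal X) (2 * l + 1)) (show T.W.H X from a)
          (show T.W.H X from b)).trans ((congrArg₂ (· + ·) ha hb).trans (add_zero _))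
    rw [h]
    exact Submodule.zero_mem _

/-- The Hodge class which represents the form `tr(x c)` on the Hodge classes. -/
lemma exists_rep (x : T.W.H X) : ∃ h ∈ Hsp T X, ∀ c ∈ Hsp T X,
    T.W.tr X (h * c) = T.W.tr X (x * c) := by
  let φ : Hsp T X →ₗ[T.W.K] Module.Dual T.W.K (Hsp T X) :=
    { toFun := fun h => ((T.W.tr X).comp (LinearMap.mulLeft T.W.K (h : T.W.H X))).comp
        (Hsp T X).subtype
      map_add' := fun a b => by
        ext c
        simp [add_mul]
      map_smul' := fun r a => by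
        ext c
        simp }
  have hinj : Function.Injective φ := by
    rw [injective_iff_map_eq_zero]
    intro a ha
    apply Subtype.ext
    refine hodge_nondeg (T := toH T) a.2 fun c hc => ?_
    exact congrArg (fun f : Module.Dual T.W.K (Hsp T X) => f ⟨c, hc⟩) ha
  have hsurj : Function.Surjective φ :=
    (LinearMap.injective_iff_surjective_of_finrank_eq_finrank
      (Subspace.dual_finrank_eq (K := T.W.K) (V := Hsp T X)).symm).1 hinj
  obtain ⟨h, hh⟩ := hsurj (((T.W.tr X).comp (LinearMap.mulLeft T.W.K x)).comp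
        (Hsp T X).subtype)
  refine ⟨h, h.2, fun c hc => ?_⟩
  exact congrArg (fun f : Module.Dual T.W.K (Hsp T X) => f ⟨c, hc⟩) hh

lemma dec_deg {x : T.W.H X} (hx : x ∈ T.W.gr X X.dim) : ∃ h ∈ Hsp T X, IsTr T X (x - h) := by
  obtain ⟨h, hh, h1⟩ := exists_rep x
  refine ⟨H914.proj (T.W.isInternal X) X.dim h, hsp_proj hh _,
    Submodule.sub_mem _ hx (H914.proj_mem _ _ _), ?_⟩
  rintro c ⟨j, hc⟩
  have hcg : c ∈ T.W.gr X (2 * j) := hc.1
  have h2 := h1 c (Submodule.subset_span ⟨j, hc⟩)
  have h3 : T.W.tr X (H914.proj (T.W.isInternal X) X.dim h * c) = T.W.tr X (x * c) := by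
    by_cases hj : 2 * j = X.dim
    · rw [← h2]
      refine gr_induction (T.W.isInternal X) (p := fun h =>
        T.W.tr X (H914.proj (T.W.isInternal X) X.dim h * c) = T.W.tr X (h * c)) ?_ ?_ h
      · intro i a ha
        by_cases hi : i = X.dim
        · subst hi
          rw [proj_same _ ha]
        · rw [proj_ne _ ha hi, zero_mul, map_zero, T.W.tr_eq_zero (T.W.mul_mem ha hcg) (by omega)]
      · intro a b ha hb
        rw [map_add, add_mul, add_mul, map_add, map_add, ha, hb]
    · rw [T.W.tr_eq_zero (T.W.mul_mem (H914.proj_mem _ _ _) hcg) (by omega),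
        T.W.tr_eq_zero (T.W.mul_mem hx hcg) (by omega)]
  rw [sub_mul, map_sub, h3, sub_self]

/-- **DEC.** -/
theorem t_DEC : S_DEC := by
  intro k _ 𝒱 ops T X hX
  have hc : IsCompl (Hsp T X) (Trp T X) := by
    refine ⟨Submodule.disjoint_def.2 fun x hx hx' => hsp_trp hx hx', ?_⟩
    rw [codisjoint_iff, eq_top_iff]
    intro x _
    refine gr_induction (T.W.isInternal X) (p := fun x => x ∈ Hsp T X ⊔ Trp T X) ?_ ?_ x
    · intro i a ha
      by_cases hi : i = X.dim
      · subst hi
        obtain ⟨h, hh, h1⟩ := dec_deg ha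
        rw [← add_sub_cancel h a]
        exact Submodule.add_mem _ (Submodule.mem_sup_left hh) (Submodule.mem_sup_right h1)
      · exact Submodule.mem_sup_left (hX i hi a ha)
    · intro a b ha hb
      exact Submodule.add_mem _ ha hb
  refine ⟨hc, ?_⟩
  exact (LinearEquiv.finrank_eq (Submodule.quotientEquivOfIsCompl (Hsp T X) (Trp T X) hc)).symm

end Pool.Agent.T2h63.LT
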