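import Pool.Agent.T2h63.AH.Defs

/-!
# Varieties of level two, the transcendental classes and the determinant: definitions
-/

open CategoryTheory AlgebraicGeometry TensorProduct

universe u

namespace Pool.Agent.T2h63.LT

open Pool.Agent.H914 Pool.Agent.H914.VarClass Pool.Agent.H914.VarClass.Obj
  Pool.Agent.H914.WeilCohomology
open Pool.Agent.Y121.AHS Pool.Agent.N996.BP Pool.Agent.T2h63.AH

section Alg

variable {K A B : Type} [Field K] [Algebra K ℂ] [Ring A] [Algebra K A] [Ring B] [Algebra K B]

/-- The subspaces of `A`. -/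
abbrev Sub (K A : Type) [Field K] [Ring A] [Algebra K A] : Type := Submodule K A

/-- The linear forms on `A`. -/
abbrev Form (K A : Type) [Field K] [Ring A] [Algebra K A] : Type := A →ₗ[K] K

/-- The element `x` of `V` is orthogonal to the elements with the property `P` for the form
`tr(x y)`. -/
def IsOrth (V : Sub K A) (tr : Form K A) (P : A → Prop) (x : A) : Prop :=
  x ∈ V ∧ ∀ c, P c → tr (x * c) = 0

/-- The linear map `f` maps the elements of type `(a, b)` to elements of type `(a + s, b + s)`. -/
def IsShift (pq : Decomp K A) (pq' : Decomp K B) (s : ℤ) (f : LinHom K A B) : Prop :=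
  ∀ a b x, Mem pq a b x → Mem pq' (a + s) (b + s) (extMap K ℂ f x)

/-- All morphisms of Hodge structures (up to Tate twists) are zero on the elements with the property
`P`. -/
def ZeroOn (pq : Decomp K A) (pq' : Decomp K B) (P : A → Prop) : Prop :=
  ∀ s f, IsShift pq pq' s f → ∀ x, P x → f x = 0

/-- The Hodge structure `A` with the grading `gr`, the form `tr` and the Hodge classes `P` satisfies:
`n = 2 m`, the elements of degree different from `n` are combinations of Hodge classes, `pq a b = 0`
for `|a - b| > 2`, the dimension of `pq (m + 1) (m - 1)` is `p ≥ 2`, the endomorphisms of the Hodge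
structure act as rational numbers on the transcendental classes (the elements of degree `n`
orthogonal to the Hodge classes), and `2 p^2 (p^2 + 1) < (t - 4 p) (t - p)`. -/
structure LevelTwo (pq : Decomp K A) (gr : ℕ → Sub K A) (tr : Form K A) (P : A → Prop)
    (n m p t : ℕ) : Prop where
  dim : n = 2 * m
  other : ∀ i, i ≠ n → ∀ c ∈ gr i, c ∈ Submodule.span K {c | P c}
  level : ∀ a b x, Mem pq a b x → x ≠ 0 → |a - b| ≤ 2
  rank : Module.finrank ℂ (pq (m + 1) (m - 1)) = p
  two : 2 ≤ p
  scalar : ∀ f, IsShift pq pq 0 f → ∃ r : K, ∀ x, IsOrth (gr n) tr P x → f x = r • x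
  large : 2 * p ^ 2 * (p ^ 2 + 1) < (t - 4 * p) * (t - p)

/-- The Hodge Lie algebra contains all operators which kill the elements with the property `P` and
are skew for the form `tr(x y)`. -/
def AllSkew (pq : Decomp K A) (tr : Form K A) (P : A → Prop) : Prop :=
  ∀ F : LinOp (Ext K ℂ A), (∀ c, P c → F ((1 : ℂ) ⊗ₜ[K] c) = 0) →
    (∀ x y, extForm K ℂ tr (extMul K ℂ (F x) y) + extForm K ℂ tr (extMul K ℂ x (F y)) = 0) →
    LieOf pq F

/-- The sum of the products `sgn(σ) r 0 (a (σ 0)) r 1 (a (σ 1)) ⋯` over all permutations `σ` of the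
numbers `0, ..., t - 1`. -/
noncomputable def altSum {t : ℕ} (r : Fin t → (A →ₐ[K] B)) (a : Fin t → A) : B :=
  ∑ σ : Equiv.Perm (Fin t), (Equiv.Perm.sign σ : ℤ) • (List.ofFn fun i => r i (a (σ i))).prod

end Alg

variable {k : Type u} [Field k] {𝒱 : VarClass k} {ops : CycleOps 𝒱}

/-- The class `x` on `X` is transcendental: it is of degree `dim X` and orthogonal to the Hodge
classes. -/
def IsTr (T : HodgeTheory ops) (X : 𝒱.Obj) (x : T.W.H X) : Prop :=
  IsOrth (T.W.gr X X.dim) (T.W.tr X) (IsSomeHodge T X) x

/-- The conditions on `X`: the dimension is `2 m`, `H(X)` is polarised, the classes of degree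
different from `2 m` are combinations of Hodge classes, `H^(a,b) = 0` for `|a - b| > 2`, the
dimension of `H^(m+1,m-1)` is `p ≥ 2`, the endomorphisms of the Hodge structure `H(X)` act
as rational numbers on the transcendental classes, and the transcendental Betti number `t`
satisfies `2 p^2 (p^2 + 1) < (t - 4 p) (t - p)`. -/
structure IsLT (T : HodgeTheory ops) (X : 𝒱.Obj) (m p : ℕ) : Prop where
  polar : ∃ ψ, IsPol T X ψ
  data : LevelTwo (T.pq X) (T.W.gr X) (T.W.tr X) (IsSomeHodge T X) X.dim m p (trBetti T X)

/-- The Hodge Lie algebra of `X` contains all operators which kill the Hodge classes and are skew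
for the intersection form: the Hodge group is as large as possible. -/
def FullOrthogonal (T : HodgeTheory ops) (X : 𝒱.Obj) : Prop :=
  AllSkew (T.pq X) (T.W.tr X) (IsSomeHodge T X)

/-- For different varieties `X`, `Y` in the class `𝒳` all morphisms of Hodge structures (up to Tate
twists) from `H(X)` to `H(Y)` are zero on the transcendental classes. -/
def Distinct (T : HodgeTheory ops) (𝒳 : Set 𝒱.Obj) : Prop :=
  ∀ X ∈ 𝒳, ∀ Y ∈ 𝒳, X ≠ Y → ZeroOn (T.pq X) (T.pq Y) (IsTr T X)

/-- The determinants of transcendental classes belong to the system `𝒜`: for all morphisms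
`f 0, ..., f (t - 1)` from a variety `Y` to `X`, `t` the transcendental Betti number of `X`, and
transcendental classes `a 0, ..., a (t - 1)` on `X`, the sum of the classes
`sgn(σ) f 0^* a (σ 0) ⋯ f (t - 1)^* a (σ (t - 1))` is in the system. (They are the pull-backs of one
class on the product of `t` copies of `X`, up to rational factors.) -/
def DetIn {T : HodgeTheory ops} (𝒜 : ClassSystem T) (X : 𝒱.Obj) : Prop :=
  ∀ (Y : 𝒱.Obj) (f : Fin (trBetti T X) → (Y ⟶ X)) (a : Fin (trBetti T X) → T.W.H X) (j : ℕ),
    2 * j = X.dim * trBetti T X → (∀ i, IsTr T X (a i)) →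
      𝒜.P Y j (altSum (fun i => T.W.map (f i)) a)

end Pool.Agent.T2h63.LT
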