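import Pool.Agent.T2h63.LT.Sep

/-!
# The Hodge group is as large as possible
-/

set_option autoImplicit false
set_option linter.unusedSectionVars false
set_option maxHeartbeats 400000

open CategoryTheory AlgebraicGeometry TensorProduct Matrix

universe u

namespace Pool.Agent.T2h63.LT

open Module
open Pool.Agent.H914 Pool.Agent.H914.VarClass Pool.Agent.H914.VarClass.Obj
  Pool.Agent.H914.WeilCohomology
open Pool.Agent.Y121.AHS (toH HodgeTheory IsHodge)
open Pool.Agent.Y121.AH (CW em em_gr em_add em_zero em_tr em_smul em_mul ex hodgePred hodgeSys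
  hodge_nondeg pq_ind pq_ext tmul_eq tmul_ind)
open Pool.Agent.Y133.Half (pw ClassPred)
open Pool.Agent.T2h63.AH
open Pool.Agent.T2h63.CY (fam_sp fam_skew Other fam_other cjS)
open Pool.Agent.W544.PG (HS mC)

variable {k : Type u} [Field k] {𝒱 : VarClass k} {ops : CycleOps 𝒱}

section Gen

variable {S : Pool.Agent.Y121.AH.HodgeTheory ops} {X Y : 𝒱.Obj} {n m : ℕ} {t : Fin n → S.W.H X}

/-- The space spanned by rational classes. -/
noncomputable def spE (S : Pool.Agent.Y121.AH.HodgeTheory ops) (X : 𝒱.Obj) (V : Submodule S.W.K (S.W.H X)) :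
    Submodule (CW S).K ((CW S).H X) :=
  Submodule.span (CW S).K {y | ∃ c ∈ V, em S.W ℂ c = y}

lemma spE_mem {V : Submodule S.W.K (S.W.H X)} {c : S.W.H X} (hc : c ∈ V) :
    em S.W ℂ c ∈ spE S X V := Submodule.subset_span ⟨c, hc, rfl⟩

/-- The space spanned by the classes `t`. -/
noncomputable def spT (S : Pool.Agent.Y121.AH.HodgeTheory ops) (t : Fin n → S.W.H X) :
    Submodule (CW S).K ((CW S).H X) :=
  Submodule.span (CW S).K (Set.range fun i => em S.W ℂ (t i))

lemma spT_mem (j : Fin n) : em S.W ℂ (t j) ∈ spT S t := Submodule.subset_span ⟨j, rfl⟩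

lemma mem_spT {v : S.W.H X} (hv : v ∈ Submodule.span S.W.K (Set.range t)) :
    em S.W ℂ v ∈ spT S t := by
  induction hv using Submodule.span_induction with
  | mem x hx =>
    obtain ⟨j, rfl⟩ := hx
    exact spT_mem j
  | zero => rw [em_zero]; exact Submodule.zero_mem _
  | add x y _ _ hx hy => rw [em_add]; exact Submodule.add_mem _ hx hy
  | smul r x _ hx => rw [em_smul]; exact Submodule.smul_mem _ _ hx

lemma mem_sup_em {V : Submodule S.W.K (S.W.H X)} (hV : ∀ x, x ∈ V ⊔ Submodule.span S.W.K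
    (Set.range t)) (y : (CW S).H X) : y ∈ spE S X V ⊔ spT S t := by
  have h : (spE S X V ⊔ spT S t).mkQ = 0 := ext_em fun a => by
    rw [LinearMap.zero_apply, Submodule.mkQ_apply, Submodule.Quotient.mk_eq_zero]
    obtain ⟨u, hu, v, hv, rfl⟩ := Submodule.mem_sup.1 (hV a)
    rw [em_add]
    exact Submodule.add_mem_sup (spE_mem hu) (mem_spT hv)
  exact (Submodule.Quotient.mk_eq_zero _).1 (congrArg (fun A => A y) h)

lemma kill_sp {A : Module.End (CW S).K ((CW S).H X)}
    (h : ∀ j c, Pool.Agent.Y121.AH.IsHodge S X j c → A (em S.W ℂ c) = 0) {c : S.W.H X}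
    (hc : c ∈ (hodgePred S).sp X) : A (em S.W ℂ c) = 0 := by
  refine ClassPred.sp_ind (Q := hodgePred S) (q := fun c => A (em S.W ℂ c) = 0)
    (fun j a ha => h j a ha) ?_ ?_ hc
  · rw [em_zero, map_zero]
  · intro x y hx hy
    rw [em_add, map_add, hx, hy, add_zero]

/-- Skew operators which kill the complement have matrices. -/
lemma exists_mt {V : Submodule S.W.K (S.W.H X)} (hV : ∀ x, x ∈ V ⊔ Submodule.span S.W.K
    (Set.range t)) (ho : ∀ c ∈ V, ∀ j, S.W.tr X (t j * c) = 0)
    (ho' : ∀ c ∈ V, ∀ j, S.W.tr X (c * t j) = 0) {A : Module.End (CW S).K ((CW S).H X)}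
    (h0 : ∀ c ∈ V, A (em S.W ℂ c) = 0)
    (hs : ∀ x y, (CW S).tr X (A x * y) + (CW S).tr X (x * A y) = 0) :
    ∃ Z, Mt t A Z := by
  have e0 : ex S.W ℂ (0 : S.W.K) = 0 := map_zero (algebraMap S.W.K ℂ)
  have h1 : ∀ u ∈ spE S X V,
      ∀ v ∈ spT S t,
      (CW S).tr X (u * v) = 0 ∧ (CW S).tr X (v * u) = 0 := by
    intro u hu v hv
    induction hu using Submodule.span_induction with
    | mem u hu =>
      obtain ⟨c, hc, rfl⟩ := hu
      clear h0 hs
      induction hv using Submodule.span_induction with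
      | mem v hv =>
        obtain ⟨j, rfl⟩ := hv
        simp only
        rw [← em_mul, ← em_mul, em_tr, em_tr, ho c hc j, ho' c hc j, e0]
        exact ⟨rfl, rfl⟩
      | zero => rw [mul_zero, zero_mul, map_zero]; exact ⟨rfl, rfl⟩
      | add x y _ _ hx hy =>
        rw [mul_add, add_mul, map_add, map_add, hx.1, hx.2, hy.1, hy.2, add_zero]
        exact ⟨rfl, rfl⟩
      | smul r x _ hx =>
        rw [mul_smul_comm, smul_mul_assoc, map_smul, map_smul, hx.1, hx.2, smul_zero]
        exact ⟨rfl, rfl⟩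
    | zero => rw [mul_zero, zero_mul, map_zero]; exact ⟨rfl, rfl⟩
    | add x y _ _ hx hy =>
      rw [mul_add, add_mul, map_add, map_add, hx.1, hx.2, hy.1, hy.2, add_zero]
      exact ⟨rfl, rfl⟩
    | smul r x _ hx =>
      rw [mul_smul_comm, smul_mul_assoc, map_smul, map_smul, hx.1, hx.2, smul_zero]
      exact ⟨rfl, rfl⟩
  have hA0 : ∀ u ∈ spE S X V, A u = 0 := by
    intro u hu
    induction hu using Submodule.span_induction with
    | mem u hu =>
      obtain ⟨c, hc, rfl⟩ := hu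
      exact h0 c hc
    | zero => rw [map_zero]
    | add x y _ _ hx hy => rw [map_add, hx, hy, add_zero]
    | smul r x _ hx => rw [map_smul, hx, smul_zero]
  have h2 : ∀ j, ∃ w : Fin n → (CW S).K, A (em S.W ℂ (t j)) = ∑ i, w i • em S.W ℂ (t i) := by
    intro j
    obtain ⟨u, hu, v, hv, huv⟩ := Submodule.mem_sup.1 (mem_sup_em hV (A (em S.W ℂ (t j))))
    have hu0 : u = 0 := by
      refine (CW S).nondeg u fun z => ?_
      obtain ⟨z₁, hz₁, z₂, hz₂, rfl⟩ := Submodule.mem_sup.1 (mem_sup_em hV z)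
      have h3 := hs (em S.W ℂ (t j)) z₁
      rw [hA0 z₁ hz₁, mul_zero, map_zero, add_zero, ← huv, add_mul, map_add,
        (h1 z₁ hz₁ v hv).2, add_zero] at h3
      rw [mul_add, map_add, h3, (h1 u hu z₂ hz₂).1, add_zero]
    rw [hu0, zero_add] at huv
    obtain ⟨w, hw⟩ := (Submodule.mem_span_range_iff_exists_fun (CW S).K).1 hv
    exact ⟨w, by rw [← huv, hw]⟩
  choose w hw using h2
  exact ⟨fun i j => w j i, hw⟩

end Gen

variable {T : HodgeTheory ops} {X : 𝒱.Obj}

lemma tr_hsp' {x c : T.W.H X} (hx : IsTr T X x) (hc : c ∈ Hsp T X) : T.W.tr X (c * x) = 0 := by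
  have h1 : c * x = x * c :=
    Pool.Agent.Y133.Half.PH.even_comm
      (ClassPred.sp_even (Q := hodgePred (toH T)) (show c ∈ (hodgePred (toH T)).sp X from hc)) x
  rw [h1]
  exact tr_hsp hx hc

/-- **The Hodge group is as large as possible.** -/
theorem full_orth (hL : S_LIESUM) (hM : S_MATX.{u}) {m p : ℕ} (hX : IsLT T X m p) :
    FullOrthogonal T X := by
  intro F h0 hs
  obtain ⟨q, S, t, c, hMD, he⟩ := hM T X m p hX
  have h0' : ∀ c ∈ Hsp T X, toC (T := T) F (em (toH T).W ℂ c) = 0 := by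
    intro c hc
    exact kill_sp (S := toH T) (fun j a ha => h0 a ⟨j, ha⟩) hc
  have hs' : ∀ x y, (CW (toH T)).tr X (toC (T := T) F x * y) +
      (CW (toH T)).tr X (x * toC (T := T) F y) = 0 := fun x y => hs (ofX x) (ofX y)
  obtain ⟨Z, hZ⟩ := exists_mt (S := toH T) (t := t) (md_sup hMD)
    (fun c hc j => tr_hsp (hMD.tr j) hc) (fun c hc j => tr_hsp' (hMD.tr j) hc) h0' hs'
  have hZs := skew_of_mt (S := toH T) hMD.ne hMD.form hZ hs'
  obtain ⟨G, hG, hGZ⟩ := real_one hL hMD hX he hZs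
  have h1 : G X = toC (T := T) F :=
    md_ext hMD (fun x hx => (fam_sp hG hx).trans (h0' x hx).symm) hGZ hZ
  have h2 := hodgeLie_of_fam (X := X) hG
  rw [h1, ofC_toC] at h2
  exact h2

end Pool.Agent.T2h63.LT
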