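import Pool.Agent.W544.PG.Defs2

/-!
# The motives of surfaces: statements of the algebraic parts
-/

set_option autoImplicit false

open Matrix

namespace Pool.Agent.T2h63.LT

open Pool.Agent.W544.PG (HS mC)

/-- **LIESUM.** A Lie algebra of tuples of skew matrices which is stable under the complex conjugation
and contains the conjugates of the tuple of the Hodge operators contains all tuples of skew matrices, if
the Hodge structures are big and have no morphisms between each other. -/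
def S_LIESUM : Prop := ∀ (r : ℕ) (p q : Fin r → ℕ) (T : ∀ i, HS (2 * p i + q i))
  (_ : ∀ i, 0 < p i)
  (_ : ∀ i, 2 * p i ^ 2 * (p i ^ 2 + 1) < (q i - 2 * p i) * (q i + p i))
  (_ : ∀ i, ((T i).x * (T i).x).trace = 2 * (p i : ℂ)) (_ : ∀ i, (T i).Scalar)
  (_ : ∀ i j, i ≠ j → ∀ P : Matrix (Fin (2 * p j + q j)) (Fin (2 * p i + q i)) ℚ,
    P.map (fun a : ℚ => (a : ℂ)) * (T i).x = (T j).x * P.map (fun a : ℚ => (a : ℂ)) → P = 0)
  (h : Submodule ℂ (∀ i, Matrix (Fin (2 * p i + q i)) (Fin (2 * p i + q i)) ℂ))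
  (_ : ∀ y ∈ h, ∀ i, (y i)ᵀ * mC (T i).Q + mC (T i).Q * y i = 0)
  (_ : ∀ y ∈ h, ∀ z ∈ h, (fun i => y i * z i - z i * y i) ∈ h)
  (_ : ∀ y ∈ h, (fun i => (y i).map (starRingEnd ℂ)) ∈ h)
  (_ : ∀ σ : ℂ ≃+* ℂ, (fun i => (T i).x.map σ) ∈ h)
  (Z : ∀ i, Matrix (Fin (2 * p i + q i)) (Fin (2 * p i + q i)) ℂ)
  (_ : ∀ i, (Z i)ᵀ * mC (T i).Q + mC (T i).Q * Z i = 0), Z ∈ h

/-- **SIMQ.** An ideal of the Lie algebra of all skew matrices which contains all elements of degree two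
contains everything. -/
def S_SIMQ : Prop := ∀ (n p : ℕ) (T : HS n) (_ : 5 ≤ n) (_ : 2 ≤ p)
  (_ : (T.x * T.x).trace = 2 * (p : ℂ)) (J : Submodule ℂ (Matrix (Fin n) (Fin n) ℂ))
  (_ : ∀ y ∈ J, yᵀ * mC T.Q + mC T.Q * y = 0)
  (_ : ∀ Z : Matrix (Fin n) (Fin n) ℂ, Zᵀ * mC T.Q + mC T.Q * Z = 0 → ∀ y ∈ J,
    Z * y - y * Z ∈ J)
  (_ : ∀ y : Matrix (Fin n) (Fin n) ℂ, yᵀ * mC T.Q + mC T.Q * y = 0 →
    T.x * y - y * T.x = (2 : ℂ) • y → y ∈ J)
  (Z : Matrix (Fin n) (Fin n) ℂ) (_ : Zᵀ * mC T.Q + mC T.Q * Z = 0), Z ∈ J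

/-- **FFTO.** The first fundamental theorem for the orthogonal Lie algebra in degrees at most the
dimension, for arrays: the indices with the property `p` (the image of `b`) are those of a basis of the
quadratic space, with the inverse `R` of the matrix `Q` of the form; the others are those of trivial
representations. A family of arrays stable under reindexing and products, which contains the basis
vectors of the trivial part, `R` and the determinant, contains all invariant arrays of degree at most the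
dimension `N`. -/
def S_FFTO : Prop := ∀ (ι : Type) [Fintype ι] [DecidableEq ι] (p : ι → Prop) [DecidablePred p]
  (R Q : Matrix ι ι ℚ) (_ : ∀ i j, R i j = R j i) (_ : ∀ i j, Q i j = Q j i)
  (_ : ∀ i j, ¬ (p i ∧ p j) → R i j = 0) (_ : ∀ i j, ¬ (p i ∧ p j) → Q i j = 0)
  (_ : ∀ i k, p i → p k → ∑ j, R i j * Q j k = if i = k then 1 else 0)
  (Fm : ∀ κ : Type, Submodule ℚ ((κ → ι) → ℚ))
  (_ : ∀ (κ l : Type) (e : κ ≃ l), ∀ a ∈ Fm κ, (fun i : l → ι => a (i ∘ e)) ∈ Fm l)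
  (_ : ∀ (κ l : Type) [Fintype κ] [Fintype l], ∀ a ∈ Fm κ, ∀ b ∈ Fm l,
    (fun i : κ ⊕ l → ι => a (i ∘ Sum.inl) * b (i ∘ Sum.inr)) ∈ Fm (κ ⊕ l))
  (_ : ∀ (κ : Type) [IsEmpty κ] (a : (κ → ι) → ℚ), a ∈ Fm κ)
  (_ : ∀ i, ¬ p i → (fun w : Unit → ι => if w () = i then (1 : ℚ) else 0) ∈ Fm Unit)
  (_ : (fun w : Unit ⊕ Unit → ι => R (w (Sum.inl ())) (w (Sum.inr ()))) ∈ Fm (Unit ⊕ Unit))
  (N : ℕ) (b : Fin N → ι) (_ : Function.Injective b) (_ : ∀ i, p i ↔ i ∈ Set.range b)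
  (_ : (fun w : Fin N → ι => ∑ σ : Equiv.Perm (Fin N),
    if w = b ∘ σ then ((Equiv.Perm.sign σ : ℤ) : ℚ) else 0) ∈ Fm (Fin N))
  (κ : Type) [Fintype κ] [DecidableEq κ] (_ : Fintype.card κ ≤ N) (a : (κ → ι) → ℚ)
  (_ : ∀ u v, p u → p v → ∀ w : κ → ι,
    ∑ k, (R v (w k) * a (Function.update w k u) - R u (w k) * a (Function.update w k v)) = 0),
  a ∈ Fm κ

end Pool.Agent.T2h63.LT
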