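import Pool.Agent.T2h63.LT.Defs
import Pool.Agent.T2h63.LT.Stm
import Pool.Agent.T2h63.CY.Geo1

/-!
# The motives of surfaces: statements of the geometric parts
-/

set_option autoImplicit false

open CategoryTheory AlgebraicGeometry TensorProduct Matrix

universe u

namespace Pool.Agent.T2h63.LT

open Pool.Agent.H914 Pool.Agent.H914.VarClass Pool.Agent.H914.VarClass.Obj
  Pool.Agent.H914.WeilCohomology
open Pool.Agent.Y121.AHS (toH HodgeTheory IsHodge)
open Pool.Agent.Y121.AH (CW em)
open Pool.Agent.Y133.Half (pw)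
open Pool.Agent.T2h63.AH
open Pool.Agent.W544.PG (HS mC)

variable {k : Type u} [Field k] {𝒱 : VarClass k} {ops : CycleOps 𝒱}

/-- The span of the Hodge classes. -/
abbrev Hsp (T : HodgeTheory ops) (X : 𝒱.Obj) : Submodule T.W.K (T.W.H X) :=
  Submodule.span T.W.K {c | IsSomeHodge T X c}

/-- The space of the transcendental classes. -/
def Trp (T : HodgeTheory ops) (X : 𝒱.Obj) : Submodule T.W.K (T.W.H X) where
  carrier := {x | IsTr T X x}
  zero_mem' := ⟨Submodule.zero_mem _, fun c _ => by rw [zero_mul, map_zero]⟩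
  add_mem' := fun {a b} ha hb => ⟨Submodule.add_mem _ ha.1 hb.1, fun c hc => by
    rw [add_mul, map_add, ha.2 c hc, hb.2 c hc, add_zero]⟩
  smul_mem' := fun r a ha => ⟨Submodule.smul_mem _ _ ha.1, fun c hc => by
    rw [smul_mul_assoc, map_smul, ha.2 c hc, smul_zero]⟩

/-- A complex number as a scalar. -/
abbrev cz (T : HodgeTheory ops) (z : ℂ) : (CW (toH T)).K := z

/-- The matrices of the Hodge structure on the transcendental classes of `X`: `t` is a basis of the
space of the transcendental classes, `S.x` is the matrix of half of the Hodge operator, and `S.Q` is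
proportional to the matrix of the intersection form. -/
structure MD (T : HodgeTheory ops) (X : 𝒱.Obj) {n : ℕ} (p : ℕ) (S : HS n)
    (t : Fin n → T.W.H X) (c : ℚ) : Prop where
  tr : ∀ i, IsTr T X (t i)
  span : ∀ x, IsTr T X x → x ∈ Submodule.span T.W.K (Set.range t)
  indep : LinearIndependent T.W.K t
  compl : IsCompl (Hsp T X) (Trp T X)
  nop : ∀ j, AH.nop (toH T) X (em (toH T).W ℂ (t j)) =
    ∑ i, cz T (2 * S.x i j) • (show (CW (toH T)).H X from em (toH T).W ℂ (t i))
  form : ∀ i j, T.W.tr X (t i * t j) = ((c * S.Q i j : ℚ) : T.W.K)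
  ne : c ≠ 0
  scalar : S.Scalar
  trace : (S.x * S.x).trace = 2 * (p : ℂ)

/-- **DEC.** The cohomology is the direct sum of the span of the Hodge classes and the space of the
transcendental classes. -/
def S_DEC : Prop := ∀ {k : Type u} [Field k] {𝒱 : VarClass k} {ops : CycleOps 𝒱}
  (T : HodgeTheory ops) (X : 𝒱.Obj),
  (∀ i, i ≠ X.dim → ∀ c ∈ T.W.gr X i, c ∈ Submodule.span T.W.K {c | IsSomeHodge T X c}) →
  IsCompl (Hsp T X) (Trp T X) ∧ Module.finrank T.W.K (Trp T X) = trBetti T X

/-- **MATX.** The matrices of the Hodge structure on the transcendental classes. -/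
def S_MATX : Prop := ∀ {k : Type u} [Field k] {𝒱 : VarClass k} {ops : CycleOps 𝒱}
  (T : HodgeTheory ops) (X : 𝒱.Obj) (m p : ℕ), IsLT T X m p →
  ∃ (q : ℕ) (S : HS (2 * p + q)) (t : Fin (2 * p + q) → T.W.H X) (c : ℚ), MD T X p S t c ∧
    2 * p + q = trBetti T X

/-- **CEN.** The centre of the algebra of the endomorphisms is totally real. -/
def S_CEN : Prop := ∀ {k : Type u} [Field k] {𝒱 : VarClass k} {ops : CycleOps 𝒱}
  (T : HodgeTheory ops) (X : 𝒱.Obj) (m p : ℕ), IsLT T X m p →
  ∀ ψ, IsPol T X ψ → RealCentre T X ψ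

/-- **DETH.** The determinants of transcendental classes are Hodge classes. -/
def S_DETH : Prop := ∀ {k : Type u} [Field k] {𝒱 : VarClass k} {ops : CycleOps 𝒱}
  (T : HodgeTheory ops) (X : 𝒱.Obj) (m p : ℕ), IsLT T X m p →
  ∀ (Y : 𝒱.Obj) (f : Fin (trBetti T X) → (Y ⟶ X)) (a : Fin (trBetti T X) → T.W.H X) (j : ℕ),
    2 * j = X.dim * trBetti T X → (∀ i, IsTr T X (a i)) →
      IsHodge T Y j (altSum (fun i => T.W.map (f i)) a)

/-- **ARR.** The Hodge classes on the power with `t` factors, `t` the transcendental Betti number. -/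
def S_ARR : Prop := ∀ {k : Type u} [Field k] {𝒱 : VarClass k} {ops : CycleOps 𝒱}
  (T : HodgeTheory ops) (A : ClassSystem T) (X : 𝒱.Obj) (m p : ℕ), IsLT T X m p →
  FullOrthogonal T X → AllIn A X → DetIn A X →
  ∀ n, n + 1 = trBetti T X → AllIn A (pw X n)

end Pool.Agent.T2h63.LT
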