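import Pool.Agent.T2h63.LT.Sep2
import Pool.Agent.T2h63.LT.Full
import Pool.Agent.T2h63.AH.Main2
import Pool.Agent.T2h63.CY.Main

/-!
# The motives of surfaces: the proof of the main theorem
-/

set_option autoImplicit false
set_option linter.unusedSectionVars false
set_option maxHeartbeats 400000

open CategoryTheory AlgebraicGeometry TensorProduct Matrix

universe u

namespace Pool.Agent.T2h63.LT

open Module
open Pool.Agent.H914 Pool.Agent.H914.VarClass Pool.Agent.H914.VarClass.Obj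
  Pool.Agent.H914.WeilCohomology
open Pool.Agent.Y121.AHS (toH HodgeTheory IsHodge)
open Pool.Agent.Y121.AH (CW em)
open Pool.Agent.Y133.Half (pw prj liftN liftN_prj)
open Pool.Agent.T2h63.AH
open Pool.Agent.W544.PG (HS mC)

variable {k : Type u} [Field k] {𝒱 : VarClass k} {ops : CycleOps 𝒱} {T : HodgeTheory ops}
  {𝒜 : ClassSystem T} {X Y : 𝒱.Obj}

section Alt

variable {K A B C : Type} [Field K] [Algebra K ℂ] [Ring A] [Algebra K A] [Ring B] [Algebra K B]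
  [Ring C] [Algebra K C]

lemma map_altSum {t : ℕ} (r : Fin t → (A →ₐ[K] B)) (a : Fin t → A) (g : B →ₐ[K] C) :
    g (altSum r a) = altSum (fun i => g.comp (r i)) a := by
  rw [altSum, altSum, map_sum]
  refine Finset.sum_congr rfl fun σ _ => ?_
  rw [map_zsmul, map_list_prod, List.map_ofFn]
  rfl

end Alt

/-- The determinants belong to the system if all Hodge classes on the power do. -/
lemma detIn_of (hD : S_DETH.{u}) {m p : ℕ} (hX : IsLT T X m p) {n : ℕ} (hn : n + 1 = trBetti T X)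
    (hall : AllIn 𝒜 (pw X n)) : DetIn 𝒜 X := by
  have key : ∀ t, n + 1 = t → (∀ (Y : 𝒱.Obj) (f : Fin t → (Y ⟶ X)) (a : Fin t → T.W.H X) (j : ℕ),
      2 * j = X.dim * t → (∀ i, IsTr T X (a i)) →
        IsHodge T Y j (altSum (fun i => T.W.map (f i)) a)) →
      ∀ (Y : 𝒱.Obj) (f : Fin t → (Y ⟶ X)) (a : Fin t → T.W.H X) (j : ℕ),
      2 * j = X.dim * t → (∀ i, IsTr T X (a i)) →
        𝒜.P Y j (altSum (fun i => T.W.map (f i)) a) := by
    intro t ht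
    subst ht
    intro hH Y f a j hj ha
    have h1 := hall j _ (hH (pw X n) (prj X n) a j hj ha)
    have h2 := 𝒜.map _ _ (liftN X n f) j _ h1
    rw [map_altSum] at h2
    have h3 : (fun i => (T.W.map (liftN X n f)).comp (T.W.map (prj X n i))) =
        fun i => T.W.map (f i) := by
      funext i
      ext x
      rw [AlgHom.comp_apply, ← T.W.map_comp, liftN_prj]
    rw [h3] at h2
    exact h2
  exact key _ hn (hD T X m p hX)

/-- The separation of finitely many varieties. -/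
theorem sep_finite (hL : S_LIESUM) (hS : S_SIMQ) (hM : S_MATX.{u}) {𝒳 : Set 𝒱.Obj}
    (h𝒳 : ∀ X ∈ 𝒳, ∃ m p, IsLT T X m p) (hne : Distinct T 𝒳) (s : Finset 𝒱.Obj)
    (hs : ∀ X ∈ s, X ∈ 𝒳) (hX : X ∈ s) :
    ∃ F, FamLie (toH T) F ∧ F X = nop (toH T) X ∧ (∀ Y ∈ s, Y ≠ X → F Y = 0) ∧
      ∀ Z, LevelLE T Z 1 → F Z = 0 := by
  let e : Fin s.card → s := s.equivFin.symm
  have h1 : ∀ i : Fin s.card, ∃ m p, IsLT T (e i : 𝒱.Obj) m p := fun i => h𝒳 _ (hs _ (e i).2)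
  choose m p hlt using h1
  have h2 : ∀ i : Fin s.card, ∃ (q : ℕ) (S : HS (2 * p i + q))
      (t : Fin (2 * p i + q) → T.W.H (e i : 𝒱.Obj)) (c : ℚ), MD T (e i : 𝒱.Obj) (p i) S t c ∧
      2 * p i + q = trBetti T (e i : 𝒱.Obj) := fun i => hM T _ _ _ (hlt i)
  choose q S t c h3 using h2
  have D : Dat T (fun i => (e i : 𝒱.Obj)) m p q S t c :=
    ⟨fun i => (h3 i).1, hlt, fun i => (h3 i).2, fun i j hij => hne _ (hs _ (e i).2) _
      (hs _ (e j).2) fun h => hij (s.equivFin.symm.injective (Subtype.ext h))⟩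
  obtain ⟨F, hF, hF1, hF2, hF3⟩ := sep hL hS D (s.equivFin ⟨X, hX⟩)
  have h4 : (e (s.equivFin ⟨X, hX⟩) : 𝒱.Obj) = X := by
    simp [e]
  refine ⟨F, hF, ?_, ?_, hF3⟩
  · have h5 : ∀ Y : 𝒱.Obj, Y = X → F Y = nop (toH T) Y → F X = nop (toH T) X := by
      rintro Y rfl h
      exact h
    exact h5 _ h4 hF1
  · intro Y hY hYX
    have h5 : (e (s.equivFin ⟨Y, hY⟩) : 𝒱.Obj) = Y := by
      simp [e]
    have h6 := hF2 (s.equivFin ⟨Y, hY⟩) (fun h => hYX (by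
      have h7 := s.equivFin.injective h
      exact congrArg Subtype.val h7))
    have h8 : ∀ Z : 𝒱.Obj, Z = Y → F Z = 0 → F Y = 0 := by
      rintro Z rfl h
      exact h
    exact h8 _ h5 h6

/-- The Hodge classes on the powers. -/
theorem powers (hL : S_LIESUM) (hM : S_MATX.{u}) (hC : S_CEN.{u}) (hA : S_ARR.{u}) {m p : ℕ}
    (hX : IsLT T X m p) (h1 : AllIn 𝒜 X) (h2 : DetIn 𝒜 X) (n : ℕ) : AllIn 𝒜 (pw X n) := by
  obtain ⟨ψ, hψ⟩ := hX.polar
  have h3 : 4 ≤ trBetti T X := by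
    have h4 := hX.data.large
    have h5 := hX.data.two
    by_contra hc
    have h6 : trBetti T X - 4 * p = 0 := by omega
    rw [h6, zero_mul] at h4
    exact absurd h4 (Nat.not_lt_zero _)
  have h4 : AllIn 𝒜 (pw X (trBetti T X - 1)) :=
    hA T 𝒜 X m p hX (full_orth hL hM hX) h1 h2 _ (by omega)
  refine abs_pw (isPolarisation hψ) (N := trBetti T X) (Or.inl ⟨hC T X m p hX ψ hψ, ?_⟩) h4 n
  rw [← trBetti_eq]
  omega

/-- **The classes on the products.** -/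
theorem all_in (hL : S_LIESUM) (hS : S_SIMQ) (hM : S_MATX.{u}) (hC : S_CEN.{u}) (hA : S_ARR.{u})
    {𝒵 𝒳 : Set 𝒱.Obj} (h𝒳 : ∀ X ∈ 𝒳, ∃ m p, IsLT T X m p) (hne : Distinct T 𝒳)
    (h𝒵 : ∀ Z ∈ 𝒵, LevelLE T Z 1) (hZ : ∀ Y, Products 𝒵 Y → AllIn 𝒜 Y)
    (hX : ∀ X ∈ 𝒳, AllIn 𝒜 X ∧ DetIn 𝒜 X) (s : Finset 𝒱.Obj) :
    (∀ X ∈ s, X ∈ 𝒳) → ∀ Y, Products (𝒵 ∪ (s : Set 𝒱.Obj)) Y → AllIn 𝒜 Y := by
  classical
  induction s using Finset.induction_on with
  | empty =>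
    intro _ Y hY
    rw [Finset.coe_empty, Set.union_empty] at hY
    exact hZ Y hY
  | insert X s hXs ih =>
    intro hs Y hY
    have hX𝒳 := hs X (Finset.mem_insert_self X s)
    have ih' := ih fun Z hZ => hs Z (Finset.mem_insert_of_mem hZ)
    obtain ⟨F, hF, hFX, hF1, hF2⟩ := sep_finite hL hS hM h𝒳 hne (insert X s) hs
      (Finset.mem_insert_self X s)
    have hF0 : ∀ Z ∈ 𝒵 ∪ (s : Set 𝒱.Obj), F Z = 0 := by
      rintro Z (hZ | hZ)
      · exact hF2 Z (h𝒵 Z hZ)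
      · exact hF1 Z (Finset.mem_insert_of_mem hZ) fun h => hXs (h ▸ hZ)
    obtain ⟨m, p, hlt⟩ := h𝒳 X hX𝒳
    have hpw : ∀ n, AllIn 𝒜 (pw X n) :=
      powers hL hM hC hA hlt (hX X hX𝒳).1 (hX X hX𝒳).2
    rw [Finset.coe_insert, Set.union_insert] at hY
    rcases std_of_products hY with hY | ⟨n, ⟨e⟩⟩ | ⟨Z, n, hZ, ⟨e⟩⟩
    · exact ih' Y hY
    · exact abs_iso ⟨e.symm⟩ (hpw n)
    · exact abs_iso ⟨e.symm⟩ (abs_of_splits (fun j c hc => splits hF hFX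
        (fam_zero hF.isDer hF0 hZ) hc) (ih' Z hZ) (hpw n))

/-- **Full faithfulness.** -/
theorem full_iff (hL : S_LIESUM) (hS : S_SIMQ) (hM : S_MATX.{u}) (hC : S_CEN.{u}) (hA : S_ARR.{u})
    (hD : S_DETH.{u}) {𝒵 𝒳 : Set 𝒱.Obj} (h𝒳 : ∀ X ∈ 𝒳, ∃ m p, IsLT T X m p)
    (hne : Distinct T 𝒳) (h𝒵 : ∀ Z ∈ 𝒵, LevelLE T Z 1) :
    FullyFaithfulOn 𝒜 (Products (𝒵 ∪ 𝒳)) ↔
      FullyFaithfulOn 𝒜 (Products 𝒵) ∧ ∀ X ∈ 𝒳, AllIn 𝒜 X ∧ DetIn 𝒜 X := by
  refine ⟨fun h => ⟨fun A B hA hB => ?_, fun X hX => ⟨?_, ?_⟩⟩, fun h => ?_⟩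
  · exact h A B (hA.mono Set.subset_union_left) (hB.mono Set.subset_union_left)
  · exact abs_of_full h (Products.mem (Or.inr hX))
  · obtain ⟨m, p, hlt⟩ := h𝒳 X hX
    have h1 : 1 ≤ trBetti T X := by
      have h4 := hlt.data.large
      by_contra hc
      have h6 : trBetti T X - 4 * p = 0 := by omega
      rw [h6, zero_mul] at h4
      exact absurd h4 (Nat.not_lt_zero _)
    exact detIn_of hD hlt (n := trBetti T X - 1) (by omega)
      (abs_of_full h (products_pw X (Or.inr hX) _))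
  · refine full_of_abs (fun _ _ => Products.prod) fun Y hY => ?_
    obtain ⟨s, hs, h1⟩ := Pool.Agent.T2h63.CY.products_finite hY
    exact all_in hL hS hM hC hA h𝒳 hne h𝒵 (fun Y hY => abs_of_full h.1 hY) h.2 s hs Y h1

end Pool.Agent.T2h63.LT
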