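import Pool.Agent.T2h63.LT.Dec
import Pool.Agent.T2h63.CY.Main

/-!
# Matrices of natural families of operators
-/

set_option autoImplicit false
set_option linter.unusedSectionVars false

open CategoryTheory AlgebraicGeometry TensorProduct Matrix

universe u

namespace Pool.Agent.T2h63.LT

open Module
open Pool.Agent.H914 Pool.Agent.H914.VarClass Pool.Agent.H914.VarClass.Obj
  Pool.Agent.H914.WeilCohomology
open Pool.Agent.Y121.AH (CW em em_gr em_add em_zero em_tr em_smul em_mul ex hodgePred hodgeSys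
  hodge_nondeg pq_ind tmul_eq)
open Pool.Agent.Y133.Half (pw ClassPred)
open Pool.Agent.T2h63.AH
open Pool.Agent.T2h63.CY (fam_sp fam_skew Other fam_other cjS)
open Pool.Agent.W544.PG (HS mC)

variable {k : Type u} [Field k] {𝒱 : VarClass k} {ops : CycleOps 𝒱}

section Gen

variable {S : Pool.Agent.Y121.AH.HodgeTheory ops} {X Y : 𝒱.Obj} {n m : ℕ}

/-- A complex number as a scalar. -/
abbrev cs (S : Pool.Agent.Y121.AH.HodgeTheory ops) (z : ℂ) : (CW S).K := z

/-- `Z` is the matrix of `A` on the classes `t`. -/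
def Mt (t : Fin n → S.W.H X) (A : Module.End (CW S).K ((CW S).H X))
    (Z : Matrix (Fin n) (Fin n) ℂ) : Prop :=
  ∀ j, A (em S.W ℂ (t j)) = ∑ i, cs S (Z i j) • em S.W ℂ (t i)

variable {t : Fin n → S.W.H X} {A B : Module.End (CW S).K ((CW S).H X)}
  {Z W : Matrix (Fin n) (Fin n) ℂ}

lemma Mt.add (hA : Mt t A Z) (hB : Mt t B W) : Mt t (A + B) (Z + W) := by
  intro j
  rw [LinearMap.add_apply, hA, hB, ← Finset.sum_add_distrib]
  exact Finset.sum_congr rfl fun i _ => (add_smul (cs S (Z i j)) (cs S (W i j)) _).symm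

lemma Mt.smul (c : ℂ) (hA : Mt t A Z) : Mt t (cs S c • A) (c • Z) := by
  intro j
  rw [LinearMap.smul_apply, hA, Finset.smul_sum]
  exact Finset.sum_congr rfl fun i _ => smul_smul (cs S c) (cs S (Z i j)) _

lemma Mt.mul (hA : Mt t A Z) (hB : Mt t B W) : Mt t (A * B) (Z * W) := by
  intro j
  rw [Module.End.mul_apply, hB, map_sum]
  have h1 : ∀ i, A (cs S (W i j) • em S.W ℂ (t i)) =
      ∑ k, (cs S (W i j) * cs S (Z k i)) • em S.W ℂ (t k) := by
    intro i
    rw [map_smul, hA, Finset.smul_sum]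
    exact Finset.sum_congr rfl fun k _ => smul_smul _ _ _
  rw [Finset.sum_congr rfl fun i _ => h1 i, Finset.sum_comm]
  refine Finset.sum_congr rfl fun k _ => ?_
  rw [← Finset.sum_smul]
  congr 1
  have h2 : (Z * W) k j = ∑ i, W i j * Z k i := by
    rw [Matrix.mul_apply]
    exact Finset.sum_congr rfl fun i _ => mul_comm _ _
  exact h2.symm

lemma Mt.neg (hA : Mt t A Z) : Mt t (-A) (-Z) := by
  intro j
  rw [LinearMap.neg_apply, hA, ← Finset.sum_neg_distrib]
  exact Finset.sum_congr rfl fun i _ => (neg_smul (cs S (Z i j)) _).symm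

lemma Mt.sub (hA : Mt t A Z) (hB : Mt t B W) : Mt t (A - B) (Z - W) := by
  rw [sub_eq_add_neg, sub_eq_add_neg]
  exact hA.add hB.neg

lemma Mt.zero : Mt t (0 : Module.End (CW S).K ((CW S).H X)) 0 := by
  intro j
  rw [LinearMap.zero_apply]
  exact (Finset.sum_eq_zero fun i _ => zero_smul (CW S).K _).symm

/-- The conjugate operator has the conjugate matrix. -/
lemma Mt.cop (τ : ℂ ≃ₐ[S.W.K] ℂ) (hA : Mt t A Z) : Mt t (AH.cop τ A) (Z.map τ) := by
  intro j
  rw [cop_apply, sg_em, hA, map_sum]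
  refine Finset.sum_congr rfl fun i _ => ?_
  rw [sg_smul, sg_em]
  rfl

/-- Operators with the same matrix and the same values on a complement are equal. -/
lemma eq_of_mt {V : Submodule S.W.K (S.W.H X)} (hV : ∀ x, x ∈ V ⊔ Submodule.span S.W.K
    (Set.range t)) (h : ∀ c ∈ V, A (em S.W ℂ c) = B (em S.W ℂ c)) (hA : Mt t A Z)
    (hB : Mt t B Z) : A = B := by
  refine ext_em fun a => ?_
  obtain ⟨u, hu, v, hv, rfl⟩ := Submodule.mem_sup.1 (hV a)
  rw [em_add, map_add, map_add, h u hu]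
  congr 1
  induction hv using Submodule.span_induction with
  | mem x hx =>
    obtain ⟨j, rfl⟩ := hx
    rw [hA, hB]
  | zero => rw [em_zero, map_zero, map_zero]
  | add x y _ _ hx hy => rw [em_add, map_add, map_add, hx, hy]
  | smul r x _ hx => rw [em_smul, map_smul, map_smul, hx]

/-- The matrix of a skew operator. -/
lemma skew_of_mt {c : ℚ} {Q : Matrix (Fin n) (Fin n) ℚ} (hc : c ≠ 0)
    (hQ : ∀ i j, S.W.tr X (t i * t j) = ((c * Q i j : ℚ) : S.W.K)) (hA : Mt t A Z)
    (hs : ∀ x y, (CW S).tr X (A x * y) + (CW S).tr X (x * A y) = 0) :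
    Zᵀ * mC Q + mC Q * Z = 0 := by
  have hex : ∀ q : ℚ, ex S.W ℂ (q : S.W.K) = (q : ℂ) := fun q => map_ratCast (algebraMap S.W.K ℂ) q
  have htr : ∀ i j, (CW S).tr X (em S.W ℂ (t i) * em S.W ℂ (t j)) = cs S ((c * Q i j : ℚ) : ℂ) := by
    intro i j
    rw [← em_mul, em_tr, hQ]
    exact hex _
  ext i j
  have h := hs (em S.W ℂ (t i)) (em S.W ℂ (t j))
  rw [hA, hA, Finset.sum_mul, Finset.mul_sum, map_sum, map_sum] at h
  have h1 : ∀ l, (CW S).tr X ((cs S (Z l i) • em S.W ℂ (t l)) * em S.W ℂ (t j)) =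
      cs S (Z l i * ((c * Q l j : ℚ) : ℂ)) := by
    intro l
    rw [smul_mul_assoc, map_smul, htr]
    rfl
  have h2 : ∀ l, (CW S).tr X (em S.W ℂ (t i) * (cs S (Z l j) • em S.W ℂ (t l))) =
      cs S (Z l j * ((c * Q i l : ℚ) : ℂ)) := by
    intro l
    rw [mul_smul_comm, map_smul, htr]
    rfl
  rw [Finset.sum_congr rfl fun l _ => h1 l, Finset.sum_congr rfl fun l _ => h2 l] at h
  have h3 : (∑ l, Z l i * ((c * Q l j : ℚ) : ℂ)) + ∑ l, Z l j * ((c * Q i l : ℚ) : ℂ) = 0 := h
  have h4 : (c : ℂ) * ((Zᵀ * mC Q + mC Q * Z) i j) = 0 := by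
    rw [← h3, Matrix.add_apply, Matrix.mul_apply, Matrix.mul_apply, mul_add, Finset.mul_sum,
      Finset.mul_sum]
    congr 1
    · refine Finset.sum_congr rfl fun l _ => ?_
      simp only [Matrix.transpose_apply, mC, Matrix.map_apply]
      push_cast
      ring
    · refine Finset.sum_congr rfl fun l _ => ?_
      simp only [mC, Matrix.map_apply]
      push_cast
      ring
  rcases mul_eq_zero.1 h4 with h5 | h5
  · exact absurd (by exact_mod_cast h5) hc
  · exact h5

end Gen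

end Pool.Agent.T2h63.LT
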