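import Pool.Agent.T2h63.LT.MatG

/-!
# The polarisation on the transcendental classes
-/

set_option linter.unusedSectionVars false

open CategoryTheory AlgebraicGeometry TensorProduct Matrix

universe u v

namespace Pool.Agent.T2h63.LT

open Module
open Pool.Agent.H914 Pool.Agent.H914.VarClass Pool.Agent.H914.VarClass.Obj
  Pool.Agent.H914.WeilCohomology
open Pool.Agent.Y121.AHS (toH HodgeTheory)
open Pool.Agent.Y121.AH (CW em em_gr em_add em_zero em_tr em_smul em_mul ex hodgePred pq_ind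
  tmul_eq tmul_ind hodge_nondeg hodgeSys)
open Pool.Agent.N996.BP (Bil IsRat extConj extBil conjK)
open Pool.Agent.T2h63.AH
open Pool.Agent.T2h63.CY (val val_add val_smul val_zero val_sg val_rat Bf Bf_add Bf_add' Bf_smul
  Bf_smul' Bf_zero Bf_zero' Bf_sg Bf_orth Bf_skew cjS cjS_cjS conj_cjS)
open Pool.Agent.W544.PG (HS mC)

variable {k : Type u} [Field k] {𝒱 : VarClass k} {ops : CycleOps 𝒱}
  {T : HodgeTheory ops} {X : 𝒱.Obj} {ψ : Bil T.W.K (T.W.H X)} {n : ℕ}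

lemma Bf_em (a b : T.W.H X) :
    ofK (Bf ψ (em (toH T).W ℂ a) (em (toH T).W ℂ b)) = algebraMap T.W.K ℂ (ψ a b) := by
  have h : (LinearMap.BilinForm.baseChange ℂ ψ : LinearMap.BilinForm ℂ (ℂ ⊗[T.W.K] T.W.H X))
      ((1 : ℂ) ⊗ₜ[T.W.K] a) ((1 : ℂ) ⊗ₜ[T.W.K] b) = algebraMap T.W.K ℂ (ψ a b) := by
    rw [LinearMap.BilinForm.baseChange_tmul]
    simp [Algebra.smul_def]
  exact h

/-- The bilinear form. -/
noncomputable def BL (ψ : Bil T.W.K (T.W.H X)) : LinearMap.BilinForm (CW (toH T)).K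
    ((CW (toH T)).H X) :=
  LinearMap.mk₂ (CW (toH T)).K (fun x y => Bf ψ x y) (fun x y z => Bf_add x y z)
    (fun c x y => Bf_smul c x y) (fun x y z => Bf_add' y z x) (fun c x y => Bf_smul' c y x)

lemma BL_apply (x y : (CW (toH T)).H X) : BL ψ x y = Bf ψ x y := rfl

lemma Bf_val (a : Fin n → (toH T).W.H X) (v w : Fin n → ℂ) :
    ofK (Bf ψ (val a v) (val a w)) =
      ∑ i, v i * ∑ j, w j * algebraMap T.W.K ℂ (ψ (a i) (a j)) := by
  have h : Bf ψ (val a v) (val a w) = ∑ i, (show (CW (toH T)).K from v i) *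
      ∑ j, (show (CW (toH T)).K from w j) *
        Bf ψ (em (toH T).W ℂ (a i)) (em (toH T).W ℂ (a j)) := by
    rw [← BL_apply]
    unfold val
    rw [map_sum (BL ψ), LinearMap.sum_apply]
    refine Finset.sum_congr rfl fun i _ => ?_
    rw [map_smul, LinearMap.smul_apply, smul_eq_mul, map_sum]
    congr 1
    refine Finset.sum_congr rfl fun j _ => ?_
    rw [map_smul, smul_eq_mul, BL_apply]
    rfl
  have h2 : ofK (Bf ψ (val a v) (val a w)) = ∑ i, v i * ∑ j, w j *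
      ofK (Bf ψ (em (toH T).W ℂ (a i)) (em (toH T).W ℂ (a j))) := h
  rw [h2]
  refine Finset.sum_congr rfl fun i _ => ?_
  congr 1
  refine Finset.sum_congr rfl fun j _ => ?_
  exact congrArg (fun z => w j * z) (Bf_em (a i) (a j))

lemma cj_pq (hψ : IsPol T X ψ) {p q : ℤ} {x : (CW (toH T)).H X} (hx : x ∈ (toH T).pq X p q) :
    sg (toH T) (cjS (toH T)) X x ∈ (toH T).pq X q p := by
  have h1 := hψ.conj p q (ofX x) hx
  have h2 : Mem (T.pq X) q p (ofX (sg (toH T) (cjS (toH T)) X x)) := (conj_cjS x) ▸ h1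
  exact h2

/-- The positivity. -/
lemma Bf_pos (hψ : IsPol T X ψ) {a b : ℤ} {u : (CW (toH T)).H X}
    (hu : u ∈ (toH T).pq X a b) (hu0 : u ≠ 0) : ∃ r : ℝ, 0 < r ∧
      Complex.I ^ (b - a) * ofK (Bf ψ (sg (toH T) (cjS (toH T)) X u) u) = r := by
  have h0 : sg (toH T) (cjS (toH T)) X u ≠ 0 := by
    intro h
    have h2 := cjS_cjS (toH T) u
    rw [h, map_zero] at h2
    exact hu0 h2.symm
  obtain ⟨r, hr, h1⟩ := hψ.pos b a (ofX (sg (toH T) (cjS (toH T)) X u)) (cj_pq hψ hu) h0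
  refine ⟨r, hr, ?_⟩
  rw [conj_cjS, cjS_cjS] at h1
  exact h1

lemma I_even {c : ℤ} (hc : Even c) : Complex.I ^ c = 1 ∨ Complex.I ^ c = -1 := by
  obtain ⟨d, rfl⟩ := hc
  rw [zpow_add₀ Complex.I_ne_zero, ← mul_zpow, Complex.I_mul_I]
  rcases Int.even_or_odd d with h | h
  · left; exact h.neg_one_zpow
  · right; exact h.neg_one_zpow

lemma Bf_star (hψ : IsPol T X ψ) {a b : ℤ} (hab : Even (b - a)) {u : (CW (toH T)).H X}
    (hu : u ∈ (toH T).pq X a b) :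
    Bf ψ u (sg (toH T) (cjS (toH T)) X u) = Bf ψ (sg (toH T) (cjS (toH T)) X u) u := by
  by_cases hu0 : u = 0
  · subst hu0
    rw [map_zero]
  obtain ⟨r, hr, h1⟩ := Bf_pos hψ hu hu0
  have h2 := Bf_sg (ψ := ψ) (cjS (toH T)) (sg (toH T) (cjS (toH T)) X u) u
  rw [cjS_cjS] at h2
  rw [h2]
  have h3 : starRingEnd ℂ (ofK (Bf ψ (sg (toH T) (cjS (toH T)) X u) u)) =
      ofK (Bf ψ (sg (toH T) (cjS (toH T)) X u) u) := by
    rcases I_even hab with h | h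
    · rw [h, one_mul] at h1
      rw [h1, Complex.conj_ofReal]
    · rw [h, neg_one_mul] at h1
      rw [neg_eq_iff_eq_neg.1 h1, map_neg, Complex.conj_ofReal]
  exact h3

/-- The form is symmetric on the classes of even types. -/
lemma Bf_symm_pq (hψ : IsPol T X ψ) {a b : ℤ} (hab : Even (b - a)) {x y : (CW (toH T)).H X}
    (hx : x ∈ (toH T).pq X a b) (hy : y ∈ (toH T).pq X b a) : Bf ψ x y = Bf ψ y x := by
  set w := sg (toH T) (cjS (toH T)) X y with hw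
  have hwm : w ∈ (toH T).pq X a b := cj_pq hψ hy
  have hwy : sg (toH T) (cjS (toH T)) X w = y := cjS_cjS (toH T) y
  set Ic : (CW (toH T)).K := toK (T := T) Complex.I with hIc
  have hI2 : Ic * Ic = -1 := Complex.I_mul_I
  have hIs : sc (toH T) (cjS (toH T)) Ic = -Ic := Complex.conj_I
  have h1 := Bf_star hψ hab (Submodule.add_mem _ hx hwm)
  have h2 := Bf_star hψ hab (Submodule.add_mem _ hx (Submodule.smul_mem _ Ic hwm))
  have h3 := Bf_star hψ hab hx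
  have h4 := Bf_star hψ hab hwm
  rw [hwy] at h4
  rw [map_add, hwy] at h1
  rw [map_add, sg_smul, hwy, hIs] at h2
  simp only [Bf_add, Bf_add', Bf_smul, Bf_smul'] at h1 h2
  have h5 : (2 : (CW (toH T)).K) * (Bf ψ x y - Bf ψ y x) = 0 := by
    linear_combination (h1 - h3 - h4) + Ic * (h2 - h3 + Ic * Ic * h4) +
      (Bf ψ x y - Bf ψ w (sg (toH T) (cjS (toH T)) X x) +
        Bf ψ (sg (toH T) (cjS (toH T)) X x) w - Bf ψ y x) * hI2
  exact sub_eq_zero.1 ((mul_eq_zero.1 h5).resolve_left two_ne_zero)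

/-- The form is symmetric on the cohomology of level two. -/
lemma Bf_symm (hψ : IsPol T X ψ) {m : ℕ}
    (hl : ∀ (a b : ℤ) (x : (CW (toH T)).H X), x ∈ (toH T).pq X a b → x ≠ 0 → |a - b| ≤ 2)
    {x y : (CW (toH T)).H X} (hx : x ∈ (CW (toH T)).gr X (2 * m))
    (hy : y ∈ (CW (toH T)).gr X (2 * m)) : Bf ψ x y = Bf ψ y x := by
  obtain ⟨x₁, hx₁, x₂, hx₂, x₃, hx₃, rfl⟩ := split3 hl hx
  obtain ⟨y₁, hy₁, y₂, hy₂, y₃, hy₃, rfl⟩ := split3 hl hy
  have e13 := Bf_symm_pq hψ (by exact ⟨-1, by ring⟩) hx₁ hy₃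
  have e22 := Bf_symm_pq hψ (by exact ⟨0, by ring⟩) hx₂ hy₂
  have e31 := Bf_symm_pq hψ (by exact ⟨1, by ring⟩) hx₃ hy₁
  simp only [Bf_add, Bf_add']
  rw [Bf_orth hψ hx₁ hy₁ (by omega), Bf_orth hψ hx₁ hy₂ (by omega), e13,
    Bf_orth hψ hx₂ hy₁ (by omega), e22, Bf_orth hψ hx₂ hy₃ (by omega), e31,
    Bf_orth hψ hx₃ hy₂ (by omega), Bf_orth hψ hx₃ hy₃ (by omega),
    Bf_orth hψ hy₁ hx₁ (by omega), Bf_orth hψ hy₁ hx₂ (by omega),
    Bf_orth hψ hy₂ hx₁ (by omega), Bf_orth hψ hy₂ hx₃ (by omega),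
    Bf_orth hψ hy₃ hx₂ (by omega), Bf_orth hψ hy₃ hx₃ (by omega)]
  ring

/-- The hermitian form is positive. -/
lemma Bf_herm (hψ : IsPol T X ψ) {m : ℕ} {y₁ y₂ y₃ : (CW (toH T)).H X}
    (h₁ : y₁ ∈ (toH T).pq X (m + 1) (m - 1)) (h₂ : y₂ ∈ (toH T).pq X m m)
    (h₃ : y₃ ∈ (toH T).pq X (m - 1) (m + 1)) (hne : y₁ + y₂ + y₃ ≠ 0) :
    0 < (-ofK (Bf ψ (sg (toH T) (cjS (toH T)) X (y₁ + y₂ + y₃)) (y₁ - y₂ + y₃))).re := by
  have hs : ∀ a b c : (CW (toH T)).H X, Bf ψ c (a - b) = Bf ψ c a - Bf ψ c b := by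
    intro a b c
    rw [sub_eq_add_neg, ← neg_one_smul (CW (toH T)).K b, Bf_add', Bf_smul']
    ring
  have c₁ := cj_pq hψ h₁
  have c₂ := cj_pq hψ h₂
  have c₃ := cj_pq hψ h₃
  have p₁ : 0 ≤ (-ofK (Bf ψ (sg (toH T) (cjS (toH T)) X y₁) y₁)).re ∧
      (y₁ ≠ 0 → 0 < (-ofK (Bf ψ (sg (toH T) (cjS (toH T)) X y₁) y₁)).re) := by
    by_cases h0 : y₁ = 0
    · subst h0
      rw [Bf_zero']
      exact ⟨le_of_eq (by rw [show (ofK (0 : (CW (toH T)).K)) = (0 : ℂ) from rfl]; simp),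
        fun h => absurd rfl h⟩
    · obtain ⟨r, hr, e⟩ := Bf_pos hψ h₁ h0
      rw [show ((m : ℤ) - 1) - (m + 1) = -2 by ring, show Complex.I ^ (-2 : ℤ) = -1 by
        rw [_root_.zpow_neg]; norm_num [zpow_ofNat], neg_one_mul] at e
      rw [e, Complex.ofReal_re]
      exact ⟨hr.le, fun _ => hr⟩
  have p₂ : 0 ≤ (ofK (Bf ψ (sg (toH T) (cjS (toH T)) X y₂) y₂)).re ∧
      (y₂ ≠ 0 → 0 < (ofK (Bf ψ (sg (toH T) (cjS (toH T)) X y₂) y₂)).re) := by
    by_cases h0 : y₂ = 0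
    · subst h0
      rw [Bf_zero']
      exact ⟨le_of_eq (by rw [show (ofK (0 : (CW (toH T)).K)) = (0 : ℂ) from rfl]; simp),
        fun h => absurd rfl h⟩
    · obtain ⟨r, hr, e⟩ := Bf_pos hψ h₂ h0
      rw [sub_self, zpow_zero, one_mul] at e
      rw [e, Complex.ofReal_re]
      exact ⟨hr.le, fun _ => hr⟩
  have p₃ : 0 ≤ (-ofK (Bf ψ (sg (toH T) (cjS (toH T)) X y₃) y₃)).re ∧
      (y₃ ≠ 0 → 0 < (-ofK (Bf ψ (sg (toH T) (cjS (toH T)) X y₃) y₃)).re) := by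
    by_cases h0 : y₃ = 0
    · subst h0
      rw [Bf_zero']
      exact ⟨le_of_eq (by rw [show (ofK (0 : (CW (toH T)).K)) = (0 : ℂ) from rfl]; simp),
        fun h => absurd rfl h⟩
    · obtain ⟨r, hr, e⟩ := Bf_pos hψ h₃ h0
      rw [show ((m : ℤ) + 1) - (m - 1) = 2 by ring, show Complex.I ^ (2 : ℤ) = -1 by
        norm_num [zpow_ofNat], neg_one_mul] at e
      rw [e, Complex.ofReal_re]
      exact ⟨hr.le, fun _ => hr⟩
  have key : Bf ψ (sg (toH T) (cjS (toH T)) X (y₁ + y₂ + y₃)) (y₁ - y₂ + y₃) =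
      Bf ψ (sg (toH T) (cjS (toH T)) X y₁) y₁ - Bf ψ (sg (toH T) (cjS (toH T)) X y₂) y₂ +
        Bf ψ (sg (toH T) (cjS (toH T)) X y₃) y₃ := by
    rw [map_add, map_add]
    simp only [Bf_add, Bf_add', hs]
    rw [Bf_orth hψ c₁ h₂ (by omega), Bf_orth hψ c₁ h₃ (by omega), Bf_orth hψ c₂ h₁ (by omega),
      Bf_orth hψ c₂ h₃ (by omega), Bf_orth hψ c₃ h₁ (by omega), Bf_orth hψ c₃ h₂ (by omega)]
    ring
  have key2 : (-ofK (Bf ψ (sg (toH T) (cjS (toH T)) X (y₁ + y₂ + y₃)) (y₁ - y₂ + y₃))).re =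
      (-ofK (Bf ψ (sg (toH T) (cjS (toH T)) X y₁) y₁)).re +
        (ofK (Bf ψ (sg (toH T) (cjS (toH T)) X y₂) y₂)).re +
        (-ofK (Bf ψ (sg (toH T) (cjS (toH T)) X y₃) y₃)).re := by
    rw [key]
    have h4 : ∀ a b c : ℂ, (-(a - b + c)).re = (-a).re + b.re + (-c).re := by
      intro a b c
      simp only [Complex.neg_re, Complex.add_re, Complex.sub_re]
      ring
    exact h4 _ _ _
  rw [key2]
  by_contra hcon
  push Not at hcon
  have z₁ : y₁ = 0 := by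
    by_contra h; have := p₁.2 h; linarith [p₂.1, p₃.1]
  have z₂ : y₂ = 0 := by
    by_contra h; have := p₂.2 h; linarith [p₁.1, p₃.1]
  have z₃ : y₃ = 0 := by
    by_contra h; have := p₃.2 h; linarith [p₁.1, p₂.1]
  apply hne
  rw [z₁, z₂, z₃, add_zero, add_zero]

end Pool.Agent.T2h63.LT
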