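import Pool.Agent.T2h63.LT.MatB

/-!
# Adapted bases of the cohomology
-/

set_option linter.unusedSectionVars false

open CategoryTheory AlgebraicGeometry TensorProduct Matrix

universe u v

namespace Pool.Agent.T2h63.LT

open Module
open Pool.Agent.H914 Pool.Agent.H914.VarClass Pool.Agent.H914.VarClass.Obj
  Pool.Agent.H914.WeilCohomology
open Pool.Agent.Y121.AHS (toH HodgeTheory)
open Pool.Agent.Y121.AH (CW em em_gr em_add em_zero em_tr em_smul em_mul ex hodgePred pq_ind
  tmul_eq tmul_ind hodge_nondeg hodgeSys)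
open Pool.Agent.Y133.Half (ClassPred)
open Pool.Agent.N996.BP (Bil IsRat extConj extBil conjK)
open Pool.Agent.T2h63.AH
open Pool.Agent.T2h63.CY (val val_add val_smul val_zero val_sg val_rat fam_sp fam_skew Other)

variable {k : Type u} [Field k] {𝒱 : VarClass k} {ops : CycleOps 𝒱}
  {S : Pool.Agent.Y121.AH.HodgeTheory ops} {X : 𝒱.Obj} {a n : ℕ}

/-- A basis of the cohomology adapted to the decomposition into Hodge classes and transcendental
classes. -/
structure Co (B : Basis (Fin a ⊕ Fin n) S.W.K (S.W.H X)) : Prop where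
  bm : ∀ i, B (Sum.inl i) ∈ (hodgePred S).sp X
  tg : ∀ j, B (Sum.inr j) ∈ S.W.gr X X.dim
  tm : ∀ j, ∀ y ∈ (hodgePred S).sp X, S.W.tr X (B (Sum.inr j) * y) = 0
  bs : ∀ x ∈ (hodgePred S).sp X, ∀ j, B.repr x (Sum.inr j) = 0
  oth : Other S X.dim X

/-- The Hodge classes of the basis. -/
noncomputable def hb (B : Basis (Fin a ⊕ Fin n) S.W.K (S.W.H X)) (i : Fin a) : S.W.H X :=
  B (Sum.inl i)

/-- The transcendental classes of the basis. -/
noncomputable def tb (B : Basis (Fin a ⊕ Fin n) S.W.K (S.W.H X)) (j : Fin n) : S.W.H X :=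
  B (Sum.inr j)

variable {B : Basis (Fin a ⊕ Fin n) S.W.K (S.W.H X)}

lemma sum_rep (B : Basis (Fin a ⊕ Fin n) S.W.K (S.W.H X)) (x : S.W.H X) :
    x = ∑ i, B.repr x (Sum.inl i) • hb B i + ∑ j, B.repr x (Sum.inr j) • tb B j := by
  conv_lhs => rw [← B.sum_repr x, Fintype.sum_sum_type]
  rfl

lemma tb_indep : LinearIndependent S.W.K (tb B) :=
  B.linearIndependent.comp _ Sum.inr_injective

lemma hb_indep : LinearIndependent S.W.K (hb B) :=
  B.linearIndependent.comp _ Sum.inl_injective

variable (hB : Co B)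

include hB

lemma nd_hb (u : Fin a → S.W.K) (h : ∀ j, S.W.tr X ((∑ i, u i • hb B i) * hb B j) = 0) :
    u = 0 := by
  have hx : (∑ i, u i • hb B i) ∈ (hodgePred S).sp X :=
    Submodule.sum_mem _ fun i _ => Submodule.smul_mem _ _ (hB.bm i)
  have h1 : (∑ i, u i • hb B i) = 0 := by
    refine hodge_nondeg (T := S) (X := X) hx fun y hy => ?_
    have h2 := sum_rep B y
    have h3 : (∑ j, B.repr y (Sum.inr j) • tb B j) = 0 :=
      Finset.sum_eq_zero fun j _ => by rw [hB.bs y hy j, zero_smul]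
    rw [h3, add_zero] at h2
    rw [h2, Finset.mul_sum, map_sum]
    refine Finset.sum_eq_zero fun j _ => ?_
    rw [mul_smul_comm, map_smul, h j, smul_zero]
  funext i
  exact (Fintype.linearIndependent_iff.1 (hb_indep (B := B))) u h1 i

lemma nd_tb (u : Fin n → S.W.K) (h : ∀ j, S.W.tr X ((∑ i, u i • tb B i) * tb B j) = 0) :
    u = 0 := by
  have h1 : (∑ i, u i • tb B i) = 0 := by
    refine S.W.nondeg _ fun y => ?_
    rw [sum_rep B y, mul_add, map_add, Finset.mul_sum, Finset.mul_sum, map_sum, map_sum,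
      Finset.sum_eq_zero, Finset.sum_eq_zero, add_zero]
    · intro j _
      rw [mul_smul_comm, map_smul, h j, smul_zero]
    · intro i _
      rw [mul_smul_comm, map_smul, Finset.sum_mul, map_sum, Finset.sum_eq_zero, smul_zero]
      intro l _
      rw [smul_mul_assoc, map_smul]
      have h2 : S.W.tr X (tb B l * hb B i) = 0 := hB.tm l _ (hB.bm i)
      rw [h2, smul_zero]
  funext i
  exact (Fintype.linearIndependent_iff.1 (tb_indep (B := B))) u h1 i

lemma val_inj {v : Fin n → ℂ} (h : val (tb B) v = 0) : v = 0 := by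
  refine val_inj' (tb B) (nd_tb hB) v fun j => ?_
  rw [h, zero_mul, map_zero]

lemma val_inj2 {v w : Fin n → ℂ} (h : val (tb B) v = val (tb B) w) : v = w := by
  have h1 : val (tb B) (v - w) = 0 := by
    rw [sub_eq_add_neg, ← neg_one_smul ℂ w, val_add, val_smul, h]
    have h2 : (show (CW S).K from (-1 : ℂ)) • val (tb B) w = -val (tb B) w :=
      neg_one_smul (CW S).K _
    rw [h2, add_neg_cancel]
  exact sub_eq_zero.1 (val_inj hB h1)

/-- The classes which are orthogonal to the Hodge classes. -/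
lemma mem_val {x : (CW S).H X}
    (h : ∀ j c, Pool.Agent.Y121.AH.IsHodge S X j c → (CW S).tr X (x * em S.W ℂ c) = 0) :
    ∃ v : Fin n → ℂ, x = val (tb B) v := by
  obtain ⟨z, v, rfl⟩ := exists_val (hb B) (tb B) (fun x => ⟨_, _, sum_rep B x⟩) x
  have hsp : ∀ c ∈ (hodgePred S).sp X, (CW S).tr X ((val (hb B) z +
      val (tb B) v) * em S.W ℂ c) = 0 := by
    intro c hc
    refine ClassPred.sp_ind (Q := hodgePred S) (q := fun c => (CW S).tr X ((val (hb B) z +
      val (tb B) v) * em S.W ℂ c) = 0) (fun j a ha => h j a ha) ?_ ?_ hc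
    · rw [em_zero, mul_zero, map_zero]
    · intro c d hc hd
      rw [em_add, mul_add, map_add, hc, hd, add_zero]
  have hz : z = 0 := by
    refine val_inj' (hb B) (nd_hb hB) z fun j => ?_
    have h1 := hsp _ (hB.bm j)
    rw [add_mul, map_add] at h1
    have h2 : (CW S).tr X (val (tb B) v * em S.W ℂ (B (Sum.inl j))) = 0 := by
      rw [tr_val]
      refine Finset.sum_eq_zero fun i _ => ?_
      have h3 : S.W.tr X (tb B i * B (Sum.inl j)) = 0 := hB.tm i _ (hB.bm j)
      have h4 : ex S.W ℂ (S.W.tr X (tb B i * B (Sum.inl j))) = 0 := by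
        rw [h3]
        exact map_zero (algebraMap S.W.K ℂ)
      rw [h4, mul_zero]
    rw [h2, add_zero] at h1
    exact h1
  refine ⟨v, ?_⟩
  rw [hz, val_zero, zero_add]

lemma val_gr (v : Fin n → ℂ) : val (tb B) v ∈ (CW S).gr X X.dim :=
  Submodule.sum_mem _ fun j _ => Submodule.smul_mem _ _ (em_gr (hB.tg j))

lemma nop_hb (z : Fin a → ℂ) : nop S X (val (hb B) z) = 0 := by
  unfold val
  rw [map_sum]
  refine Finset.sum_eq_zero fun i _ => ?_
  have h2 : nop S X (em S.W ℂ (hb B i)) = 0 := fam_sp FamLie.nop (hB.bm i)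
  rw [map_smul, h2, smul_zero]

/-- The matrix of half of the Hodge operator. -/
lemma exists_mat : ∃ x : Matrix (Fin n) (Fin n) ℂ,
    ∀ v : Fin n → ℂ, nop S X (val (tb B) v) = (2 : (CW S).K) • val (tb B) (x *ᵥ v) := by
  have h1 : ∀ j, ∃ w : Fin n → ℂ, nop S X (em S.W ℂ (tb B j)) = val (tb B) w := by
    intro j
    refine mem_val hB fun i c hc => ?_
    have h2 := fam_skew (S := S) FamLie.nop (em S.W ℂ (tb B j)) (em S.W ℂ c)
    rw [nop_hodge hc, mul_zero, map_zero, add_zero] at h2
    exact h2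
  choose w hw using h1
  refine ⟨Matrix.of fun i j => (2 : ℂ)⁻¹ * w j i, fun v => ?_⟩
  have h3 : nop S X (val (tb B) v) = val (tb B) (∑ j, v j • w j) := by
    have h4 : ∀ s : Finset (Fin n), ∑ j ∈ s, (show (CW S).K from v j) •
        nop S X (em S.W ℂ (tb B j)) = val (tb B) (∑ j ∈ s, v j • w j) := by
      intro s
      induction s using Finset.induction_on with
      | empty => rw [Finset.sum_empty, Finset.sum_empty, val_zero]
      | insert j s hj ih =>
        rw [Finset.sum_insert hj, Finset.sum_insert hj, ih, val_add, val_smul, hw]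
    rw [← h4 Finset.univ]
    unfold val
    rw [map_sum]
    refine Finset.sum_congr rfl fun j _ => ?_
    rw [map_smul]
  rw [h3]
  have h5 := val_smul (tb B) (2 : ℂ) ((Matrix.of fun i j => (2 : ℂ)⁻¹ * w j i) *ᵥ v)
  have h6 : (2 : ℂ) • ((Matrix.of fun i j => (2 : ℂ)⁻¹ * w j i) *ᵥ v) = ∑ j, v j • w j := by
    funext i
    rw [Pi.smul_apply, Matrix.mulVec, dotProduct, Finset.smul_sum, Finset.sum_apply]
    refine Finset.sum_congr rfl fun j _ => ?_
    rw [Matrix.of_apply, Pi.smul_apply, smul_eq_mul, smul_eq_mul]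
    ring
  rw [h6] at h5
  exact h5

end Pool.Agent.T2h63.LT
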