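import Pool.Agent.T2h63.LT.MatC

/-!
# The matrix of the Hodge operator on the transcendental classes
-/

set_option linter.unusedSectionVars false

open CategoryTheory AlgebraicGeometry TensorProduct Matrix

universe u v

namespace Pool.Agent.T2h63.LT

open Module
open Pool.Agent.H914 Pool.Agent.H914.VarClass Pool.Agent.H914.VarClass.Obj
  Pool.Agent.H914.WeilCohomology
open Pool.Agent.Y121.AHS (toH HodgeTheory)
open Pool.Agent.Y121.AH (CW em em_gr em_add em_zero em_tr em_smul em_mul ex hodgePred pq_ind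
  tmul_eq tmul_ind hodge_nondeg hodgeSys)
open Pool.Agent.Y133.Half (ClassPred)
open Pool.Agent.N996.BP (Bil IsRat extConj extBil conjK)
open Pool.Agent.T2h63.AH
open Pool.Agent.T2h63.CY (val val_add val_smul val_zero val_sg val_rat fam_sp fam_skew Other
  cop_nop)

variable {k : Type u} [Field k] {𝒱 : VarClass k} {ops : CycleOps 𝒱}

section Gen

variable {S : Pool.Agent.Y121.AH.HodgeTheory ops} {X : 𝒱.Obj} {a n : ℕ}
  {B : Basis (Fin a ⊕ Fin n) S.W.K (S.W.H X)} (hB : Co B)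
  {x : Matrix (Fin n) (Fin n) ℂ}
  (hx : ∀ v : Fin n → ℂ, nop S X (val (tb B) v) = (2 : (CW S).K) • val (tb B) (x *ᵥ v))

include hB

lemma mat_ext {A C : Matrix (Fin n) (Fin n) ℂ}
    (h : ∀ v : Fin n → ℂ, val (tb B) (A *ᵥ v) = val (tb B) (C *ᵥ v)) : A = C := by
  refine Matrix.toLin'.injective (LinearMap.ext fun v => ?_)
  rw [Matrix.toLin'_apply, Matrix.toLin'_apply]
  exact val_inj2 hB (h v)

lemma two_inj {y z : (CW S).H X} (h : (2 : (CW S).K) • y = (2 : (CW S).K) • z) : y = z :=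
  smul_right_injective _ (two_ne_zero (α := (CW S).K)) h

include hx

lemma nop2 (v : Fin n → ℂ) : nop S X (nop S X (val (tb B) v)) =
    (2 : (CW S).K) • (2 : (CW S).K) • val (tb B) ((x * x) *ᵥ v) := by
  rw [hx, map_smul, hx, Matrix.mulVec_mulVec]

lemma nop3 (v : Fin n → ℂ) : nop S X (nop S X (nop S X (val (tb B) v))) =
    (2 : (CW S).K) • (2 : (CW S).K) • (2 : (CW S).K) • val (tb B) ((x * x * x) *ᵥ v) := by
  rw [nop2 hB hx, map_smul, map_smul, hx, Matrix.mulVec_mulVec, ← mul_assoc]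

variable {m : ℕ} (hm : X.dim = 2 * m)
  (hl : ∀ (a b : ℤ) (x : (CW S).H X), x ∈ S.pq X a b → x ≠ 0 → |a - b| ≤ 2)

include hm hl

/-- The parts of the classes. -/
lemma parts (v : Fin n → ℂ) : ∃ y₁ ∈ S.pq X (m + 1) (m - 1), ∃ y₂ ∈ S.pq X m m,
    ∃ y₃ ∈ S.pq X (m - 1) (m + 1), val (tb B) v = y₁ + y₂ + y₃ ∧
      nop S X (val (tb B) v) = (2 : (CW S).K) • y₁ - (2 : (CW S).K) • y₃ ∧
      nop S X (nop S X (val (tb B) v)) =
        (2 : (CW S).K) • (2 : (CW S).K) • (y₁ + y₃) := by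
  have h1 := val_gr hB v
  rw [hm] at h1
  obtain ⟨y₁, h₁, y₂, h₂, y₃, h₃, h⟩ := split3 hl h1
  refine ⟨y₁, h₁, y₂, h₂, y₃, h₃, h, ?_, ?_⟩
  · rw [h, nop_split h₁ h₂ h₃]
  · rw [h, nop_split h₁ h₂ h₃, map_sub, map_smul, map_smul]
    have e1 := nop_split h₁ (Submodule.zero_mem (S.pq X m m))
      (Submodule.zero_mem (S.pq X (m - 1) (m + 1)))
    have e3 := nop_split (Submodule.zero_mem (S.pq X (m + 1) (m - 1)))
      (Submodule.zero_mem (S.pq X m m)) h₃
    rw [add_zero, add_zero, smul_zero, sub_zero] at e1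
    rw [zero_add, zero_add, smul_zero, zero_sub] at e3
    rw [e1, e3, smul_neg, sub_neg_eq_add, smul_add, smul_add]

lemma cube : x * x * x = x := by
  refine mat_ext hB fun v => ?_
  obtain ⟨y₁, h₁, y₂, h₂, y₃, h₃, -, e1, e2⟩ := parts hB hx hm hl v
  have h3 := nop3 hB hx v
  have h4 : nop S X (nop S X (nop S X (val (tb B) v))) =
      (2 : (CW S).K) • (2 : (CW S).K) • nop S X (val (tb B) v) := by
    rw [e2, map_smul, map_smul, e1]
    have e3 := nop_split h₁ (Submodule.zero_mem (S.pq X m m)) h₃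
    rw [add_zero] at e3
    rw [e3]
  rw [h3, hx] at h4
  exact two_inj hB (two_inj hB (two_inj hB h4))

/-- The classes of type `(m + 1, m - 1)`. -/
lemma top_iff (y : (CW S).H X) : y ∈ S.pq X (m + 1) (m - 1) ↔
    ∃ v : Fin n → ℂ, x *ᵥ v = v ∧ val (tb B) v = y := by
  constructor
  · intro hy
    have h1 : nop S X y = (2 : (CW S).K) • y := by
      rw [nop_pq hy, show ((m : ℤ) + 1) - (m - 1) = 2 by ring]
      norm_num
    obtain ⟨v, rfl⟩ := mem_val hB (x := y) (fun j c hc => by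
      have h2 := fam_skew (S := S) FamLie.nop y (em S.W ℂ c)
      rw [nop_hodge hc, mul_zero, map_zero, add_zero, h1, smul_mul_assoc, map_smul] at h2
      exact (smul_eq_zero.1 h2).resolve_left two_ne_zero)
    refine ⟨v, ?_, rfl⟩
    rw [hx] at h1
    exact val_inj2 hB (two_inj hB h1)
  · rintro ⟨v, hv, rfl⟩
    refine pq_of_eigen (i := X.dim) (m := 2) (val_gr hB v) ?_ ?_ (by ring)
    · rw [hx, hv]
      norm_num
    · rw [hm]; push_cast; ring

end Gen

end Pool.Agent.T2h63.LT
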