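import Pool.Agent.T2h63.LT.MatD

/-!
# The forms and the endomorphisms in coordinates
-/

set_option linter.unusedSectionVars false

open CategoryTheory AlgebraicGeometry TensorProduct Matrix

universe u v

namespace Pool.Agent.T2h63.LT

open Module
open Pool.Agent.H914 Pool.Agent.H914.VarClass Pool.Agent.H914.VarClass.Obj
  Pool.Agent.H914.WeilCohomology
open Pool.Agent.Y121.AHS (toH HodgeTheory)
open Pool.Agent.Y121.AH (CW em em_gr em_add em_zero em_tr em_smul em_mul ex hodgePred pq_ind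
  tmul_eq tmul_ind hodge_nondeg hodgeSys)
open Pool.Agent.Y133.Half (ClassPred)
open Pool.Agent.N996.BP (Bil IsRat extConj extBil conjK)
open Pool.Agent.T2h63.AH
open Pool.Agent.T2h63.CY (val val_add val_smul val_zero val_sg val_rat fam_sp fam_skew Other
  cop_nop cjS cjS_cjS)
open Pool.Agent.W544.PG (HS mC)

variable {k : Type u} [Field k] {𝒱 : VarClass k} {ops : CycleOps 𝒱}

section Gen

variable {S : Pool.Agent.Y121.AH.HodgeTheory ops} {X : 𝒱.Obj} {a n : ℕ}

lemma bil_val (L : LinearMap.BilinForm (CW S).K ((CW S).H X)) (g : S.W.H X → S.W.H X → S.W.K)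
    (hg : ∀ c d, L (em S.W ℂ c) (em S.W ℂ d) = ex S.W ℂ (g c d)) (b : Fin n → S.W.H X)
    (v w : Fin n → ℂ) : L (val b v) (val b w) = (show (CW S).K from
      v ⬝ᵥ ((Matrix.of fun i j => algebraMap S.W.K ℂ (g (b i) (b j))) *ᵥ w)) := by
  have h : L (val b v) (val b w) = ∑ i, (show (CW S).K from v i) *
      ∑ j, ex S.W ℂ (g (b i) (b j)) * (show (CW S).K from w j) := by
    unfold val
    rw [map_sum L, LinearMap.sum_apply]
    refine Finset.sum_congr rfl fun i _ => ?_
    rw [map_smul, LinearMap.smul_apply, smul_eq_mul, map_sum]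
    congr 1
    refine Finset.sum_congr rfl fun j _ => ?_
    rw [map_smul, smul_eq_mul, hg, mul_comm]
  exact h

lemma dot_ext {M N : Matrix (Fin n) (Fin n) ℂ}
    (h : ∀ v w : Fin n → ℂ, v ⬝ᵥ (M *ᵥ w) = v ⬝ᵥ (N *ᵥ w)) : M = N := by
  ext i j
  have h1 := h (Pi.single i 1) (Pi.single j 1)
  simpa using h1

variable {B : Basis (Fin a ⊕ Fin n) S.W.K (S.W.H X)} (hB : Co B)
  {x : Matrix (Fin n) (Fin n) ℂ}
  (hx : ∀ v : Fin n → ℂ, nop S X (val (tb B) v) = (2 : (CW S).K) • val (tb B) (x *ᵥ v))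

include hB hx

lemma skew_mat (L : LinearMap.BilinForm (CW S).K ((CW S).H X)) (g : S.W.H X → S.W.H X → S.W.K)
    (hg : ∀ c d, L (em S.W ℂ c) (em S.W ℂ d) = ex S.W ℂ (g c d))
    (hs : ∀ y z, L (nop S X y) z + L y (nop S X z) = 0) :
    xᵀ * (Matrix.of fun i j => algebraMap S.W.K ℂ (g (tb B i) (tb B j))) +
      (Matrix.of fun i j => algebraMap S.W.K ℂ (g (tb B i) (tb B j))) * x = 0 := by
  set G : Matrix (Fin n) (Fin n) ℂ :=
    Matrix.of fun i j => algebraMap S.W.K ℂ (g (tb B i) (tb B j)) with hG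
  refine dot_ext fun v w => ?_
  have h1 := hs (val (tb B) v) (val (tb B) w)
  rw [hx, hx, map_smul, LinearMap.smul_apply, map_smul, bil_val L g hg, bil_val L g hg,
    ← smul_add] at h1
  have h2 := (smul_eq_zero.1 h1).resolve_left (two_ne_zero (α := (CW S).K))
  have h3 : (x *ᵥ v) ⬝ᵥ (G *ᵥ w) + v ⬝ᵥ (G *ᵥ (x *ᵥ w)) = 0 := h2
  rw [Matrix.add_mulVec, dotProduct_add, ← Matrix.mulVec_mulVec, ← Matrix.mulVec_mulVec,
    Matrix.zero_mulVec, dotProduct_zero, Matrix.dotProduct_mulVec v xᵀ, Matrix.vecMul_transpose]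
  exact h3

lemma real_mat (hc : ∀ (p q : ℤ) (x : (CW S).H X), x ∈ S.pq X p q →
    sg S (cjS S) X x ∈ S.pq X q p) : x.map (starRingEnd ℂ) = -x := by
  have h1 : ∀ v : Fin n → ℂ, (fun i => starRingEnd ℂ ((x *ᵥ v) i)) =
      -(x *ᵥ fun i => starRingEnd ℂ (v i)) := by
    intro v
    have h2 := cop_sg (cjS S) (nop S X) (val (tb B) v)
    rw [cop_nop hc, hx, sg_smul, ← val_sg, ← val_sg, LinearMap.neg_apply] at h2
    have h3 := hx fun i => (cjS S) (v i)
    rw [h3] at h2
    have h4 : sc S (cjS S) (2 : (CW S).K) = 2 := by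
      have := sc_int (cjS S) (2 : ℤ)
      exact_mod_cast this
    rw [h4, ← smul_neg] at h2
    have h5 := two_inj hB h2
    have h6 : val (tb B) (-(x *ᵥ fun i => starRingEnd ℂ (v i))) =
        -val (tb B) (x *ᵥ fun i => starRingEnd ℂ (v i)) := by
      rw [← neg_one_smul ℂ, val_smul]
      exact neg_one_smul (CW S).K _
    refine val_inj2 hB ?_
    rw [h6]
    exact h5.symm
  ext i j
  have h2 := congrFun (h1 (Pi.single j 1)) i
  have h3 : (fun i => starRingEnd ℂ ((Pi.single j (1 : ℂ) : Fin n → ℂ) i)) = Pi.single j 1 := by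
    funext l
    by_cases h : l = j
    · subst h; simp
    · simp [h]
  rw [h3] at h2
  simpa using h2

/-- The endomorphism given by a rational matrix. -/
lemma exists_endo {m : ℕ} (hm : X.dim = 2 * m) (P : Matrix (Fin n) (Fin n) ℚ)
    (hP : mC P * x = x * mC P) : ∃ f : S.W.H X →ₗ[S.W.K] S.W.H X,
      (∀ j, f (tb B j) = ∑ i, (P i j : S.W.K) • tb B i) ∧
      ∀ (p q : ℤ), ∀ y ∈ S.pq X p q, bc S f y ∈ S.pq X p q := by
  classical
  set f : S.W.H X →ₗ[S.W.K] S.W.H X := B.constr S.W.K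
    (Sum.elim (fun _ => 0) fun j => ∑ i, (P i j : S.W.K) • tb B i) with hf
  have f1 : ∀ i, f (hb B i) = 0 := fun i => by
    have := B.constr_basis S.W.K
      (Sum.elim (fun _ => 0) fun j => ∑ i, (P i j : S.W.K) • tb B i) (Sum.inl i)
    exact this
  have f2 : ∀ j, f (tb B j) = ∑ i, (P i j : S.W.K) • tb B i := fun j => by
    have := B.constr_basis S.W.K
      (Sum.elim (fun _ => 0) fun j => ∑ i, (P i j : S.W.K) • tb B i) (Sum.inr j)
    exact this
  have f3 : ∀ c, f c = ∑ j, B.repr c (Sum.inr j) • ∑ i, (P i j : S.W.K) • tb B i := by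
    intro c
    conv_lhs => rw [sum_rep B c]
    rw [map_add, map_sum, map_sum, Finset.sum_eq_zero, zero_add]
    · exact Finset.sum_congr rfl fun j _ => by rw [map_smul, f2]
    · intro i _
      rw [map_smul, f1, smul_zero]
  have f4 : ∀ i, ∀ c ∈ S.W.gr X i, f c ∈ S.W.gr X i := by
    intro i c hc
    by_cases hi : i = X.dim
    · rw [f3, hi]
      exact Submodule.sum_mem _ fun j _ => Submodule.smul_mem _ _ (Submodule.sum_mem _ fun l _ =>
        Submodule.smul_mem _ _ (hB.tg l))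
    · have h1 := hB.oth i hi c hc
      rw [f3, Finset.sum_eq_zero]
      · exact Submodule.zero_mem _
      · intro j _
        rw [hB.bs c h1 j, zero_smul]
  have g1 : ∀ z : Fin a → ℂ, bc S f (val (hb B) z) = 0 := by
    intro z
    unfold val
    rw [map_sum]
    refine Finset.sum_eq_zero fun i _ => ?_
    rw [map_smul, bc_em, f1, em_zero, smul_zero]
  have g2 : ∀ v : Fin n → ℂ, bc S f (val (tb B) v) = val (tb B) (mC P *ᵥ v) := by
    intro v
    have h4 : ∀ s : Finset (Fin n), ∑ j ∈ s, (show (CW S).K from v j) •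
        em S.W ℂ (f (tb B j)) = val (tb B) (∑ j ∈ s, v j • fun i => ((P i j : ℚ) : ℂ)) := by
      intro s
      induction s using Finset.induction_on with
      | empty => rw [Finset.sum_empty, Finset.sum_empty, val_zero]
      | insert j s hj ih =>
        rw [Finset.sum_insert hj, Finset.sum_insert hj, ih, val_add, val_smul, val_rat, f2]
    have h5 : (∑ j, v j • fun i => ((P i j : ℚ) : ℂ)) = mC P *ᵥ v := by
      funext i
      rw [Finset.sum_apply, Matrix.mulVec, dotProduct]
      refine Finset.sum_congr rfl fun j _ => ?_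
      rw [Pi.smul_apply, smul_eq_mul, mul_comm]
      rfl
    rw [← h5, ← h4 Finset.univ]
    unfold val
    rw [map_sum]
    refine Finset.sum_congr rfl fun j _ => ?_
    rw [map_smul, bc_em]
  have g3 : ∀ y, nop S X (bc S f y) = bc S f (nop S X y) := by
    intro y
    obtain ⟨z, v, rfl⟩ := exists_val (hb B) (tb B) (fun x => ⟨_, _, sum_rep B x⟩) y
    rw [map_add, map_add, map_add, map_add, g1, nop_hb hB, map_zero, map_zero, zero_add, zero_add,
      g2, hx, hx, map_smul, g2, Matrix.mulVec_mulVec, Matrix.mulVec_mulVec, hP]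
  have g4 : ∀ i, ∀ y ∈ (CW S).gr X i, bc S f y ∈ (CW S).gr X i := by
    intro i y hy
    have hy' : y ∈ (S.W.gr X i).baseChange ℂ := hy
    refine base_induction (P := fun y : ℂ ⊗[S.W.K] S.W.H X =>
      bc S f (show (CW S).H X from y) ∈ (CW S).gr X i) ?_ ?_ ?_ hy'
    · exact (map_zero (bc S f)).symm ▸ Submodule.zero_mem _
    · intro x y hx hy
      exact (map_add (bc S f) (show (CW S).H X from x) (show (CW S).H X from y)).symm ▸
        Submodule.add_mem _ hx hy
    · intro l c hc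
      have h := tmul_eq (W := S.W) (L := ℂ) l c
      have h2 : bc S f (show (CW S).H X from (l ⊗ₜ[S.W.K] c)) ∈ (CW S).gr X i := by
        rw [h, map_smul, bc_em]
        exact Submodule.smul_mem _ _ (em_gr (f4 i c hc))
      exact h2
  refine ⟨f, f2, fun p q y hy => ?_⟩
  by_cases hpq : p + q < 0
  · rw [pq_neg hpq hy, map_zero]
    exact Submodule.zero_mem _
  · obtain ⟨i, hi⟩ := Int.eq_ofNat_of_zero_le (not_lt.1 hpq)
    refine pq_of_eigen (i := i) (m := p - q) (g4 i y (S.dec.le X hi hy)) ?_ hi rfl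
    rw [g3, nop_pq hy, map_smul]

end Gen

end Pool.Agent.T2h63.LT
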