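import Pool.Agent.W544.PG.Defs2

/-!
# Lemmas on matrices for the Hodge structures of level two
-/

set_option autoImplicit false

open Matrix Module

namespace Pool.Agent.T2h63.LT.Mx

open Pool.Agent.W544.PG (HS mC)

variable {n : ℕ}

/-- The intersection form is nondegenerate. -/
theorem det_ne (T : HS n) : T.Q.det ≠ 0 := by
  intro h0
  obtain ⟨v, hv, hv0⟩ := Matrix.exists_mulVec_eq_zero_iff.2 h0
  set C : Matrix (Fin n) (Fin n) ℂ := (2 : ℂ) • (T.x * T.x) - 1 with hC
  have hCC : C * C = 1 := by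
    have h1 : T.x * T.x * (T.x * T.x) = T.x * T.x := by
      rw [← mul_assoc, T.cube]
    rw [hC, sub_mul, mul_sub, mul_sub, smul_mul_smul_comm, h1, one_mul, mul_one, one_mul]
    rw [show (2 : ℂ) * 2 = 2 + 2 by norm_num, add_smul]
    abel
  set vC : Fin n → ℂ := fun i => (v i : ℂ) with hvC
  have h1 : mC T.Q *ᵥ vC = 0 := by
    funext i
    have h2 : ∑ j, T.Q i j * v j = 0 := congrFun hv0 i
    have h3 : ((∑ j, T.Q i j * v j : ℚ) : ℂ) = 0 := by rw [h2, Rat.cast_zero]
    push_cast at h3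
    exact h3
  have h2 : vC ≠ 0 := by
    intro h
    apply hv
    funext i
    have h3 := congrFun h i
    simp only [hvC, Pi.zero_apply, Rat.cast_eq_zero] at h3
    exact h3
  have h3 : C *ᵥ vC ≠ 0 := by
    intro h
    apply h2
    have h4 := congrArg (fun w => C *ᵥ w) h
    simp only [Matrix.mulVec_mulVec, hCC, Matrix.one_mulVec, Matrix.mulVec_zero] at h4
    exact h4
  have h4 := T.pos _ h3
  rw [← hC, Matrix.mulVec_mulVec, mul_assoc, hCC, mul_one, h1, dotProduct_zero] at h4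
  simp at h4

/-- The trace of the square of the Hodge operator. -/
theorem trace_sq (x : Matrix (Fin n) (Fin n) ℂ) (hc : x * x * x = x)
    (hr : x.map (starRingEnd ℂ) = -x) (p : ℕ)
    (hp : finrank ℂ (LinearMap.ker (Matrix.toLin' (x - 1))) = p) :
    (x * x).trace = 2 * (p : ℂ) := by
  set e : Matrix (Fin n) (Fin n) ℂ := (2 : ℂ)⁻¹ • (x * x + x) with he
  have h1 : (x - 1) * e = 0 := by
    rw [he, mul_smul_comm, sub_mul, one_mul, mul_add, ← mul_assoc, hc, add_comm x, sub_self,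
      smul_zero]
  have h2 : LinearMap.IsProj (LinearMap.ker (Matrix.toLin' (x - 1))) (Matrix.toLin' e) := by
    constructor
    · intro v
      rw [LinearMap.mem_ker, Matrix.toLin'_apply, Matrix.toLin'_apply, Matrix.mulVec_mulVec, h1,
        Matrix.zero_mulVec]
    · intro v hv
      rw [LinearMap.mem_ker, Matrix.toLin'_apply, Matrix.sub_mulVec, Matrix.one_mulVec,
        sub_eq_zero] at hv
      rw [Matrix.toLin'_apply, he, Matrix.smul_mulVec, Matrix.add_mulVec,
        ← Matrix.mulVec_mulVec, hv, hv, ← two_smul ℂ v, smul_smul,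
        inv_mul_cancel₀ (two_ne_zero), one_smul]
  have h3 : e.trace = (p : ℂ) := by
    rw [← Matrix.trace_toLin'_eq, h2.trace, hp]
  have h4 : (e.map (starRingEnd ℂ)).trace = (p : ℂ) := by
    rw [Matrix.trace] at h3 ⊢
    have h5 := congrArg (starRingEnd ℂ) h3
    rw [map_sum, map_natCast] at h5
    exact h5
  have h6 : e.map (starRingEnd ℂ) = (2 : ℂ)⁻¹ • (x * x - x) := by
    have h7 : (x * x).map (starRingEnd ℂ) = x * x := by
      rw [Matrix.map_mul, hr, neg_mul_neg]
    have h8 : e.map (starRingEnd ℂ) = (2 : ℂ)⁻¹ • ((x * x).map (starRingEnd ℂ) +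
        x.map (starRingEnd ℂ)) := by
      ext i j
      simp only [he, Matrix.map_apply, Matrix.smul_apply, Matrix.add_apply, smul_eq_mul, map_mul,
        map_add, map_inv₀, map_ofNat]
    rw [h8, h7, hr, sub_eq_add_neg]
  have h9 : x * x = e + e.map (starRingEnd ℂ) := by
    rw [h6, he, ← smul_add, show x * x + x + (x * x - x) = (2 : ℂ) • (x * x) by
      rw [two_smul]; abel, smul_smul, inv_mul_cancel₀ two_ne_zero, one_smul]
  rw [h9, Matrix.trace_add, h3, h4]
  ring

/-- A form with the same invariance is proportional to the intersection form. -/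
theorem form_smul (T : HS n) (hs : T.Scalar) (G : Matrix (Fin n) (Fin n) ℚ)
    (hG : T.xᵀ * mC G + mC G * T.x = 0) : ∃ c : ℚ, G = c • T.Q := by
  have hd := det_ne T
  have hu : IsUnit T.Q.det := isUnit_iff_ne_zero.2 hd
  have hmul : ∀ A B : Matrix (Fin n) (Fin n) ℚ, mC (A * B) = mC A * mC B := by
    intro A B
    ext i j
    simp [mC, Matrix.mul_apply]
  have hone : mC (1 : Matrix (Fin n) (Fin n) ℚ) = 1 := by
    ext i j
    by_cases h : i = j
    · subst h; simp [mC]
    · simp [mC, h]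
  have h1 : mC T.Q⁻¹ * mC T.Q = 1 := by rw [← hmul, Matrix.nonsing_inv_mul _ hu, hone]
  have h2 : mC T.Q * mC T.Q⁻¹ = 1 := by rw [← hmul, Matrix.mul_nonsing_inv _ hu, hone]
  have h3 : T.x * mC T.Q⁻¹ = -(mC T.Q⁻¹ * T.xᵀ) := by
    have h4 := congrArg (fun M => mC T.Q⁻¹ * M * mC T.Q⁻¹) T.skew
    simp only [mul_add, add_mul, mul_zero, zero_mul] at h4
    rw [← mul_assoc (mC T.Q⁻¹) (mC T.Q), h1, one_mul, mul_assoc (mC T.Q⁻¹) (T.xᵀ * mC T.Q),
      mul_assoc T.xᵀ, h2, mul_one] at h4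
    rw [add_comm] at h4
    exact eq_neg_of_add_eq_zero_left h4
  obtain ⟨c, hc⟩ := hs (T.Q⁻¹ * G) (by
    rw [hmul, mul_assoc, ← mul_assoc T.x, h3, neg_mul, mul_assoc, eq_comm, ← mul_neg]
    congr 1
    exact (eq_neg_of_add_eq_zero_right hG).symm)
  refine ⟨c, ?_⟩
  have h5 := congrArg (fun M => T.Q * M) hc
  simp only [← mul_assoc, Matrix.mul_nonsing_inv _ hu, one_mul] at h5
  rw [h5, mul_smul_comm, mul_one]

/-- Nondegenerate matrices over a subfield are nondegenerate. -/
theorem nondeg_base {K : Type} [Field K] [Algebra K ℂ] (M : Matrix (Fin n) (Fin n) K)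
    (h : ∀ u : Fin n → K, u ᵥ* M = 0 → u = 0) (v : Fin n → ℂ)
    (hv : v ᵥ* M.map (algebraMap K ℂ) = 0) : v = 0 := by
  have h1 : M.det ≠ 0 := by
    intro h0
    obtain ⟨u, hu, hu0⟩ := Matrix.exists_vecMul_eq_zero_iff.2 h0
    exact hu (h u hu0)
  have h2 : (M.map (algebraMap K ℂ)).det ≠ 0 := by
    rw [← RingHom.mapMatrix_apply, ← RingHom.map_det]
    exact (map_ne_zero _).2 h1
  by_contra hne
  exact h2 (Matrix.exists_vecMul_eq_zero_iff.1 ⟨v, hne, hv⟩)

end Pool.Agent.T2h63.LT.Mx
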