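import Pool.Agent.T2h63.LT.GStm
import Pool.Agent.T2h63.LT.MatP
import Pool.Agent.T2h63.CY.Geo3
import Pool.Agent.T2h63.CY.Comm
import Pool.Agent.T2h63.CY.Cpl

/-!
# Coordinates on the transcendental classes
-/

set_option linter.unusedSectionVars false

open CategoryTheory AlgebraicGeometry TensorProduct Matrix

universe u v

namespace Pool.Agent.T2h63.LT

open Module
open Pool.Agent.H914 Pool.Agent.H914.VarClass Pool.Agent.H914.VarClass.Obj
  Pool.Agent.H914.WeilCohomology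
open Pool.Agent.Y121.AHS (toH HodgeTheory)
open Pool.Agent.Y121.AH (CW em em_gr em_add em_zero em_tr em_smul em_mul ex hodgePred pq_ind
  tmul_eq tmul_ind hodge_nondeg hodgeSys)
open Pool.Agent.N996.BP (Bil IsRat extConj extBil conjK)
open Pool.Agent.T2h63.AH
open Pool.Agent.T2h63.CY (val val_add val_smul val_zero val_sg val_rat)
open Pool.Agent.W544.PG (HS mC)

variable {k : Type u} [Field k] {𝒱 : VarClass k} {ops : CycleOps 𝒱}

section Gen

variable {S : Pool.Agent.Y121.AH.HodgeTheory ops} {X : 𝒱.Obj} {n : ℕ}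

lemma tr_val (a : Fin n → S.W.H X) (v : Fin n → ℂ) (b : S.W.H X) :
    (CW S).tr X (val a v * em S.W ℂ b) =
      ∑ i, (show (CW S).K from v i) * ex S.W ℂ (S.W.tr X (a i * b)) := by
  unfold val
  rw [Finset.sum_mul, map_sum]
  refine Finset.sum_congr rfl fun i _ => ?_
  rw [smul_mul_assoc, map_smul, ← em_mul, em_tr, smul_eq_mul]

lemma val_inj' (a : Fin n → S.W.H X)
    (h : ∀ u : Fin n → S.W.K, (∀ j, S.W.tr X ((∑ i, u i • a i) * a j) = 0) → u = 0)
    (v : Fin n → ℂ) (hv : ∀ j, (CW S).tr X (val a v * em S.W ℂ (a j)) = 0) : v = 0 := by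
  refine Mx.nondeg_base (Matrix.of fun i j => S.W.tr X (a i * a j)) (fun u hu => h u fun j => ?_)
    v ?_
  · rw [Finset.sum_mul, map_sum]
    have h1 : ∑ i, u i * S.W.tr X (a i * a j) = 0 := congrFun hu j
    rw [← h1]
    refine Finset.sum_congr rfl fun i _ => ?_
    rw [smul_mul_assoc, map_smul, smul_eq_mul]
  · funext j
    have h1 := hv j
    rw [tr_val] at h1
    exact h1

lemma val_ex (b : Fin n → S.W.H X) (u : Fin n → S.W.K) :
    val b (fun i => algebraMap S.W.K ℂ (u i)) = em S.W ℂ (∑ i, u i • b i) := by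
  have h1 : ∀ s : Finset (Fin n), ∑ i ∈ s, ex S.W ℂ (u i) • em S.W ℂ (b i) =
      em S.W ℂ (∑ i ∈ s, u i • b i) := by
    intro s
    induction s using Finset.induction_on with
    | empty => rw [Finset.sum_empty, Finset.sum_empty, em_zero]
    | insert i s hi ih =>
      rw [Finset.sum_insert hi, Finset.sum_insert hi, em_add, ih, em_smul]
  exact h1 Finset.univ

lemma exists_val {a : ℕ} (b : Fin a → S.W.H X) (t : Fin n → S.W.H X)
    (hd : ∀ x : S.W.H X, ∃ (u : Fin a → S.W.K) (w : Fin n → S.W.K),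
      x = ∑ i, u i • b i + ∑ i, w i • t i) (x : (CW S).H X) :
    ∃ (z : Fin a → ℂ) (z' : Fin n → ℂ), x = val b z + val t z' := by
  refine tmul_ind (p := fun x => ∃ (z : Fin a → ℂ) (z' : Fin n → ℂ), x = val b z + val t z')
    ?_ ?_ ?_ x
  · exact ⟨0, 0, by rw [val_zero, val_zero, add_zero]⟩
  · rintro _ _ ⟨z, z', rfl⟩ ⟨w, w', rfl⟩
    refine ⟨z + w, z' + w', ?_⟩
    rw [val_add, val_add]
    abel
  · intro l c
    obtain ⟨u, w, hc⟩ := hd c
    refine ⟨l • fun i => algebraMap S.W.K ℂ (u i), l • fun i => algebraMap S.W.K ℂ (w i), ?_⟩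
    rw [val_smul, val_smul, val_ex, val_ex, ← smul_add, ← em_add, ← hc]
    exact tmul_eq (W := S.W) (L := ℂ) l c

/-- The decomposition into types of a class of degree `2 m` for level two. -/
lemma split3 {m : ℕ} (hl : ∀ (a b : ℤ) (x : (CW S).H X), x ∈ S.pq X a b → x ≠ 0 → |a - b| ≤ 2)
    {y : (CW S).H X} (hy : y ∈ (CW S).gr X (2 * m)) :
    ∃ y₁ ∈ S.pq X (m + 1) (m - 1), ∃ y₂ ∈ S.pq X m m, ∃ y₃ ∈ S.pq X (m - 1) (m + 1),
      y = y₁ + y₂ + y₃ := by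
  rw [gr_eq] at hy
  refine Submodule.iSup_induction
    (fun r : {r : ℤ × ℤ // r.1 + r.2 = (2 * m : ℕ)} => S.pq X r.1.1 r.1.2)
    (motive := fun y => ∃ y₁ ∈ S.pq X (m + 1) (m - 1), ∃ y₂ ∈ S.pq X m m,
      ∃ y₃ ∈ S.pq X (m - 1) (m + 1), y = y₁ + y₂ + y₃) hy ?_ ?_ ?_
  · rintro ⟨⟨a, b⟩, hr⟩ x hx
    have hr' : a + b = ((2 * m : ℕ) : ℤ) := hr
    replace hx : x ∈ S.pq X a b := hx
    by_cases hx0 : x = 0
    · subst hx0
      exact ⟨0, Submodule.zero_mem _, 0, Submodule.zero_mem _, 0, Submodule.zero_mem _, by simp⟩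
    · have h1 := hl a b x hx hx0
      rw [abs_le] at h1
      push_cast at hr'
      have h2 : a = m + 1 ∧ b = m - 1 ∨ a = m ∧ b = m ∨ a = m - 1 ∧ b = m + 1 := by omega
      rcases h2 with ⟨h3, h4⟩ | ⟨h3, h4⟩ | ⟨h3, h4⟩
      · rw [h3, h4] at hx
        exact ⟨x, hx, 0, Submodule.zero_mem _, 0, Submodule.zero_mem _, by simp⟩
      · rw [h3, h4] at hx
        exact ⟨0, Submodule.zero_mem _, x, hx, 0, Submodule.zero_mem _, by simp⟩
      · rw [h3, h4] at hx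
        exact ⟨0, Submodule.zero_mem _, 0, Submodule.zero_mem _, x, hx, by simp⟩
  · exact ⟨0, Submodule.zero_mem _, 0, Submodule.zero_mem _, 0, Submodule.zero_mem _, by simp⟩
  · rintro x y ⟨x₁, hx₁, x₂, hx₂, x₃, hx₃, rfl⟩ ⟨y₁, hy₁, y₂, hy₂, y₃, hy₃, rfl⟩
    exact ⟨x₁ + y₁, Submodule.add_mem _ hx₁ hy₁, x₂ + y₂, Submodule.add_mem _ hx₂ hy₂, x₃ + y₃,
      Submodule.add_mem _ hx₃ hy₃, by abel⟩

lemma nop_split {m : ℕ} {y₁ y₂ y₃ : (CW S).H X} (h₁ : y₁ ∈ S.pq X (m + 1) (m - 1))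
    (h₂ : y₂ ∈ S.pq X m m) (h₃ : y₃ ∈ S.pq X (m - 1) (m + 1)) :
    nop S X (y₁ + y₂ + y₃) = (2 : (CW S).K) • y₁ - (2 : (CW S).K) • y₃ := by
  have e1 : ((((m : ℤ) + 1) - (m - 1) : ℤ) : (CW S).K) = 2 := by
    rw [show ((m : ℤ) + 1) - (m - 1) = 2 by ring]; norm_num
  have e3 : ((((m : ℤ) - 1) - (m + 1) : ℤ) : (CW S).K) = -2 := by
    rw [show ((m : ℤ) - 1) - (m + 1) = -2 by ring]; norm_num
  rw [map_add, map_add, nop_pq h₁, nop_pq h₂, nop_pq h₃, e1, e3, sub_self, Int.cast_zero,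
    zero_smul, add_zero, neg_smul, sub_eq_add_neg]

end Gen

end Pool.Agent.T2h63.LT
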