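import Pool.Agent.T2h63.LT.Mat

/-!
# All tuples of skew operators belong to the Hodge Lie algebra
-/

set_option autoImplicit false
set_option linter.unusedSectionVars false

open CategoryTheory AlgebraicGeometry TensorProduct Matrix

universe u

namespace Pool.Agent.T2h63.LT

open Module
open Pool.Agent.H914 Pool.Agent.H914.VarClass Pool.Agent.H914.VarClass.Obj
  Pool.Agent.H914.WeilCohomology
open Pool.Agent.Y121.AHS (toH HodgeTheory IsHodge)
open Pool.Agent.Y121.AH (CW em em_gr em_add em_zero em_tr em_smul em_mul ex hodgePred hodgeSys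
  hodge_nondeg pq_ind pq_ext tmul_eq)
open Pool.Agent.Y133.Half (pw ClassPred)
open Pool.Agent.T2h63.AH
open Pool.Agent.T2h63.CY (fam_sp fam_skew Other fam_other cjS)
open Pool.Agent.W544.PG (HS mC)

variable {k : Type u} [Field k] {𝒱 : VarClass k} {ops : CycleOps 𝒱}

section LA

variable {K V W : Type*} [Field K] [AddCommGroup V] [Module K V] [AddCommGroup W] [Module K W]

lemma exists_map {n : ℕ} {U V' : Submodule K V} (h : IsCompl U V') {t : Fin n → V}
    (ht : ∀ i, t i ∈ V') (hs : ∀ x ∈ V', x ∈ Submodule.span K (Set.range t))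
    (hi : LinearIndependent K t) (v : Fin n → W) :
    ∃ f : V →ₗ[K] W, (∀ u ∈ U, f u = 0) ∧ ∀ i, f (t i) = v i := by
  have hi' : LinearIndependent K fun i => (⟨t i, ht i⟩ : V') :=
    LinearIndependent.of_comp V'.subtype hi
  have hsp : ⊤ ≤ Submodule.span K (Set.range fun i => (⟨t i, ht i⟩ : V')) := by
    rintro ⟨x, hx⟩ -
    have h1 := hs x hx
    have h2 : Set.range t = V'.subtype '' (Set.range fun i => (⟨t i, ht i⟩ : V')) := by
      rw [← Set.range_comp]
      rfl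
    rw [h2, Submodule.span_image, Submodule.mem_map] at h1
    obtain ⟨y, hy, hyx⟩ := h1
    have h3 : y = ⟨x, hx⟩ := Subtype.ext hyx
    rw [← h3]
    exact hy
  let b := Basis.mk hi' hsp
  refine ⟨LinearMap.ofIsCompl h 0 (b.constr K v), fun u hu => ?_, fun i => ?_⟩
  · exact LinearMap.ofIsCompl_left_apply h (⟨u, hu⟩ : U)
  · have h1 : b i = ⟨t i, ht i⟩ := Basis.mk_apply hi' hsp i
    have h2 := LinearMap.ofIsCompl_right_apply h (φ := (0 : U →ₗ[K] W)) (ψ := b.constr K v) (b i)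
    rw [h1] at h2
    rw [h2, ← h1, Basis.constr_basis]

end LA

section Gen

variable {S : Pool.Agent.Y121.AH.HodgeTheory ops} {X Y : 𝒱.Obj} {n m : ℕ}

/-- The extension of a linear map kills the extension of the kernel. -/
lemma bc_kill {f : S.W.H X →ₗ[S.W.K] S.W.H Y} {i : ℕ} (h : ∀ x ∈ S.W.gr X i, f x = 0)
    {x : (CW S).H X} (hx : x ∈ (CW S).gr X i) : bc S f x = 0 :=
  Pool.Agent.T2h63.CY.bc_zero' (S := S) (w := i) h ⟨x, hx⟩

/-- The extension of a homogeneous linear map is homogeneous. -/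
lemma bc_gr {f : S.W.H X →ₗ[S.W.K] S.W.H Y} {i j : ℕ}
    (h : ∀ x ∈ S.W.gr X i, f x ∈ S.W.gr Y j) {x : (CW S).H X} (hx : x ∈ (CW S).gr X i) :
    bc S f x ∈ (CW S).gr Y j := by
  have hx' : x ∈ (S.W.gr X i).baseChange ℂ := hx
  refine base_induction (P := fun x : ℂ ⊗[S.W.K] S.W.H X => bc S f (show (CW S).H X from x) ∈
    (CW S).gr Y j) ?_ ?_ ?_ hx'
  · exact (map_zero (bc S f)) ▸ Submodule.zero_mem _
  · intro x y hx hy
    have h1 := map_add (bc S f) (show (CW S).H X from x) (show (CW S).H X from y)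
    exact h1 ▸ Submodule.add_mem _ hx hy
  · intro l a ha
    have h1 := tmul_eq (W := S.W) (L := ℂ) l a
    have h2 : bc S f (show (CW S).H X from (l ⊗ₜ[S.W.K] a)) ∈ (CW S).gr Y j := by
      rw [h1, map_smul, bc_em]
      exact Submodule.smul_mem _ _ (em_gr (h a ha))
    exact h2

/-- A homogeneous map which commutes with the Hodge operators shifts the types. -/
lemma shift_of {f : S.W.H X →ₗ[S.W.K] S.W.H Y} {a b : ℕ} {s : ℤ} (hs : (b : ℤ) = a + 2 * s)
    (h0 : ∀ i, i ≠ a → ∀ x ∈ S.W.gr X i, f x = 0)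
    (h1 : ∀ x ∈ S.W.gr X a, f x ∈ S.W.gr Y b)
    (hn : ∀ x, nop S Y (bc S f x) = bc S f (nop S X x)) (p q : ℤ) (x : (CW S).H X)
    (hx : x ∈ S.pq X p q) : bc S f x ∈ S.pq Y (p + s) (q + s) := by
  by_cases hpq : p + q < 0
  · rw [pq_neg hpq hx, map_zero]
    exact Submodule.zero_mem _
  obtain ⟨i, hi⟩ := Int.eq_ofNat_of_zero_le (not_lt.1 hpq)
  have hxi : x ∈ (CW S).gr X i := S.dec.le X hi hx
  by_cases hia : i = a
  · subst hia
    have h2 := hn x
    rw [nop_pq hx, map_smul] at h2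
    exact pq_of_eigen (bc_gr h1 hxi) h2 (by omega) (by ring)
  · rw [bc_kill (h0 i hia) hxi]
    exact Submodule.zero_mem _

/-- Linear maps given by matrices which commute with the matrices of the operators commute with the
operators. -/
lemma comm_of {t : Fin n → S.W.H X} {t' : Fin m → S.W.H Y}
    {A : Module.End (CW S).K ((CW S).H X)} {B : Module.End (CW S).K ((CW S).H Y)}
    {x : Matrix (Fin n) (Fin n) ℂ} {x' : Matrix (Fin m) (Fin m) ℂ} (hA : Mt t A x)
    (hB : Mt t' B x') {P : Matrix (Fin m) (Fin n) ℚ} {f : S.W.H X →ₗ[S.W.K] S.W.H Y}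
    (hf : ∀ j, f (t j) = ∑ i, (P i j : S.W.K) • t' i)
    (hP : P.map (fun a : ℚ => (a : ℂ)) * x = x' * P.map (fun a : ℚ => (a : ℂ))) (j : Fin n) :
    B (bc S f (em S.W ℂ (t j))) = bc S f (A (em S.W ℂ (t j))) := by
  have hex : ∀ q : ℚ, ex S.W ℂ (q : S.W.K) = cs S (q : ℂ) :=
    fun q => map_ratCast (algebraMap S.W.K ℂ) q
  have hem : ∀ (s : Finset (Fin m)) (v : Fin m → S.W.H Y),
      em S.W ℂ (∑ i ∈ s, v i) = ∑ i ∈ s, em S.W ℂ (v i) := by
    intro s v
    induction s using Finset.induction_on with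
    | empty => rw [Finset.sum_empty, Finset.sum_empty, em_zero]
    | insert a s ha ih => rw [Finset.sum_insert ha, Finset.sum_insert ha, em_add, ih]
  have h1 : ∀ j, bc S f (em S.W ℂ (t j)) = ∑ i, cs S (P i j : ℂ) • em S.W ℂ (t' i) := by
    intro j
    rw [bc_em, hf, hem]
    exact Finset.sum_congr rfl fun i _ => by rw [em_smul, hex]
  rw [h1, map_sum, hA, map_sum]
  have h2 : ∀ i, B (cs S (P i j : ℂ) • em S.W ℂ (t' i)) =
      ∑ l, (cs S (P i j : ℂ) * cs S (x' l i)) • em S.W ℂ (t' l) := by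
    intro i
    rw [map_smul, hB, Finset.smul_sum]
    exact Finset.sum_congr rfl fun _ _ => smul_smul _ _ _
  have h3 : ∀ i, bc S f (cs S (x i j) • em S.W ℂ (t i)) =
      ∑ l, (cs S (x i j) * cs S (P l i : ℂ)) • em S.W ℂ (t' l) := by
    intro i
    rw [map_smul, h1, Finset.smul_sum]
    exact Finset.sum_congr rfl fun _ _ => smul_smul _ _ _
  rw [Finset.sum_congr rfl fun i _ => h2 i, Finset.sum_congr rfl fun i _ => h3 i]
  refine (Finset.sum_comm.trans ?_).trans Finset.sum_comm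
  refine Finset.sum_congr rfl fun l _ => ?_
  rw [← Finset.sum_smul, ← Finset.sum_smul]
  congr 1
  have h4 := congrFun (congrFun hP l) j
  rw [Matrix.mul_apply, Matrix.mul_apply] at h4
  have h5 : (∑ i, (P i j : ℂ) * x' l i) = ∑ i, x i j * (P l i : ℂ) := by
    calc (∑ i, (P i j : ℂ) * x' l i) = ∑ i, x' l i * (P.map (fun a : ℚ => (a : ℂ))) i j :=
          Finset.sum_congr rfl fun i _ => mul_comm _ _
      _ = ∑ i, (P.map (fun a : ℚ => (a : ℂ))) l i * x i j := h4.symm
      _ = _ := Finset.sum_congr rfl fun i _ => mul_comm _ _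
  exact h5

lemma comm_all {t : Fin n → S.W.H X} {t' : Fin m → S.W.H Y}
    {A : Module.End (CW S).K ((CW S).H X)} {B : Module.End (CW S).K ((CW S).H Y)}
    {x : Matrix (Fin n) (Fin n) ℂ} {x' : Matrix (Fin m) (Fin m) ℂ} (hA : Mt t A x)
    (hB : Mt t' B x') {P : Matrix (Fin m) (Fin n) ℚ} {f : S.W.H X →ₗ[S.W.K] S.W.H Y}
    (hf : ∀ j, f (t j) = ∑ i, (P i j : S.W.K) • t' i)
    (hP : P.map (fun a : ℚ => (a : ℂ)) * x = x' * P.map (fun a : ℚ => (a : ℂ)))
    {V : Submodule S.W.K (S.W.H X)} (hV : ∀ x, x ∈ V ⊔ Submodule.span S.W.K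
    (Set.range t)) (h0 : ∀ c ∈ V, f c = 0) (hA0 : ∀ c ∈ V, A (em S.W ℂ c) = 0)
    (y : (CW S).H X) : B (bc S f y) = bc S f (A y) := by
  have key : B ∘ₗ (bc S f) = (bc S f) ∘ₗ A := by
    refine ext_em fun a => ?_
    obtain ⟨u, hu, v, hv, rfl⟩ := Submodule.mem_sup.1 (hV a)
    have h3 : B (bc S f (em S.W ℂ v)) = bc S f (A (em S.W ℂ v)) := by
      induction hv using Submodule.span_induction with
      | mem x hx =>
        obtain ⟨j, rfl⟩ := hx
        exact comm_of hA hB hf hP j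
      | zero => rw [em_zero, map_zero, map_zero, map_zero, map_zero]
      | add x y _ _ hx hy => rw [em_add, map_add, map_add, map_add, map_add, hx, hy]
      | smul r x _ hx => rw [em_smul, map_smul, map_smul, map_smul, map_smul, hx]
    rw [LinearMap.comp_apply, LinearMap.comp_apply, em_add, map_add, map_add, map_add, map_add,
      bc_em, h0 u hu, em_zero, map_zero, hA0 u hu, map_zero, h3]
  exact congrArg (fun C => C y) key

end Gen

variable {T : HodgeTheory ops} {X Y : 𝒱.Obj}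

lemma md_sup {n p : ℕ} {S : HS n} {t : Fin n → T.W.H X} {c : ℚ} (h : MD T X p S t c)
    (x : T.W.H X) : x ∈ Hsp T X ⊔ Submodule.span T.W.K (Set.range t) := by
  have h1 : x ∈ Hsp T X ⊔ Trp T X := by
    rw [h.compl.sup_eq_top]
    exact Submodule.mem_top
  obtain ⟨u, hu, v, hv, rfl⟩ := Submodule.mem_sup.1 h1
  exact Submodule.add_mem_sup hu (h.span v hv)

lemma md_ext {n p : ℕ} {S : HS n} {t : Fin n → T.W.H X} {c : ℚ} (h : MD T X p S t c)
    {A B : Module.End (CW (toH T)).K ((CW (toH T)).H X)} {Z : Matrix (Fin n) (Fin n) ℂ}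
    (h0 : ∀ x ∈ Hsp T X, A (em (toH T).W ℂ x) = B (em (toH T).W ℂ x))
    (hA : Mt (S := toH T) t A Z) (hB : Mt (S := toH T) t B Z) : A = B :=
  eq_of_mt (S := toH T) (md_sup h) h0 hA hB

lemma fam_md {n p : ℕ} {S : HS n} {t : Fin n → T.W.H X} {c : ℚ} (h : MD T X p S t c)
    {F G : Fam (CW (toH T))} (hF : FamLie (toH T) F) (hG : FamLie (toH T) G)
    {Z : Matrix (Fin n) (Fin n) ℂ} (h1 : Mt (S := toH T) t (F X) Z)
    (h2 : Mt (S := toH T) t (G X) Z) : F X = G X :=
  md_ext h (fun x hx => (fam_sp hF hx).trans (fam_sp hG hx).symm) h1 h2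

lemma fam_md0 {n p : ℕ} {S : HS n} {t : Fin n → T.W.H X} {c : ℚ} (h : MD T X p S t c)
    {F : Fam (CW (toH T))} (hF : FamLie (toH T) F)
    (h1 : Mt (S := toH T) t (F X) 0) : F X = 0 :=
  md_ext h (fun x hx => (fam_sp hF hx).trans (LinearMap.zero_apply _).symm) h1 Mt.zero

lemma nop_mt {n p : ℕ} {S : HS n} {t : Fin n → T.W.H X} {c : ℚ} (h : MD T X p S t c) :
    Mt (S := toH T) t (AH.nop (toH T) X) ((2 : ℂ) • S.x) := fun j => h.nop j

lemma fam_mt_skew {n p : ℕ} {S : HS n} {t : Fin n → T.W.H X} {c : ℚ} (h : MD T X p S t c)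
    {F : Fam (CW (toH T))} (hF : FamLie (toH T) F)
    {Z : Matrix (Fin n) (Fin n) ℂ} (h1 : Mt (S := toH T) t (F X) Z) :
    Zᵀ * mC S.Q + mC S.Q * Z = 0 :=
  skew_of_mt (S := toH T) h.ne h.form h1 (fam_skew hF)

/-- An automorphism of the complex numbers fixes the coefficients. -/
noncomputable def auto (S : Pool.Agent.Y121.AH.HodgeTheory ops) (σ : ℂ ≃+* ℂ) : ℂ ≃ₐ[S.W.K] ℂ :=
  AlgEquiv.ofRingEquiv (f := σ) fun r => by
    obtain ⟨q, rfl⟩ := S.rat r
    rw [map_ratCast, map_ratCast]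

/-- There are no morphisms between the matrices of distinct Hodge structures. -/
lemma hom_zero {n n' p p' m m' : ℕ} {S : HS n} {t : Fin n → T.W.H X} {c : ℚ} (h : MD T X p S t c)
    {S' : HS n'} {t' : Fin n' → T.W.H Y} {c' : ℚ} (h' : MD T Y p' S' t' c')
    (hX : IsLT T X m p) (hY : IsLT T Y m' p') (hD : ZeroOn (T.pq X) (T.pq Y) (IsTr T X))
    {P : Matrix (Fin n') (Fin n) ℚ}
    (hP : P.map (fun a : ℚ => (a : ℂ)) * S.x = S'.x * P.map (fun a : ℚ => (a : ℂ))) : P = 0 := by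
  obtain ⟨f, hf0, hf⟩ := exists_map h.compl h.tr h.span h.indep
    fun j => ∑ i, (P i j : T.W.K) • t' i
  have hrg : ∀ x, f x ∈ T.W.gr Y Y.dim := by
    intro x
    obtain ⟨u, hu, v, hv, rfl⟩ := Submodule.mem_sup.1 (md_sup h x)
    rw [map_add, hf0 u hu, zero_add]
    induction hv using Submodule.span_induction with
    | mem x hx =>
      obtain ⟨j, rfl⟩ := hx
      rw [hf]
      exact Submodule.sum_mem _ fun i _ => Submodule.smul_mem _ _ (h'.tr i).1
    | zero => rw [map_zero]; exact Submodule.zero_mem _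
    | add x y _ _ hx hy => rw [map_add]; exact Submodule.add_mem _ hx hy
    | smul r x _ hx => rw [map_smul]; exact Submodule.smul_mem _ _ hx
  have hP' : P.map (fun a : ℚ => (a : ℂ)) * ((2 : ℂ) • S.x) =
      ((2 : ℂ) • S'.x) * P.map (fun a : ℚ => (a : ℂ)) := by
    rw [Matrix.mul_smul, hP, Matrix.smul_mul]
  have hcm : ∀ x, nop (toH T) Y (bc (toH T) f x) = bc (toH T) f (nop (toH T) X x) :=
    comm_all (S := toH T) (nop_mt h) (nop_mt h') hf hP' (md_sup h) hf0
      fun u hu => fam_sp FamLie.nop hu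
  have hsh : IsShift (T.pq X) (T.pq Y) ((m' : ℤ) - m) f := by
    intro a b x hx
    refine shift_of (S := toH T) (f := f) (a := X.dim) (b := Y.dim) (s := (m' : ℤ) - m) ?_ ?_ ?_ ?_
      a b (toX x) hx
    · have h1 := hX.data.dim
      have h2 := hY.data.dim
      rw [h1, h2]
      push_cast
      ring
    · intro i hi x hx
      exact hf0 x (hX.data.other i hi x hx)
    · intro x _
      exact hrg x
    · intro x
      exact hcm x
  have h0 : ∀ j, f (t j) = 0 := fun j => hD _ f hsh (t j) (h.tr j)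
  ext i j
  have h1 := h0 j
  rw [hf] at h1
  have h2 := Fintype.linearIndependent_iff.1 h'.indep (fun i => (P i j : T.W.K)) h1 i
  exact_mod_cast h2

end Pool.Agent.T2h63.LT
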