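import Pool.Agent.T2h63.LT.Real

/-!
# The realization of all tuples of skew operators and the separation of the varieties
-/

set_option autoImplicit false
set_option linter.unusedSectionVars false

open CategoryTheory AlgebraicGeometry TensorProduct Matrix

universe u

namespace Pool.Agent.T2h63.LT

open Module
open Pool.Agent.H914 Pool.Agent.H914.VarClass Pool.Agent.H914.VarClass.Obj
  Pool.Agent.H914.WeilCohomology
open Pool.Agent.Y121.AHS (toH HodgeTheory IsHodge)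
open Pool.Agent.Y121.AH (CW em em_gr em_add em_zero em_tr em_smul em_mul ex hodgePred hodgeSys
  hodge_nondeg pq_ind pq_ext tmul_eq)
open Pool.Agent.Y133.Half (pw ClassPred)
open Pool.Agent.T2h63.AH
open Pool.Agent.T2h63.CY (fam_sp fam_skew Other fam_other cjS)
open Pool.Agent.W544.PG (HS mC)

variable {k : Type u} [Field k] {𝒱 : VarClass k} {ops : CycleOps 𝒱} {T : HodgeTheory ops}
  {r : ℕ} {X : Fin r → 𝒱.Obj} {m p q : Fin r → ℕ} {S : ∀ i, HS (2 * p i + q i)}
  {t : ∀ i, Fin (2 * p i + q i) → T.W.H (X i)} {c : Fin r → ℚ}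

/-- The matrices of a finite family of varieties. -/
structure Dat (T : HodgeTheory ops) (X : Fin r → 𝒱.Obj) (m p q : Fin r → ℕ)
    (S : ∀ i, HS (2 * p i + q i)) (t : ∀ i, Fin (2 * p i + q i) → T.W.H (X i))
    (c : Fin r → ℚ) : Prop where
  md : ∀ i, MD T (X i) (p i) (S i) (t i) (c i)
  lt : ∀ i, IsLT T (X i) (m i) (p i)
  eq : ∀ i, 2 * p i + q i = trBetti T (X i)
  ne : ∀ i j, i ≠ j → ZeroOn (T.pq (X i)) (T.pq (X j)) (IsTr T (X i))

/-- **The realization.** -/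
theorem real (hL : S_LIESUM) (D : Dat T X m p q S t c)
    (Z : ∀ i, Matrix (Fin (2 * p i + q i)) (Fin (2 * p i + q i)) ℂ)
    (hZ : ∀ i, (Z i)ᵀ * mC (S i).Q + mC (S i).Q * Z i = 0) :
    ∃ F, FamLie (toH T) F ∧ ∀ i, Mt (S := toH T) (t i) (F (X i)) (Z i) := by
  let h : Submodule ℂ (∀ i, Matrix (Fin (2 * p i + q i)) (Fin (2 * p i + q i)) ℂ) :=
    { carrier := {Z | ∃ F, FamLie (toH T) F ∧ ∀ i, Mt (S := toH T) (t i) (F (X i)) (Z i)}
      zero_mem' := ⟨_, FamLie.nop.smul 0, fun i => by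
        rw [zero_smul]
        exact Mt.zero⟩
      add_mem' := fun {a b} ⟨F, hF, h1⟩ ⟨G, hG, h2⟩ =>
        ⟨_, hF.add hG, fun i => (h1 i).add (h2 i)⟩
      smul_mem' := fun z a ⟨F, hF, h1⟩ =>
        ⟨_, hF.smul (cs (toH T) z), fun i => (h1 i).smul z⟩ }
  refine hL r p q S (fun i => lt_of_lt_of_le two_pos (D.lt i).data.two) (fun i => ?_)
    (fun i => (D.md i).trace) (fun i => (D.md i).scalar) (fun i j hij P hP => ?_) h
    ?_ ?_ ?_ ?_ Z hZ
  · have h1 := (D.lt i).data.large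
    have h2 := D.eq i
    have h3 : trBetti T (X i) - 4 * p i = q i - 2 * p i := by omega
    have h4 : trBetti T (X i) - p i = q i + p i := by omega
    rwa [h3, h4] at h1
  · exact hom_zero (D.md i) (D.md j) (D.lt i) (D.lt j) (D.ne i j hij) hP
  · rintro y ⟨F, hF, h1⟩ i
    exact fam_mt_skew (D.md i) hF (h1 i)
  · rintro y ⟨F, hF, h1⟩ z ⟨G, hG, h2⟩
    exact ⟨_, hF.bra hG, fun i => ((h1 i).mul (h2 i)).sub ((h2 i).mul (h1 i))⟩
  · rintro y ⟨F, hF, h1⟩
    exact ⟨_, hF.conj (auto (toH T) (starRingAut : ℂ ≃+* ℂ)), fun i => (h1 i).cop _⟩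
  · intro σ
    refine ⟨_, (FamLie.nop.conj (auto (toH T) σ)).smul (cs (toH T) (1 / 2)), fun i => ?_⟩
    have h1 := ((nop_mt (D.md i)).cop (auto (toH T) σ)).smul (1 / 2)
    have h2 : (1 / 2 : ℂ) • ((2 : ℂ) • (S i).x).map (auto (toH T) σ) = (S i).x.map σ := by
      ext a b
      have h3 : (auto (toH T) σ) (2 * (S i).x a b) = 2 * σ ((S i).x a b) := by
        have h4 : (auto (toH T) σ) (2 * (S i).x a b) = σ (2 * (S i).x a b) := rfl
        rw [h4, map_mul, map_ofNat]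
      have h5 : ((1 / 2 : ℂ) • ((2 : ℂ) • (S i).x).map (auto (toH T) σ)) a b =
          (1 / 2 : ℂ) * (auto (toH T) σ) (2 * (S i).x a b) := rfl
      rw [h5, h3, Matrix.map_apply]
      ring
    rw [h2] at h1
    exact h1

/-- Natural families with given skew matrices on one variety. -/
lemma real_one (hL : S_LIESUM) {X : 𝒱.Obj} {m p q : ℕ} {S : HS (2 * p + q)}
    {t : Fin (2 * p + q) → T.W.H X} {c : ℚ} (hM : MD T X p S t c) (hX : IsLT T X m p)
    (he : 2 * p + q = trBetti T X) {Z : Matrix (Fin (2 * p + q)) (Fin (2 * p + q)) ℂ}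
    (hZ : Zᵀ * mC S.Q + mC S.Q * Z = 0) :
    ∃ F, FamLie (toH T) F ∧ Mt (S := toH T) t (F X) Z := by
  obtain ⟨F, hF, h⟩ := real (r := 1) (X := fun _ => X) (m := fun _ => m) (p := fun _ => p)
    (q := fun _ => q) (S := fun _ => S) (t := fun _ => t) (c := fun _ => c) hL
    ⟨fun _ => hM, fun _ => hX, fun _ => he, fun i j hij => absurd (Subsingleton.elim i j) hij⟩
    (fun _ => Z) (fun _ => hZ)
  exact ⟨F, hF, h 0⟩

end Pool.Agent.T2h63.LT
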