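import Pool.Agent.T2h63.LT.Sep
import Pool.Agent.T2h63.AH.Level

/-!
# The separation of the varieties
-/

set_option autoImplicit false
set_option linter.unusedSectionVars false
set_option maxHeartbeats 400000

open CategoryTheory AlgebraicGeometry TensorProduct Matrix

universe u

namespace Pool.Agent.T2h63.LT

open Module
open Pool.Agent.H914 Pool.Agent.H914.VarClass Pool.Agent.H914.VarClass.Obj
  Pool.Agent.H914.WeilCohomology
open Pool.Agent.Y121.AHS (toH HodgeTheory IsHodge)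
open Pool.Agent.Y121.AH (CW em)
open Pool.Agent.T2h63.AH
open Pool.Agent.W544.PG (HS mC)

variable {k : Type u} [Field k] {𝒱 : VarClass k} {ops : CycleOps 𝒱} {T : HodgeTheory ops}
  {r : ℕ} {X : Fin r → 𝒱.Obj} {m p q : Fin r → ℕ} {S : ∀ i, HS (2 * p i + q i)}
  {t : ∀ i, Fin (2 * p i + q i) → T.W.H (X i)} {c : Fin r → ℚ}

/-- The elements of degree two belong to the ideal. -/
lemma deg_two (hL : S_LIESUM) (D : Dat T X m p q S t c) (i₀ : Fin r)
    {y : Matrix (Fin (2 * p i₀ + q i₀)) (Fin (2 * p i₀ + q i₀)) ℂ}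
    (hy : yᵀ * mC (S i₀).Q + mC (S i₀).Q * y = 0)
    (hd : (S i₀).x * y - y * (S i₀).x = (2 : ℂ) • y) :
    ∃ F, FamLie (toH T) F ∧ Mt (S := toH T) (t i₀) (F (X i₀)) y ∧
      (∀ i, i ≠ i₀ → F (X i) = 0) ∧ ∀ Z, LevelLE T Z 1 → F Z = 0 := by
  classical
  obtain ⟨F, hF, h⟩ := real hL D (Function.update
    (0 : ∀ i, Matrix (Fin (2 * p i + q i)) (Fin (2 * p i + q i)) ℂ) i₀ y) (fun i => by
      by_cases hi : i = i₀
      · subst hi
        rw [Function.update_self]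
        exact hy
      · rw [Function.update_of_ne hi]
        simp)
  have h1 : Mt (S := toH T) (t i₀) (F (X i₀)) y := by
    have := h i₀
    rwa [Function.update_self] at this
  have h2 : ∀ i, i ≠ i₀ → F (X i) = 0 := by
    intro i hi
    have := h i
    rw [Function.update_of_ne hi] at this
    exact fam_md0 (D.md i) hF this
  have h3 : nop (toH T) (X i₀) * F (X i₀) - F (X i₀) * nop (toH T) (X i₀) =
      ((2 * 2 : ℤ) : (CW (toH T)).K) • F (X i₀) := by
    have h4 := ((nop_mt (D.md i₀)).mul h1).sub (h1.mul (nop_mt (D.md i₀)))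
    have h5 := h1.smul 4
    have h6 : ((2 : ℂ) • (S i₀).x) * y - y * ((2 : ℂ) • (S i₀).x) = (4 : ℂ) • y := by
      rw [Matrix.smul_mul, Matrix.mul_smul, ← smul_sub, hd, smul_smul]
      norm_num
    rw [h6] at h4
    have h7 := fam_md (D.md i₀) (FamLie.nop.bra hF) (hF.smul (cs (toH T) 4)) h4 h5
    have h8 : ((2 * 2 : ℤ) : (CW (toH T)).K) = cs (toH T) 4 := by
      have h9 : ((2 * 2 : ℤ) : ℂ) = 4 := by norm_num
      exact h9
    rw [h8]
    exact h7
  set P := zp (CW (toH T)).K (Finset.Icc (-(1 : ℕ) : ℤ) (1 : ℕ)) with hP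
  have h4 : P.eval ((2 * 2 : ℤ) : (CW (toH T)).K) ≠ 0 := by
    apply zp_eval_ne
    rw [Finset.mem_Icc]
    norm_num
  refine ⟨_, (hF.adP P).smul (P.eval ((2 * 2 : ℤ) : (CW (toH T)).K))⁻¹, ?_, ?_, ?_⟩
  · have h5 := adP_eigen h3 P
    have h6 : (P.eval ((2 * 2 : ℤ) : (CW (toH T)).K))⁻¹ • adP (nop (toH T) (X i₀)) P (F (X i₀)) =
        F (X i₀) := by
      rw [h5, smul_smul, inv_mul_cancel₀ h4, one_smul]
    simp only [h6]
    exact h1
  · intro i hi
    simp only [h2 i hi]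
    rw [adP_zero_right, smul_zero]
  · intro Z hZ
    have h5 := level_vanish hZ hF
    rw [← hP] at h5
    rw [h5, smul_zero]

/-- **The separation.** -/
theorem sep (hL : S_LIESUM) (hS : S_SIMQ) (D : Dat T X m p q S t c) (i₀ : Fin r) :
    ∃ F, FamLie (toH T) F ∧ F (X i₀) = nop (toH T) (X i₀) ∧ (∀ i, i ≠ i₀ → F (X i) = 0) ∧
      ∀ Z, LevelLE T Z 1 → F Z = 0 := by
  let J : Submodule ℂ (Matrix (Fin (2 * p i₀ + q i₀)) (Fin (2 * p i₀ + q i₀)) ℂ) :=
    { carrier := {y | ∃ F, FamLie (toH T) F ∧ Mt (S := toH T) (t i₀) (F (X i₀)) y ∧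
        (∀ i, i ≠ i₀ → F (X i) = 0) ∧ ∀ Z, LevelLE T Z 1 → F Z = 0}
      zero_mem' := ⟨_, FamLie.nop.smul 0, by
        rw [zero_smul]
        exact Mt.zero, fun i _ => zero_smul _ _, fun Z _ => zero_smul _ _⟩
      add_mem' := fun {a b} ⟨F, hF, h1, h2, h3⟩ ⟨G, hG, h4, h5, h6⟩ =>
        ⟨_, hF.add hG, h1.add h4, fun i hi => by rw [h2 i hi, h5 i hi, add_zero],
          fun Z hZ => by rw [h3 Z hZ, h6 Z hZ, add_zero]⟩
      smul_mem' := fun z a ⟨F, hF, h1, h2, h3⟩ =>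
        ⟨_, hF.smul (cs (toH T) z), h1.smul z, fun i hi => by rw [h2 i hi, smul_zero],
          fun Z hZ => by rw [h3 Z hZ, smul_zero]⟩ }
  have hn : 5 ≤ 2 * p i₀ + q i₀ := by
    have h1 := (D.lt i₀).data.large
    have h2 := D.eq i₀
    have h3 := (D.lt i₀).data.two
    by_contra hc
    have h4 : trBetti T (X i₀) - 4 * p i₀ = 0 := by omega
    rw [h4, zero_mul] at h1
    exact absurd h1 (Nat.not_lt_zero _)
  have hx : (S i₀).x ∈ J := by
    refine hS _ (p i₀) (S i₀) hn (D.lt i₀).data.two (D.md i₀).trace J ?_ ?_ ?_ _ (S i₀).skew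
    · rintro y ⟨F, hF, h1, -⟩
      exact fam_mt_skew (D.md i₀) hF h1
    · rintro Z hZ y ⟨F, hF, h1, h2, h3⟩
      obtain ⟨G, hG, h4⟩ := real_one hL (D.md i₀) (D.lt i₀) (D.eq i₀) hZ
      exact ⟨_, hG.bra hF, (h4.mul h1).sub (h1.mul h4), fun i hi => by
        rw [h2 i hi, mul_zero, zero_mul, sub_zero], fun Z hZ => by
        rw [h3 Z hZ, mul_zero, zero_mul, sub_zero]⟩
    · intro y hy hd
      exact deg_two hL D i₀ hy hd
  obtain ⟨F, hF, h1, h2, h3⟩ := hx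
  refine ⟨_, hF.smul (cs (toH T) 2), ?_, fun i hi => by rw [h2 i hi, smul_zero],
    fun Z hZ => by rw [h3 Z hZ, smul_zero]⟩
  exact fam_md (D.md i₀) (hF.smul (cs (toH T) 2)) FamLie.nop (h1.smul 2) (nop_mt (D.md i₀))

end Pool.Agent.T2h63.LT
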